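import Pool.Agent.Work.MP_701abf_gt.Sq2.RZ
import Pool.Agent.Work.MP_701abf_gt.Cob.Third

/-!
The formula of Steenrod for `Sq^2` and the operation `sg`.
-/

open MvPolynomial Finset
open Pool.Agent.Work.MP_701abf_gt.Stab Pool.Agent.Work.MP_701abf_gt.Cob

namespace Pool.Agent.Work.MP_701abf_gt.Sq2

lemma th_miss {s u v : ℕ} (huv : u < v) (hv : v ≤ s + 2) (p : Cobar s) :
    th (s + 2) (miss s u v p) = X2 fc (th s p) (s + 2 - v) (s + 2 - u) := by
  unfold miss X2
  rw [if_pos (by omega), th_coface (s := s + 1) (by omega), th_coface (by omega)]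
  have h := face_face (fun _ : Empty => 0) (i := s + 2 - v) (j := s + 2 - u) (by omega) (th s p)
  rw [show s + 2 - u - 1 = s + 1 - u by omega] at h
  exact h.symm

section
variable {A : Type*} [CommRing A]

lemma sum_refl (n : ℕ) (g : ℕ → A) :
    ∑ a ∈ range (n + 1), g a = ∑ a ∈ range (n + 1), g (n - a) := by
  rw [← sum_range_reflect]
  exact sum_congr rfl fun a _ => by rw [Nat.add_sub_cancel]

lemma S4_refl (n : ℕ) (g : ℕ → ℕ → ℕ → ℕ → A) : S4 (n + 1) g =
    S4 (n + 1) (fun a b c d => g (n - a) (n - b) (n - c) (n - d)) := by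
  unfold S4
  rw [sum_refl]
  refine sum_congr rfl fun a _ => ?_
  rw [sum_refl]
  refine sum_congr rfl fun b _ => ?_
  rw [sum_refl]
  refine sum_congr rfl fun c _ => ?_
  rw [sum_refl]

end

theorem th_sqTwo (s : ℕ) (p : Cobar s) :
    th (s + 2) (sqTwo s p) = stQ (X2 fc (th s p)) (s + 3) := by
  set X := X2 fc (th s p) with hX
  unfold sqTwo stQ
  have e1 : ∀ d ∈ range (s + 3), ∀ c ∈ range d, ∀ b ∈ range c, ∀ a ∈ range b,
      th (s + 2) (if a % 2 = b % 2 ∧ b % 2 = c % 2 ∧ c % 2 = d % 2 then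
        miss s a c p * miss s b d p
      else if a % 2 = b % 2 ∧ c % 2 = d % 2 then miss s a d p * miss s b c p
      else if a % 2 = d % 2 ∧ b % 2 = c % 2 then miss s a b p * miss s c d p
      else 0) = (fun a b c d => if a % 2 = b % 2 ∧ b % 2 = c % 2 ∧ c % 2 = d % 2 then
        X a c * X b d
      else if a % 2 = b % 2 ∧ c % 2 = d % 2 then X a d * X b c
      else if a % 2 = d % 2 ∧ b % 2 = c % 2 then X a b * X c d
      else 0) (s + 2 - d) (s + 2 - c) (s + 2 - b) (s + 2 - a) := by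
    intro d hd c hc b hb a ha
    have hd := mem_range.1 hd
    have hc := mem_range.1 hc
    have hb := mem_range.1 hb
    have ha := mem_range.1 ha
    beta_reduce
    by_cases h1 : a % 2 = b % 2 ∧ b % 2 = c % 2 ∧ c % 2 = d % 2
    · rw [if_pos h1, if_pos (by omega), map_mul, th_miss (by omega) (by omega),
        th_miss (by omega) (by omega), mul_comm]
    · rw [if_neg h1, if_neg (c := (s + 2 - d) % 2 = (s + 2 - c) % 2 ∧
        (s + 2 - c) % 2 = (s + 2 - b) % 2 ∧ (s + 2 - b) % 2 = (s + 2 - a) % 2) (by omega)]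
      by_cases h2 : a % 2 = b % 2 ∧ c % 2 = d % 2
      · rw [if_pos h2, if_pos (by omega), map_mul, th_miss (by omega) (by omega),
          th_miss (by omega) (by omega)]
      · rw [if_neg h2, if_neg (c := (s + 2 - d) % 2 = (s + 2 - c) % 2 ∧
          (s + 2 - b) % 2 = (s + 2 - a) % 2) (by omega)]
        by_cases h3 : a % 2 = d % 2 ∧ b % 2 = c % 2
        · rw [if_pos h3, if_pos (by omega), map_mul, th_miss (by omega) (by omega),
            th_miss (by omega) (by omega), mul_comm]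
        · rw [if_neg h3, if_neg (by omega), map_zero]
  have e2 : th (s + 2) (∑ d ∈ range (s + 3), ∑ c ∈ range d, ∑ b ∈ range c, ∑ a ∈ range b,
      (if a % 2 = b % 2 ∧ b % 2 = c % 2 ∧ c % 2 = d % 2 then
        miss s a c p * miss s b d p
      else if a % 2 = b % 2 ∧ c % 2 = d % 2 then miss s a d p * miss s b c p
      else if a % 2 = d % 2 ∧ b % 2 = c % 2 then miss s a b p * miss s c d p
      else 0)) = ∑ d ∈ range (s + 3), ∑ c ∈ range d, ∑ b ∈ range c, ∑ a ∈ range b,
      th (s + 2) (if a % 2 = b % 2 ∧ b % 2 = c % 2 ∧ c % 2 = d % 2 then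
        miss s a c p * miss s b d p
      else if a % 2 = b % 2 ∧ c % 2 = d % 2 then miss s a d p * miss s b c p
      else if a % 2 = d % 2 ∧ b % 2 = c % 2 then miss s a b p * miss s c d p
      else 0) := by
    rw [map_sum]
    refine sum_congr rfl fun d _ => ?_
    rw [map_sum]
    refine sum_congr rfl fun c _ => ?_
    rw [map_sum]
    refine sum_congr rfl fun b _ => ?_
    rw [map_sum]
  rw [e2, sum_congr rfl fun d hd => sum_congr rfl fun c hc => sum_congr rfl fun b hb =>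
    sum_congr rfl fun a ha => e1 d hd c hc b hb a ha]
  set g : ℕ → ℕ → ℕ → ℕ → RR Empty := fun a b c d =>
      if a % 2 = b % 2 ∧ b % 2 = c % 2 ∧ c % 2 = d % 2 then
        X a c * X b d
      else if a % 2 = b % 2 ∧ c % 2 = d % 2 then X a d * X b c
      else if a % 2 = d % 2 ∧ b % 2 = c % 2 then X a b * X c d
      else 0 with hg
  rw [S4_inc (s + 3) (fun a b c d => g (s + 2 - d) (s + 2 - c) (s + 2 - b) (s + 2 - a)),
    S4_inc (s + 3) g, S4_refl (s + 2), S4_rev]
  refine S4_congr fun a ha b hb c hc d hd => ?_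
  by_cases h : a < b ∧ b < c ∧ c < d
  · rw [if_pos h, if_pos (by omega)]
    congr 1 <;> omega
  · rw [if_neg h, if_neg (by omega)]

/-- The operation of degree two represents the operation of Steenrod. -/
theorem th_sqTwo_sg {s : ℕ} {p : Cobar s} (h : cobarD s p = 0) :
    th (s + 2) (sqTwo s p) = sg s (th s p) + dE (s + 2) (corr fc (s + 2) (th s p)) := by
  have h1 : dF fc (s + 2) (th s p) = 0 := by
    rw [dF_fc (s + 1), ← th_d, h, map_zero]
  rw [th_sqTwo, link isFace_fc (M := s + 2) h1, dF_fc (s + 2)]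
  rfl

lemma sqTwo_mod {s t : ℕ} {p : Cobar s} (h : p ∈ Zc s t) :
    th (s + 2) (sqTwo s p) + sg s (th s p) ∈ BR (s + 2) ((2 * t : ℕ) : ℤ) := by
  have h1 : cobarD s p = 0 := h.2
  obtain ⟨h2, h3, -⟩ := th_Zc h
  have h4 := LW.corr (m := s + 2) ⟨h2, h3⟩
  rw [th_sqTwo_sg h1, add_right_comm, add_self2, zero_add]
  refine ⟨_, h4.1, ?_, rfl⟩
  push_cast
  exact h4.2

lemma sqTwo_Zc {s t : ℕ} {p : Cobar s} (h : p ∈ Zc s t) : sqTwo s p ∈ Zc (s + 2) (2 * t) := by
  have h1 := BR_le _ _ (sqTwo_mod h)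
  have h2 : sg s (th s p) ∈ ZR (s + 2) ((2 * t : ℕ) : ℤ) := by
    push_cast
    exact sg_ZR (th_mem_ZR h)
  have h3 := Submodule.add_mem _ h1 h2
  rw [add_add_self2] at h3
  refine ⟨sqTwo_Hom h.1, ?_⟩
  change cobarD (s + 2) (sqTwo s p) = 0
  apply th_inj
  rw [th_d, map_zero]
  exact h3.2.2

lemma sqTwo_BR {s t : ℕ} {p : Cobar s} (h : p ∈ Zc s t) :
    sqTwo s p ∈ Bc (s + 2) (2 * t) ↔ sg s (th s p) ∈ BR (s + 2) (2 * (t : ℤ)) := by
  have h1 := sqTwo_mod h
  push_cast at h1
  rw [← th_mem_BR]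
  push_cast
  constructor
  · intro h2
    have h3 := Submodule.add_mem _ h1 h2
    rwa [add_right_comm, add_self2, zero_add] at h3
  · intro h2
    have h3 := Submodule.add_mem _ h1 h2
    rwa [add_add_self2] at h3

lemma sqOne_BR {s t : ℕ} {p : Cobar s} :
    sqOne s p ∈ Bc (s + 1) (2 * t) ↔ dl s (th s p) ∈ BR (s + 1) (2 * (t : ℤ)) := by
  rw [← th_mem_BR, th_sqOne]
  push_cast
  rfl

end Pool.Agent.Work.MP_701abf_gt.Sq2
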