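import Pool.Agent.Work.MP_701abf_gt.Sq2.Quad
import Pool.Agent.Work.MP_701abf_gt.Stab.Cartan

/-!
The Cartan formula for the quadratic operation of degree two.
-/

namespace Pool.Agent.Work.MP_701abf_gt.Sq2

open Finset
open Pool.Agent.Work.MP_701abf_gt.Stab

section gen
variable {A : Type*} [CommRing A] [Algebra (ZMod 2) A] {f : ℕ → A →ₐ[ZMod 2] A} {x : A}

lemma f_P1' (hf : IsFace f) (w i : ℕ) : f w (P1 f x i) = ∑ v ∈ range (sup w i), X2 f x w v := by
  unfold P1
  rw [map_sum, ← sum_skn (fun v => X2 f x w v) w i (X2_self w)]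
  exact sum_congr rfl fun v _ => f_f hf _ _

lemma P1_P1 (hf : IsFace f) {a b : ℕ} (h : a ≤ b + 1) :
    P1 f (P1 f x b) a = FF f x a (b + 1) := by
  have h1 : P1 f (P1 f x b) a = ∑ u ∈ range a, f u (P1 f x b) := rfl
  rw [h1]
  unfold FF
  refine sum_congr rfl fun u hu => ?_
  have hu := mem_range.1 hu
  rw [f_P1' hf]
  by_cases h2 : b = u
  · subst h2
    have e1 : sup b b = b := by unfold sup; rw [if_pos le_rfl]
    rw [e1, sum_range_succ, X2_self, add_zero]
  · have e1 : sup u b = b + 1 := by unfold sup; rw [if_neg (by omega)]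
    rw [e1]

omit [Algebra (ZMod 2) A] in
/-- The partial sums of a sequence. -/
lemma par_zero_one (a : ℕ → A) (m : ℕ) : ∑ j ∈ range m, a j = par a 0 m + par a 1 m := by
  induction m with
  | zero => simp [par]
  | succ m ih =>
    rw [sum_range_succ, ih, par_succ, par_succ]
    rcases Nat.mod_two_eq_zero_or_one m with h | h
    · rw [if_pos h, if_neg (by omega), add_zero]
      ring
    · rw [if_neg (by omega), if_pos h, add_zero]
      ring

lemma sum_prod (a : ℕ → A) (m : ℕ) :
    ∑ k ∈ range m, (∑ j ∈ range k, a j) * (∑ j ∈ range (k + 1), a j) =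
      pr a m + par a 0 m * par a 1 m + par a (m % 2) m ^ 2 := by
  have h2 : (2 : A) = 0 := two_zero
  induction m with
  | zero => simp [pr, par]
  | succ m ih =>
    rw [sum_range_succ, ih, sum_range_succ, par_zero_one, pr_succ, par_succ, par_succ]
    rcases Nat.mod_two_eq_zero_or_one m with h | h
    · rw [h, if_pos rfl, if_neg (by omega), add_zero, show (m + 1) % 2 = 1 by omega, par_succ,
        if_neg (by omega), add_zero]
      linear_combination (par a 0 m ^ 2 + par a 0 m * par a 1 m) * h2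
    · rw [h, if_neg (by omega), if_pos rfl, add_zero, show (m + 1) % 2 = 0 by omega, par_succ,
        if_neg (by omega), add_zero]
      linear_combination (par a 1 m ^ 2 + par a 0 m * par a 1 m) * h2

lemma pr_closed (a : ℕ → A) (m : ℕ) (h : ∑ j ∈ range m, a j = 0) :
    ∑ k ∈ range m, (∑ j ∈ range k, a j) * (∑ j ∈ range (k + 1), a j) = pr a m := by
  have h2 : (2 : A) = 0 := two_zero
  rw [par_zero_one] at h
  have h1 : par a 0 m = par a 1 m := add_eq_zero2.1 h
  rw [sum_prod, h1]
  rcases Nat.mod_two_eq_zero_or_one m with h | h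
  · rw [h, h1]
    linear_combination (par a 1 m ^ 2) * h2
  · rw [h]
    linear_combination (par a 1 m ^ 2) * h2

end gen

/-- The faces of the cobar complex. -/
noncomputable abbrev fc (j : ℕ) : RR Empty →ₐ[ZMod 2] RR Empty := face (fun _ => 0) j

lemma isFace_fc : IsFace fc := fun _ _ h x => face_face _ h x

lemma dF_fc (n : ℕ) (F : RR Empty) : dF fc (n + 1) F = dE n F := (dR_apply _ _ _).symm

/-- The quadratic operation of degree two. -/
noncomputable def sq2 (n : ℕ) (F : RR Empty) : RR Empty := q0 fc (n + 2) F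

lemma sq2_def (n : ℕ) (F : RR Empty) : sq2 n F = q0 fc (n + 2) F := rfl

lemma sq1_eq {n : ℕ} {F : RR Empty} (h : dE n F = 0) :
    sq1 (fun _ => 0) n F = ∑ k ∈ range (n + 1), P1 fc F k * P1 fc F (k + 1) := by
  unfold sq1
  rw [← pr_closed _ _ (by rw [← dR_apply]; exact h)]
  rfl

section cup
variable {i j : ℕ} {F G : RR Empty}

lemma P1_lo (k : ℕ) (h : k ≤ j + 1) (G F : RR Empty) :
    P1 fc (G * sh j F) k = P1 fc G k * sh (j + 1) F := by
  unfold P1
  rw [sum_mul]
  refine sum_congr rfl fun u hu => ?_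
  have hu := mem_range.1 hu
  have h1 : fc u (sh j F) = sh (j + 1) F := sh_face_le _ (by omega) _
  rw [map_mul, h1]

lemma P1_hi (hG : G ∈ lev Empty (j + 1)) (hGd : dE (j + 1) G = 0) (k : ℕ) (F : RR Empty) :
    P1 fc (G * sh j F) (j + 1 + k) = G * sh j (P1 fc F (k + 1)) := by
  have e1 : P1 fc G (j + 1) = G := by
    have h1 : dE (j + 1) G = P1 fc G (j + 1) + face (fun _ => 0) (j + 1) G := by
      rw [dR_apply, sum_range_succ]
      rfl
    rw [hGd, face_high _ le_rfl hG] at h1
    exact add_eq_zero2.1 h1.symm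
  have e2 : P1 fc (G * sh j F) (j + 1 + k) = P1 fc (G * sh j F) (j + 1) +
      ∑ u ∈ range k, G * sh j (fc (u + 1) F) := by
    unfold P1
    rw [sum_range_add]
    congr 1
    refine sum_congr rfl fun u _ => ?_
    have h1 : fc (j + 1 + u) G = G := by
      rw [show j + 1 + u = (j + u) + 1 by ring]
      exact face_high _ (by omega) hG
    have h2 : fc (j + 1 + u) (sh j F) = sh j (fc (u + 1) F) := sh_face_gt _ j u F
    rw [map_mul, h1, h2]
  have e3 : P1 fc F (k + 1) = fc 0 F + ∑ u ∈ range k, fc (u + 1) F := by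
    unfold P1
    rw [sum_range_succ', add_comm]
  rw [e2, P1_lo _ le_rfl, e1, ← mul_sum, ← mul_add, ← map_sum, ← sh_zero_face, ← map_add, e3]

lemma FF_I (G F : RR Empty) {m k : ℕ} (hm : m ≤ k + 1) (hk : k ≤ j + 1) :
    FF fc (G * sh j F) m (k + 1) = FF fc G m (k + 1) * sh (j + 2) F := by
  rw [← P1_P1 isFace_fc hm, P1_lo k hk, P1_lo m (by omega), P1_P1 isFace_fc hm]

lemma FF_II (hG : G ∈ lev Empty (j + 1)) (hGd : dE (j + 1) G = 0) {m : ℕ} (k : ℕ)
    (hm : m ≤ j + 1) (F : RR Empty) :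
    FF fc (G * sh j F) m (j + 1 + k + 1) = P1 fc G m * sh (j + 1) (P1 fc F (k + 1)) := by
  rw [← P1_P1 isFace_fc (by omega), P1_hi hG hGd, P1_lo m hm]

lemma FF_III (hG : G ∈ lev Empty (j + 1)) (hGd : dE (j + 1) G = 0) {m k : ℕ}
    (hm : m ≤ k + 1) (F : RR Empty) :
    FF fc (G * sh j F) (j + 1 + m) (j + 1 + k + 1) = G * sh j (FF fc F (m + 1) (k + 2)) := by
  rw [← P1_P1 isFace_fc (by omega), P1_hi hG hGd, P1_hi hG hGd, P1_P1 isFace_fc (by omega)]

/-- The Cartan formula for the operation of degree two. -/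
theorem sq2_cup (hG : G ∈ lev Empty (j + 1)) (hGd : dE (j + 1) G = 0)
    (hFd : dE (i + 1) F = 0) :
    sq2 (j + i + 1) (G * sh j F) =
      sq2 (j + 1) G * sh (j + 2) (F ^ 2) +
      sq1 (fun _ => 0) (j + 1) G * sh (j + 1) (sq1 (fun _ => 0) (i + 1) F) +
        G ^ 2 * sh j (sq2 (i + 1) F) := by
  have hG0 : P1 fc G (j + 2) = 0 := by
    rw [show j + 2 = (j + 1) + 1 by ring]
    have := dR_apply (fun _ : Empty => 0) (j + 1) G
    rw [hGd] at this
    exact this.symm
  -- the three regions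
  have e0 : sq2 (j + i + 1) (G * sh j F) =
      (∑ k ∈ range (j + 2), ∑ m ∈ range k,
        FF fc (G * sh j F) m (k + 1) * FF fc (G * sh j F) (m + 1) k) +
      ((∑ k ∈ range (i + 1), ∑ m ∈ range (j + 1),
        FF fc (G * sh j F) m (j + 1 + (k + 1) + 1) * FF fc (G * sh j F) (m + 1) (j + 1 + k + 1)) +
      (∑ k ∈ range (i + 1), ∑ m ∈ range (k + 1),
        FF fc (G * sh j F) (j + 1 + m) (j + 1 + (k + 1) + 1) *
          FF fc (G * sh j F) (j + 1 + (m + 1)) (j + 1 + k + 1))) := by
    unfold sq2 q0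
    rw [show j + i + 1 + 2 = (j + 2) + (i + 1) by ring, sum_range_add, ← sum_add_distrib]
    congr 1
    refine sum_congr rfl fun k _ => ?_
    rw [show j + 2 + k = (j + 1) + (k + 1) by ring, sum_range_add]
    rfl
  have e1 : sq2 (j + 1) G * sh (j + 2) (F ^ 2) = ∑ k ∈ range (j + 2), ∑ m ∈ range k,
        FF fc (G * sh j F) m (k + 1) * FF fc (G * sh j F) (m + 1) k := by
    unfold sq2 q0
    rw [show j + 1 + 2 = (j + 2) + 1 by ring, sum_range_succ]
    have h0 : ∑ m ∈ range (j + 2), FF fc G m (j + 2 + 1) * FF fc G (m + 1) (j + 2) = 0 := by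
      refine sum_eq_zero fun m hm => ?_
      have hm := mem_range.1 hm
      rw [FF_symm, FF_closed isFace_fc (M := j + 2) (by
        rw [show j + 2 = (j + 1) + 1 by ring, dF_fc]; exact hGd) (by omega), zero_mul]
    rw [h0, add_zero, sum_mul]
    refine sum_congr rfl fun k hk => ?_
    have hk := mem_range.1 hk
    rw [sum_mul]
    refine sum_congr rfl fun m hm => ?_
    have hm := mem_range.1 hm
    obtain ⟨k', rfl⟩ : ∃ k', k = k' + 1 := ⟨k - 1, by omega⟩
    rw [FF_I G F (by omega) (by omega), FF_I G F (by omega) (by omega), map_pow]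
    ring
  have e2 : sq1 (fun _ => 0) (j + 1) G * sh (j + 1) (sq1 (fun _ => 0) (i + 1) F) =
      ∑ k ∈ range (i + 1), ∑ m ∈ range (j + 1),
        FF fc (G * sh j F) m (j + 1 + (k + 1) + 1) *
          FF fc (G * sh j F) (m + 1) (j + 1 + k + 1) := by
    rw [sq1_eq hGd, sq1_eq hFd, sum_range_succ, hG0, mul_zero, add_zero, sum_range_succ' _ (i + 1)]
    have h0 : P1 fc F 0 = 0 := sum_range_zero _
    rw [h0, zero_mul, add_zero, map_sum, mul_sum]
    refine sum_congr rfl fun k hk => ?_
    rw [sum_mul]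
    refine sum_congr rfl fun m hm => ?_
    have hm := mem_range.1 hm
    rw [FF_II hG hGd _ (by omega), FF_II hG hGd _ (by omega), map_mul]
    ring
  have e3 : G ^ 2 * sh j (sq2 (i + 1) F) =
      ∑ k ∈ range (i + 1), ∑ m ∈ range (k + 1),
        FF fc (G * sh j F) (j + 1 + m) (j + 1 + (k + 1) + 1) *
          FF fc (G * sh j F) (j + 1 + (m + 1)) (j + 1 + k + 1) := by
    unfold sq2 q0
    rw [show i + 1 + 2 = (i + 1) + 1 + 1 by ring, sum_range_succ', sum_range_succ', sum_range_zero,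
      sum_range_one, FF_zero, zero_mul, add_zero, add_zero, map_sum, mul_sum]
    refine sum_congr rfl fun k hk => ?_
    rw [sum_range_succ', FF_zero, zero_mul, add_zero, map_sum, mul_sum]
    refine sum_congr rfl fun m hm => ?_
    have hm := mem_range.1 hm
    rw [FF_III hG hGd (by omega), FF_III hG hGd (by omega), map_mul]
    ring
  rw [e0, e1, e2, e3]
  ring

end cup

end Pool.Agent.Work.MP_701abf_gt.Sq2
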