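import Pool.Agent.Work.MP_701abf_gt.Sq2.Chain
import Pool.Agent.Work.MP_701abf_gt.Cob.Density

/-!
The degrees `t` with `Ext^{s,t} ≠ 0` are chains.
-/

open MvPolynomial Module
open Pool.Agent.Work.MP_701abf_gt.Stab Pool.Agent.Work.MP_701abf_gt.Cob

namespace Pool.Agent.Work.MP_701abf_gt.Sq2

lemma dm_zero_right {s : ℕ} (hs : 1 ≤ s) : dm s 0 = 0 := dm_zero_iff.2 (Zc_zero hs)

/-- The degrees `t` with `Ext^{s,t} ≠ 0` are chains. -/
theorem degrees (s : ℕ) (hs : 1 ≤ s) : ∀ L : ℕ, ∃ U : ℕ, ∀ t : ℕ, dm s t ≠ 0 →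
    ∃ c m e : ℕ, c + m + e = s ∧ m ≤ e ∧ Clus U (c + m) t ∧ Ch L c m t := by
  induction s using Nat.strong_induction_on with
  | _ s IH =>
    intro L
    obtain ⟨L1, hL1⟩ := kunneth_bij s
    obtain ⟨B, hB⟩ := line_structure s (L + L1)
    obtain ⟨U', _, hUC⟩ := ex_two (P := fun k U _ => 1 ≤ k → ∀ t : ℕ, dm k t ≠ 0 →
        ∃ c m e : ℕ, c + m + e = k ∧ m ≤ e ∧ Clus U (c + m) t ∧ Ch L c m t)
      (fun k U U' _ _ hU _ h hk t ht => by
        obtain ⟨c, m, e, h1, h2, h3, h4⟩ := h hk t ht
        exact ⟨c, m, e, h1, h2, h3.mono hU le_rfl, h4⟩) s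
      (fun k hk => by
        by_cases hk1 : 1 ≤ k
        · obtain ⟨U, h⟩ := IH k hk hk1 L
          exact ⟨U, 0, fun _ => h⟩
        · exact ⟨0, 0, fun h => absurd h hk1⟩)
    refine ⟨B + U', fun t => ?_⟩
    induction t using Nat.strong_induction_on with
    | _ t IHt =>
      intro hne
      by_cases ht : t ≤ B
      · have h0 : 0 < t := by
          rcases Nat.eq_zero_or_pos t with h | h
          · rw [h, dm_zero_right hs] at hne
            exact absurd rfl hne
          · exact h
        have h1 : Clus (B + U') 1 t := (Clus.single (U := B) ht).mono (by omega) le_rfl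
        by_cases h2 : ∃ b : ℕ, t = 2 ^ b
        · obtain ⟨b, hb⟩ := h2
          refine ⟨1, 0, s - 1, by omega, by omega, h1, ?_⟩
          rw [hb]
          exact Ch.sg b
        · refine ⟨0, 1, s - 1, by omega, ?_, h1, Ch.cl t h0 h2⟩
          by_contra h3
          have h4 : s = 1 := by omega
          rw [h4] at hne
          exact h2 (dm_one_ne h0 hne)
      rcases hB t (by omega) with h | ⟨t', h, hb⟩ | ⟨a, M, T, hM0, hM, hT, ht', -⟩
      · rw [dm_zero_iff.2 h] at hne
        exact absurd rfl hne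
      · have h2 : dm s t = dm s t' := by rw [h]; exact dm_sq hb
        rw [h2] at hne
        obtain ⟨c, m, e, h3, h4, h5, h6⟩ := IHt t' (by omega) hne
        rw [h]
        exact ⟨c, m, e, h3, h4, h5.double, h6.double⟩
      · set N := 2 ^ (a + (L + L1)) * T with hN
        have hN0 : 0 < N := by positivity
        have hbij := hL1 a N M hM hN0 (by
          rw [hN]
          exact Dvd.dvd.mul_right (pow_dvd_pow 2 (by omega)) _)
        have hsum : dm s t = ∑ i : Fin (s + 1), dm i N * dm (s - i) M := by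
          rw [ht']
          exact dm_kunneth hbij
        rw [hsum] at hne
        obtain ⟨i, -, hi⟩ := Finset.exists_ne_zero_of_sum_ne_zero hne
        have g2 := left_ne_zero_of_mul hi
        have g3 := right_ne_zero_of_mul hi
        have g4 : 1 ≤ (i : ℕ) := by
          by_contra hcon
          have h0 : (i : ℕ) = 0 := by omega
          rw [h0, dm_zero_left hN0] at g2
          exact g2 rfl
        have g5 : 1 ≤ s - (i : ℕ) := by
          by_contra hcon
          have h0 : s - (i : ℕ) = 0 := by omega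
          rw [h0, dm_zero_left hM0] at g3
          exact g3 rfl
        obtain ⟨c, m, e, h3, h4, h5, h6⟩ := hUC i (by omega) g4 N g2
        obtain ⟨c', m', e', h3', h4', h5', h6'⟩ := hUC (s - i) (by omega) g5 M g3
        have hd : 2 ^ (a + L) ∣ N := by
          rw [hN]
          exact Dvd.dvd.mul_right (pow_dvd_pow 2 (by omega)) _
        rw [ht']
        refine ⟨c + c', m + m', e + e', by omega, by omega, ?_, h6.concat h6' hM hd⟩
        have h9 := (h5.mono (U' := B + U') (by omega) le_rfl).add
          (h5'.mono (U' := B + U') (by omega) le_rfl)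
        exact h9.mono le_rfl (by omega)

end Pool.Agent.Work.MP_701abf_gt.Sq2
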