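import Pool.Agent.Work.MP_701abf_gt.Sq2.Mat
import Pool.Agent.Work.MP_701abf_gt.Cob.Density

/-!
The groups `Ext^{k,1}`, and divisibility by `h_0` in the degrees `t + 1`.
-/

open MvPolynomial
open Finset.HasAntidiagonal (antidiagonal mem_antidiagonal)
open Pool.Agent.Work.MP_701abf_gt.Stab Pool.Agent.Work.MP_701abf_gt.Cob

namespace Pool.Agent.Work.MP_701abf_gt.Sq2

/-- Cochains of degree one. -/
lemma hom_one {s : ℕ} {p : Cobar s} (h : p ∈ Hom s 1) :
    p ∈ Submodule.span (ZMod 2) (Set.range fun i : Fin s => (X (i, 0) : Cobar s)) := by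
  classical
  rw [p.as_sum]
  refine Submodule.sum_mem _ fun m hm => ?_
  have h1 : Finsupp.weight (wN s) m = 1 := h (mem_support_iff.1 hm)
  have h2 : m ≠ 0 := by
    rintro rfl
    rw [map_zero] at h1
    omega
  obtain ⟨v, hv⟩ := Finsupp.ne_iff.1 h2
  rw [Finsupp.coe_zero, Pi.zero_apply] at hv
  obtain ⟨m', hm'⟩ : ∃ m', m = Finsupp.single v 1 + m' :=
    ⟨m - Finsupp.single v 1, by
      rw [add_tsub_cancel_of_le]
      rw [Finsupp.single_le_iff]
      omega⟩
  have h3 : wN s v + Finsupp.weight (wN s) m' = 1 := by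
    rw [← h1, hm', map_add, Finsupp.weight_single, one_smul]
  have h4 := wN_pos v
  have h5 : Finsupp.weight (wN s) m' = 0 := by omega
  have h6 : m' = 0 := by
    ext u
    have h7 := Finsupp.le_weight (wN s) (wN_pos u) m'
    rw [h5] at h7
    exact Nat.le_zero.1 h7
  have h7 : v.2 = 0 := by
    by_contra hne
    have := wN_gt (s := s) (t := 1) (v := v) (by omega)
    omega
  rw [hm', h6, add_zero]
  have h8 : (monomial (Finsupp.single v 1) (coeff (Finsupp.single v 1) p) : Cobar s) =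
      coeff (Finsupp.single v 1) p • X v := by
    rw [X, smul_monomial, smul_eq_mul, mul_one]
  rw [h8]
  refine Submodule.smul_mem _ _ (Submodule.subset_span ⟨v.1, ?_⟩)
  change X (v.1, 0) = X v
  rw [← h7]

lemma wh1_span {k : ℕ} {F : RR Empty} (hF : F ∈ lev Empty (k + 1)) (hw : WH wE F (0, 1)) :
    F ∈ Submodule.span (ZMod 2) (Set.range fun i : ℕ => (X (Sum.inl (i, 0)) : RR Empty)) := by
  have h1 := hom_one (ps_Hom (s := k) (t := 1) hw)
  have h2 := Submodule.mem_map_of_mem (f := (th k).toLinearMap) h1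
  rw [AlgHom.toLinearMap_apply, th_surj hF, Submodule.map_span] at h2
  refine Submodule.span_mono ?_ h2
  rintro _ ⟨_, ⟨i, rfl⟩, rfl⟩
  refine ⟨k - 1 - (i : ℕ), ?_⟩
  rw [AlgHom.toLinearMap_apply]
  exact (th_X k (i, 0)).symm

lemma prj_w1 (n : ℕ) {F : RR Empty} (hF : F ∈ Submodule.span (ZMod 2)
    (Set.range fun i : ℕ => (X (Sum.inl (i, 0)) : RR Empty))) :
    ∃ c : ZMod 2, prj (n + 1) F + prj n F = c • X (Sum.inl (n, 0)) := by
  induction hF using Submodule.span_induction with
  | mem x h =>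
    obtain ⟨i, rfl⟩ := h
    rcases lt_trichotomy i n with h1 | h1 | h1
    · refine ⟨0, ?_⟩
      rw [prj_inl_lt (by simp only; omega), prj_inl_lt (by simp only; omega), zero_smul]
      exact add_self2 _
    · refine ⟨1, ?_⟩
      rw [prj_inl_lt (by simp only; omega), prj_inl_ge (by simp only; omega), one_smul,
        add_zero, h1]
    · refine ⟨0, ?_⟩
      rw [prj_inl_ge (by simp only; omega), prj_inl_ge (by simp only; omega), zero_smul,
        add_zero]
  | zero => exact ⟨0, by rw [map_zero, map_zero, zero_smul, add_zero]⟩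
  | add x y _ _ hx hy =>
    obtain ⟨a, ha⟩ := hx
    obtain ⟨b, hb⟩ := hy
    refine ⟨a + b, ?_⟩
    rw [map_add, map_add, add_smul, ← ha, ← hb]
    ring
  | smul c x _ hx =>
    obtain ⟨a, ha⟩ := hx
    refine ⟨c * a, ?_⟩
    rw [map_smul, map_smul, ← smul_add, ha, smul_smul]

lemma face_w1 (j a : ℕ) : face (ι := Empty) (fun _ => 0) j (X (Sum.inl (a, 0))) =
    (fg j gG a).co 1 := face_inl _ j a 0

/-- The boundary of `ξ_1` in the last factor. -/
lemma dE_w1 (a : ℕ) : dE (a + 2) (X (Sum.inl (a, 0)) : RR Empty) =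
    ((a + 2 : ℕ) : ZMod 2) • X (Sum.inl (a + 1, 0)) := by
  unfold dE
  rw [dR_apply, Finset.sum_range_succ, Finset.sum_range_succ]
  have h1 : ∀ j ∈ Finset.range (a + 1), face (ι := Empty) (fun _ => 0) j
      (X (Sum.inl (a, 0))) = X (Sum.inl (a + 1, 0)) := by
    intro j hj
    rw [Finset.mem_range] at hj
    rw [face_w1]
    rcases j with _ | j
    · rfl
    · unfold fg
      simp only
      rw [if_neg (by omega), if_neg (by omega)]
      rfl
  rw [Finset.sum_congr rfl h1, Finset.sum_const, Finset.card_range, face_w1, face_w1]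
  have h2 : (fg (a + 1) (gG (ι := Empty)) a).co 1 =
      X (Sum.inl (a, 0)) + X (Sum.inl (a + 1, 0)) := by
    unfold fg
    simp only
    rw [if_neg (by omega), if_pos trivial, Pt.co_mul]
    have : antidiagonal 1 = {(0, 1), (1, 0)} := rfl
    rw [this, Finset.sum_insert (by decide), Finset.sum_singleton]
    change (1 : RR Empty) ^ 2 ^ 1 * X (Sum.inl (a, 0)) +
      (X (Sum.inl (a + 1, 0)) : RR Empty) ^ 2 ^ 0 * 1 = _
    rw [one_pow, one_mul, pow_zero, pow_one, mul_one]
  have h3 : (fg (a + 2) (gG (ι := Empty)) a).co 1 = X (Sum.inl (a, 0)) := by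
    unfold fg
    simp only
    rw [if_pos (by omega)]
    rfl
  rw [h2, h3]
  have h4 := add_self2 (X (Sum.inl (a, 0)) : RR Empty)
  rw [← Nat.cast_smul_eq_nsmul (ZMod 2)]
  have e : ((a + 2 : ℕ) : ZMod 2) = ((a + 1 : ℕ) : ZMod 2) + 1 := by push_cast; ring
  rw [e, add_smul, one_smul]
  calc _ = ((a + 1 : ℕ) : ZMod 2) • (X (Sum.inl (a + 1, 0)) : RR Empty) +
        X (Sum.inl (a + 1, 0)) + (X (Sum.inl (a, 0)) + X (Sum.inl (a, 0))) := by ring
    _ = _ := by rw [h4, add_zero]

lemma ev_id (F : RR Empty) : ev gG gW F = F := by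
  have : ev gG gW = AlgHom.id (ZMod 2) (RR Empty) := by
    refine algHom_ext fun v => ?_
    rcases v with v | v
    · rw [ev_inl]; rfl
    · exact v.1.elim
  rw [this]
  rfl

lemma prj_face (n j : ℕ) (hj : j ≤ n) (F : RR Empty) :
    prj (n + 1) (face (fun _ => 0) j F) = face (fun _ => 0) j (prj n F) := by
  have h : (prj (ι := Empty) (n + 1)).comp (face (fun _ => 0) j) =
      (face (fun _ => 0) j).comp (prj n) := by
    refine hom_eq (fun a => ?_) (fun b => b.elim)
    unfold prj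
    rw [ev_face, comp_ev, mapPt_ev, mapPt_ev]
    rcases j with _ | j
    · unfold fg
      simp only
      by_cases h : a < n
      · rw [if_pos (by omega), if_pos h]
        unfold face
        rw [mapPt_ev]
        rfl
      · rw [if_neg (by omega), if_neg h]
        refine Pt_ext' fun i => ?_
        rw [mapPt_co, Pt.co_one_ne (by omega), map_zero]
    · unfold fg
      simp only
      by_cases h : a < n
      · rw [if_pos h]
        unfold face
        rw [mapPt_ev]
        unfold fg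
        simp only
        by_cases h1 : a < j
        · rw [if_pos h1, if_pos h1, if_pos (by omega)]
        · rw [if_neg h1, if_neg h1]
          by_cases h2 : a = j
          · rw [if_pos h2, if_pos h2, if_pos (by omega), if_pos (by omega)]
          · rw [if_neg h2, if_neg h2, if_pos (by omega)]
      · rw [if_neg h, if_neg (by omega), if_neg (by omega), if_neg (by omega)]
        refine Pt_ext' fun i => ?_
        rw [mapPt_co, Pt.co_one_ne (by omega), map_zero]
  exact congrArg (fun φ => φ F) h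

lemma prj_cocycle {n : ℕ} {F : RR Empty} (hF : F ∈ lev Empty (n + 2)) (hd : dE (n + 2) F = 0) :
    dE (n + 1) (prj n F) = prj n F := by
  have h1 : prj (n + 1) (face (fun _ => 0) (n + 1) F) = F := by
    have e : prj (n + 1) (face (fun _ => 0) (n + 1) F) =
        ev (fg (n + 1) (fun a => if a < n + 1 then gG a else 1))
          (fw (fun _ => 0) (n + 1) (fun a => if a < n + 1 then gG a else 1) gW) F := by
      rw [← ev_face_apply]
      rfl
    rw [e]
    have e2 : ev (fg (n + 1) (fun a => if a < n + 1 then gG a else 1))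
          (fw (fun _ => 0) (n + 1) (fun a => if a < n + 1 then gG a else 1) gW) F =
        ev gG gW F := by
      refine ev_prj' (n := n + 1) (fun a ha => ?_) (mem_lev_succ.1 hF)
      unfold fg
      simp only
      by_cases h : a < n
      · rw [if_pos h, if_pos (by omega)]
      · rw [if_neg h, if_pos (by omega), if_neg (by omega), if_pos (by omega), one_mul]
        congr 1
        omega
    rw [e2, ev_id]
  have h2 : prj (n + 1) (face (fun _ => 0) (n + 2) F) = F := by
    rw [face_high _ (n := n + 1) (j := n + 1) le_rfl hF]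
    exact mem_lev_succ.1 hF
  have h3 : face (fun _ => 0) (n + 1) (prj n F) = prj n F :=
    face_high _ (n := n) (j := n) le_rfl (prj_mem n F)
  have h4 : prj (n + 1) (dE (n + 2) F) = 0 := by rw [hd, map_zero]
  unfold dE at h4 ⊢
  rw [dR_apply, Finset.sum_range_succ, Finset.sum_range_succ, map_add, map_add, map_sum, h1, h2,
    add_add_self2] at h4
  rw [dR_apply, Finset.sum_range_succ, h3]
  rw [Finset.sum_congr rfl fun j hj => prj_face n j (by
    have := Finset.mem_range.1 hj
    omega) F] at h4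
  rw [h4, zero_add]

/-- The groups `Ext^{k,1}` vanish for `k ≥ 2`. -/
theorem ZR_w1 {k : ℕ} (hk : 2 ≤ k) : ZR k 1 ≤ BR k 1 := by
  intro F hF
  obtain ⟨n, rfl⟩ : ∃ n, k = n + 1 + 1 := ⟨k - 2, by omega⟩
  obtain ⟨c, hc⟩ := prj_w1 (n + 1) (wh1_span hF.1 hF.2.1)
  rw [mem_lev_succ.1 hF.1] at hc
  have h1 : prj (n + 1) F ∈ BR (n + 1 + 1) 1 :=
    ⟨prj (n + 1) F, prj_mem (n + 1) F, (prj_gr (fun _ : Empty => (1, 0)) (fun _ => 0) (n + 1)).map
      hF.2.1, prj_cocycle hF.1 hF.2.2⟩
  have h2 : F = c • X (Sum.inl (n + 1, 0)) + prj (n + 1) F := by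
    rw [← hc, add_add_self2]
  rw [h2]
  refine Submodule.add_mem _ ?_ h1
  have hc' : c = 0 ∨ c = 1 := (by decide : ∀ c : ZMod 2, c = 0 ∨ c = 1) c
  rcases hc' with h3 | h3
  · rw [h3, zero_smul]
    exact Submodule.zero_mem _
  rw [h3, one_smul] at hc ⊢
  have h4 : dE (n + 1 + 2) (X (Sum.inl (n + 1, 0)) : RR Empty) = 0 := by
    have h5 := Submodule.add_mem _ hF (BR_le _ _ h1)
    rw [hc] at h5
    exact h5.2.2
  rw [dE_w1] at h4
  have h5 : ((n + 1 + 2 : ℕ) : ZMod 2) = 0 := by
    rcases smul_eq_zero.1 h4 with h | h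
    · exact h
    · exact absurd h (X_ne_zero _)
  have h6 : ((n + 2 : ℕ) : ZMod 2) = 1 := by
    have h7 : ∀ x : ZMod 2, x + 1 = 0 → x = 1 := by decide
    refine h7 _ ?_
    rw [← h5]
    push_cast
    ring
  refine ⟨X (Sum.inl (n, 0)), ?_, ?_, ?_⟩
  · rw [mem_lev_succ, prj_inl_lt (by simp only; omega)]
  · have := isWeightedHomogeneous_X (ZMod 2) (wE : (ℕ × ℕ) ⊕ (Empty × ℕ) → (ℤ × ℤ) × ℤ)
      (Sum.inl (n, 0))
    exact this
  · have h7 := dE_w1 n
    rw [h6, one_smul] at h7
    exact h7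

/-- `Ext^{s+1,t+1} = h_0 Ext^{s,t}` in highly divisible positive degrees `t`. -/
theorem h0_div (s : ℕ) : ∃ J : ℕ, ∀ t : ℕ, 0 < t → 2 ^ J ∣ t → ∀ z ∈ Zc (s + 1) (t + 1),
    ∃ w ∈ Zc s t, z + jux s 1 w (xi 0 1) ∈ Bc (s + 1) (t + 1) := by
  obtain ⟨L, hL⟩ := kunnethE2 (s + 1)
  refine ⟨1 + L, fun t ht hd z hz => ?_⟩
  obtain ⟨Z, _, f, hf⟩ := hL 1 t (by exact_mod_cast ht) (by exact_mod_cast hd)
  have hx : th (s + 1) z ∈ ZR (s + 1) ((t : ℤ) + 1) := by
    have := th_mem_ZR hz
    push_cast at this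
    exact this
  obtain ⟨v, hv, hv0, e⟩ := decomp' f (hf 1 (by norm_num) (by norm_num) (s + 1) le_rfl) hx
  have key : ∀ j, ∃ c : ZMod 2, (c ≠ 0 → f.β j + 1 = s) ∧
      v j * sh (s + 1 - (f.β j + 1)) (f.z j) + c • (h0c * sh 1 (f.z j)) ∈
        BR (s + 1) ((t : ℤ) + 1) := by
    intro j
    by_cases h1 : s + 1 < f.β j + 1
    · refine ⟨0, fun h => absurd rfl h, ?_⟩
      rw [hv0 j h1, zero_mul, zero_smul, add_zero]
      exact Submodule.zero_mem _
    have h2 := hv j (by omega)
    obtain ⟨i, hi⟩ : ∃ i, i = s + 1 - (f.β j + 1) := ⟨_, rfl⟩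
    rw [← hi] at h2 ⊢
    by_cases h3 : 2 ≤ i
    · refine ⟨0, fun h => absurd rfl h, ?_⟩
      rw [zero_smul, add_zero]
      exact mul_BR_right' (by omega) (fam_ZR f j) (ZR_w1 h3 h2)
    by_cases h4 : i = 1
    · rw [h4] at h2 ⊢
      have h2' : v j ∈ ZR 1 (2 ^ 0) := by rw [pow_zero]; exact h2
      rcases ZR_one h2' with h5 | h5
      · refine ⟨0, fun h => absurd rfl h, ?_⟩
        rw [h5, zero_mul, zero_smul, add_zero]
        exact Submodule.zero_mem _
      · refine ⟨1, fun _ => by omega, ?_⟩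
        have h6 : ha 0 = h0c := by
          unfold ha
          rw [pow_zero, pow_one]
        rw [h5, h6, one_smul, add_self2]
        exact Submodule.zero_mem _
    · obtain rfl : i = 0 := by omega
      refine ⟨0, fun h => absurd rfl h, ?_⟩
      rw [lev_one h2.1 h2.2.1 one_ne_zero, zero_mul, zero_smul, add_zero]
      exact Submodule.zero_mem _
  choose c hc hc' using key
  have hw : ∑ j, c j • f.z j ∈ ZR s (t : ℤ) := by
    refine Submodule.sum_mem _ fun j _ => ?_
    by_cases h0 : c j = 0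
    · rw [h0, zero_smul]
      exact Submodule.zero_mem _
    · have h1 := fam_ZR f j
      rw [hc j h0] at h1
      exact Submodule.smul_mem _ _ h1
  obtain ⟨w, hw1, hw2⟩ := exists_th hw
  refine ⟨w, hw1, ?_⟩
  rw [← th_mem_BR, map_add, th_jux, hw2, map_sum]
  have e0 : th 1 (xi (0 : Fin 1) 1) = h0c := th_X 1 (0, 0)
  rw [e0]
  have h1 := Submodule.add_mem _ e (Submodule.sum_mem _ fun j (_ : j ∈ Finset.univ) => hc' j)
  rw [Finset.sum_add_distrib] at h1
  have e2 : ((t + 1 : ℕ) : ℤ) = (t : ℤ) + 1 := by push_cast; rfl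
  rw [e2]
  refine mem_of_eq h1 ?_
  have h2 := add_self2 (∑ j, v j * sh (s + 1 - (f.β j + 1)) (f.z j))
  have h3 : h0c * ∑ j, sh 1 (c j • f.z j) = ∑ j, c j • (h0c * sh 1 (f.z j)) := by
    rw [Finset.mul_sum]
    refine Finset.sum_congr rfl fun j _ => ?_
    rw [map_smul, mul_smul_comm]
  rw [h3]
  calc _ = th (s + 1) z + ∑ j, c j • (h0c * sh 1 (f.z j)) +
        (∑ j, v j * sh (s + 1 - (f.β j + 1)) (f.z j) +
          ∑ j, v j * sh (s + 1 - (f.β j + 1)) (f.z j)) := by ring
    _ = _ := by rw [h2, add_zero]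

end Pool.Agent.Work.MP_701abf_gt.Sq2
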