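import Pool.Agent.Work.MP_701abf_gt.Sq2.Defs
import Pool.Agent.Work.MP_701abf_gt.Sq2.Class
import Pool.Agent.Work.MP_701abf_gt.Sq2.HZ
import Pool.Agent.Work.MP_701abf_gt.Sq2.Steen
import Pool.Agent.Work.MP_701abf_gt.Cob.Third

/-!
The theorem on `h_0 Sq^1` and `h_1 Sq^2` along `Sq^0`-families.
-/

open MvPolynomial Module
open Pool.Agent.Work.MP_701abf_gt.Stab Pool.Agent.Work.MP_701abf_gt.Cob

namespace Pool.Agent.Work.MP_701abf_gt.Sq2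

lemma clus_iff_few {U k t : ℕ} : Clus U k t ↔ Few U k t := by
  constructor
  · intro h
    induction h with
    | zero => exact ⟨fun i => i.elim0, fun i => i.elim0, fun i => i.elim0, rfl⟩
    | @succ k t a u hu _ ih =>
      obtain ⟨a', u', h1, h2⟩ := ih
      refine ⟨Fin.cons a a', Fin.cons u u', fun i => ?_, ?_⟩
      · refine Fin.cases ?_ (fun i => ?_) i
        · rw [Fin.cons_zero]; exact hu
        · rw [Fin.cons_succ]; exact h1 i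
      · rw [Fin.sum_univ_succ, Fin.cons_zero, Fin.cons_zero, h2]
        congr 1
  · induction k generalizing t with
    | zero =>
      rintro ⟨a, u, -, h⟩
      rw [h, Fin.sum_univ_zero]
      exact Clus.zero
    | succ k ih =>
      rintro ⟨a, u, h1, h⟩
      rw [h, Fin.sum_univ_succ]
      exact Clus.succ _ _ (h1 0) (ih ⟨fun i => a i.succ, fun i => u i.succ, fun i => h1 _, rfl⟩)

lemma few_count (U k : ℕ) : ∃ C : ℕ, ∀ n, 1 ≤ n →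
    {t | t < 2 ^ n ∧ Few U k t}.ncard ≤ C * n ^ k := by
  refine ⟨(2 * (U + 1)) ^ k, fun n hn => ?_⟩
  obtain ⟨F, hF, hF'⟩ := clus_count U k n
  calc {t | t < 2 ^ n ∧ Few U k t}.ncard ≤ (F : Set ℕ).ncard :=
        Set.ncard_le_ncard (fun t ht => hF' t ht.1 (clus_iff_few.2 ht.2)) F.finite_toSet
    _ = F.card := Set.ncard_coe_finset F
    _ ≤ ((n + 1) * (U + 1)) ^ k := hF
    _ ≤ ((2 * (U + 1)) * n) ^ k := by
        refine Nat.pow_le_pow_left ?_ _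
        calc (n + 1) * (U + 1) ≤ (2 * n) * (U + 1) := Nat.mul_le_mul_right _ (by omega)
          _ = 2 * (U + 1) * n := by ring
    _ = _ := mul_pow _ _ _

lemma many (s : ℕ) (hs : 1 ≤ s) : ∃ D : ℕ, ∀ n, D ≤ n →
    n ^ s ≤ D * {t | t < 2 ^ n ∧ ¬ Zc s t ≤ Bc s t}.ncard := by
  obtain ⟨L, hL⟩ := exists_goodL (s + 1)
  refine ⟨max (s * (2 * L + 3)) ((2 * s) ^ s), fun n hn => ?_⟩
  obtain ⟨F, hF, hF'⟩ := spread_lower L s hs n ((le_max_left _ _).trans hn)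
  have h1 : F.card ≤ {t | t < 2 ^ n ∧ ¬ Zc s t ≤ Bc s t}.ncard := by
    rw [← Set.ncard_coe_finset F]
    refine Set.ncard_le_ncard (fun t ht => ⟨(hF' t ht).1, fun h => ?_⟩)
      ((Set.finite_lt_nat (2 ^ n)).subset fun t ht => ht.1)
    obtain ⟨-, -, -, h3, -⟩ := (hF' t ht).2.main hL
    have h4 : dm s t = 1 := h3
    rw [dm_zero_iff.2 h] at h4
    exact zero_ne_one h4
  exact hF.trans ((Nat.mul_le_mul_left _ h1).trans (Nat.mul_le_mul_right _ (le_max_right _ _)))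

lemma pow_two_add {s : ℕ} (j : ℕ) (p q : Cobar s) :
    (p + q) ^ 2 ^ j = p ^ 2 ^ j + q ^ 2 ^ j := (frMap s j).map_add p q

lemma fr_Bc' {s t J : ℕ} (i : ℕ) {p : Cobar s} (h : p ^ 2 ^ J ∈ Bc s (2 ^ J * t)) :
    p ^ 2 ^ (J + i) ∈ Bc s (2 ^ (J + i) * t) := by
  have h1 := fr_Bc (j := i) h
  rw [← pow_mul, ← pow_add] at h1
  have e : 2 ^ i * (2 ^ J * t) = 2 ^ (J + i) * t := by rw [pow_add]; ring
  rw [e] at h1
  exact h1

/-- The trichotomy. -/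
theorem trich (s k : ℕ) (hk : k ≤ 3) (hs : 3 * k ≤ s + 3) : ∃ U J : ℕ,
    (∀ t : ℕ, 0 < t → 2 ^ J ∣ t → ∀ z ∈ Zc (s + 2) (t + 1),
      ∃ w ∈ Zc (s + 1) t, z + jux (s + 1) 1 w (xi 0 1) ∈ Bc (s + 2) (t + 1)) ∧
    ∀ t : ℕ, ¬ Few U (s + 1 - k) t → ∀ p ∈ Zc (s + 1) t,
      (∀ j, J ≤ j → p ^ 2 ^ j ∈ Bc (s + 1) (2 ^ j * t)) ∨
      (∀ j, J ≤ j → jux (s + 2) 1 (sqOne (s + 1) (p ^ 2 ^ j)) (xi 0 1) ∉
        Bc (s + 3) (2 ^ (j + 1) * t + 1)) ∨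
      ∃ q ∈ Zc s (2 ^ J * t), ∀ j,
        p ^ 2 ^ (J + j + 1) + sqOne s (q ^ 2 ^ j) ∈ Bc (s + 1) (2 ^ (J + j + 1) * t) ∧
        ∀ w ∈ Zc (s + 3) (2 ^ (J + j + 1) * t + 1),
          jux (s + 3) 1 (sqTwo (s + 1) (p ^ 2 ^ (J + j))) (xi 0 1 ^ 2) +
            jux (s + 3) 1 w (xi 0 1) ∉ Bc (s + 4) (2 ^ (J + j + 1) * t + 2) := by
  obtain ⟨J1, L, hch⟩ := chain (s + 6) (by omega)
  obtain ⟨U, hU⟩ := degrees (s + 1) (by omega) L
  obtain ⟨J2, hJ2⟩ := h0_sqOne (s + 1)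
  obtain ⟨J3, hJ3⟩ := h1_Sq2 (s + 1)
  obtain ⟨J4, hJ4⟩ := h0_div (s + 1)
  obtain ⟨J, hJ⟩ : ∃ J, J = J1 + J2 + J3 + J4 := ⟨_, rfl⟩
  refine ⟨U, J, fun t ht hd => hJ4 t ht ((pow_dvd_pow 2 (by omega)).trans hd),
    fun t hF p hp => ?_⟩
  rw [← clus_iff_few] at hF
  by_cases hpB : p ^ 2 ^ J ∈ Bc (s + 1) (2 ^ J * t)
  · left
    intro j hj
    obtain ⟨i, rfl⟩ := Nat.exists_eq_add_of_le hj
    exact fr_Bc' i hpB
  right
  -- the structure of `t`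
  have hne : dm (s + 1) t ≠ 0 := fun h => hpB (fr_Bc (dm_zero_iff.1 h hp))
  obtain ⟨c, m, e, h1, h2, h3, h4⟩ := hU t hne
  have hek : e < k := by
    by_contra hcon
    exact hF (h3.mono le_rfl (by omega))
  have ht := h4.pos
  have PPt := hch J (by omega) c m t h4 (by omega)
  obtain ⟨t', ht'⟩ : ∃ t', t' = 2 ^ J * t := ⟨_, rfl⟩
  have ht0 : 0 < t' := by rw [ht']; positivity
  obtain ⟨P, hP⟩ : ∃ P, P = p ^ 2 ^ J := ⟨_, rfl⟩
  have hPZ : P ∈ Zc (s + 1) t' := by rw [hP, ht']; exact fr_Zc hp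
  rw [← hP, ← ht'] at hpB
  rw [← ht'] at PPt
  have hpow : ∀ i, P ^ 2 ^ i = p ^ 2 ^ (J + i) := fun i => by rw [hP, ← pow_mul, ← pow_add]
  by_cases hA : sqOne (s + 1) P ∈ Bc (s + 2) (2 * t')
  · right
    have hX := th_mem_ZR hPZ
    have hXB : th (s + 1) P ∉ BR (s + 1) (t' : ℤ) := fun h => hpB (th_mem_BR.1 h)
    have hdl : dl (s + 1) (th (s + 1) P) ∈ BR (s + 2) (2 * (t' : ℤ)) := sqOne_BR.1 hA
    -- the two facts
    have main : (∃ v ∈ ZR s (t' : ℤ), dl s v + th (s + 1) P ^ 2 ∈ BR (s + 1) (2 * (t' : ℤ))) ∧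
        sg (s + 1) (th (s + 1) P) ∉ BR (s + 3) (2 * (t' : ℤ)) := by
      obtain ⟨e', he'⟩ : ∃ e', e = m + e' := ⟨e - m, by omega⟩
      have h5 : e' ≤ 2 := by omega
      interval_cases e'
      · -- the lowest index
        exfalso
        have h6 : c + 2 * m = s + 1 := by omega
        rw [h6] at PPt
        exact hXB (PPt.a0 (by omega) _ hX hdl)
      · have h6 : c + 2 * m = s := by omega
        rw [h6] at PPt
        exact ⟨PPt.x1 (by omega) _ hX hdl, fun h => hXB (PPt.b1 (by omega) _ hX hdl h)⟩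
      · have h7 : m = 0 := by omega
        obtain ⟨s', rfl⟩ : ∃ s', s = s' + 1 := ⟨s - 1, by omega⟩
        have h6 : c + 2 * m = s' := by omega
        rw [h6] at PPt
        exact ⟨PPt.x2 h7 (by omega) _ hX hdl,
          fun h => hXB (PPt.b2 h7 (by omega) _ hX hdl h)⟩
    obtain ⟨⟨v, hv, hvB⟩, hsg⟩ := main
    obtain ⟨q, hq, hqv⟩ := exists_th hv
    have hPq : P ^ 2 ^ 1 + sqOne s q ∈ Bc (s + 1) (2 * t') := by
      rw [← th_mem_BR, map_add, th_sqOne, hqv, map_pow, pow_one]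
      push_cast
      rw [add_comm (th (s + 1) P ^ 2)]
      exact hvB
    have hT : sqTwo (s + 1) P ∉ Bc (s + 1 + 2) (2 * t') := fun h => hsg ((sqTwo_BR hPZ).1 h)
    refine ⟨q, by rw [← ht']; exact hq, fun j => ?_⟩
    have e1 : 2 ^ j * (2 * t') = 2 ^ (J + j + 1) * t := by
      rw [ht', pow_succ, pow_add]; ring
    constructor
    · have h5 := fr_Bc (j := j) hPq
      rw [pow_two_add, ← sqOne_pow, ← pow_mul, ← pow_add, hpow, e1,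
        show J + (1 + j) = J + j + 1 by ring] at h5
      exact h5
    · intro w hw h
      refine hJ3 t' ht0 (by rw [ht']; exact Dvd.dvd.mul_right (pow_dvd_pow 2 (by omega)) _) P hPZ
        hT j w (by rw [e1]; exact hw) ?_
      rw [hpow, e1]
      exact h
  · left
    intro j hj
    obtain ⟨i, rfl⟩ := Nat.exists_eq_add_of_le hj
    have h5 := hJ2 t' ht0 (by rw [ht']; exact Dvd.dvd.mul_right (pow_dvd_pow 2 (by omega)) _) P
      hPZ hA i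
    have e1 : 2 * (2 ^ i * t') = 2 ^ (J + i + 1) * t := by
      rw [ht', pow_succ, pow_add]; ring
    rw [hpow, e1] at h5
    exact h5

/-- The theorem. -/
theorem d23 (s k : ℕ) (hk : k ≤ 3) (hs : 3 * k ≤ s + 3) : ∃ U J C D : ℕ,
    (∀ n, 1 ≤ n → {t | t < 2 ^ n ∧ Few U (s + 1 - k) t}.ncard ≤ C * n ^ (s + 1 - k)) ∧
    (∀ n, D ≤ n →
      n ^ (s + 1) ≤ D * {t | t < 2 ^ n ∧ ¬ Zc (s + 1) t ≤ Bc (s + 1) t}.ncard) ∧
    ∀ t : ℕ, ¬ Few U (s + 1 - k) t → ∀ p ∈ Zc (s + 1) t,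
      (∀ j, J ≤ j → p ^ 2 ^ j ∈ Bc (s + 1) (2 ^ j * t)) ∨
      (∀ j, J ≤ j → jux (s + 2) 1 (sqOne (s + 1) (p ^ 2 ^ j)) (xi 0 1) ∉
        Bc (s + 3) (2 ^ (j + 1) * t + 1)) ∨
      ∃ q ∈ Zc s (2 ^ J * t), ∀ j,
        p ^ 2 ^ (J + j + 1) + sqOne s (q ^ 2 ^ j) ∈ Bc (s + 1) (2 ^ (J + j + 1) * t) ∧
        (∀ w ∈ Zc (s + 3) (2 ^ (J + j + 1) * t + 1),
          jux (s + 3) 1 (sqTwo (s + 1) (p ^ 2 ^ (J + j))) (xi 0 1 ^ 2) +
            jux (s + 3) 1 w (xi 0 1) ∉ Bc (s + 4) (2 ^ (J + j + 1) * t + 2)) ∧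
        ∀ z ∈ Zc (s + 2) (2 ^ (J + j + 1) * t + 1), ∃ w ∈ Zc (s + 1) (2 ^ (J + j + 1) * t),
          z + jux (s + 1) 1 w (xi 0 1) ∈ Bc (s + 2) (2 ^ (J + j + 1) * t + 1) := by
  obtain ⟨U, J, h1, h2⟩ := trich s k hk hs
  obtain ⟨C, hC⟩ := few_count U (s + 1 - k)
  obtain ⟨D, hD⟩ := many (s + 1) (by omega)
  refine ⟨U, J, C, D, hC, hD, fun t ht p hp => ?_⟩
  have ht0 : 0 < t := by
    rcases Nat.eq_zero_or_pos t with h | h
    · refine absurd ?_ ht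
      rw [h]
      exact ⟨fun _ => 0, fun _ => 0, fun _ => Nat.zero_le _, by simp⟩
    · exact h
  refine (h2 t ht p hp).imp id (Or.imp id ?_)
  rintro ⟨q, hq, h⟩
  exact ⟨q, hq, fun j => ⟨(h j).1, (h j).2, h1 _ (by positivity)
    (Dvd.dvd.mul_right (pow_dvd_pow 2 (by omega)) _)⟩⟩

end Pool.Agent.Work.MP_701abf_gt.Sq2
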