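import Pool.Agent.Work.MP_701abf_gt.Sq2.Four

/-!
The formula of Steenrod and the quadratic operation `q0` agree on cocycles up to an explicit
coboundary.
-/

namespace Pool.Agent.Work.MP_701abf_gt.Sq2

open Finset
open Pool.Agent.Work.MP_701abf_gt.Stab (add_self2 add_eq_zero2)

variable {A : Type*} [CommRing A] [Algebra (ZMod 2) A] {f : ℕ → A →ₐ[ZMod 2] A} {x : A}

/-! ### The formula of Steenrod -/

/-- The formula of Steenrod, in terms of the double faces. -/
def stQ (X : ℕ → ℕ → A) (N : ℕ) : A :=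
  ∑ d ∈ range N, ∑ c ∈ range d, ∑ b ∈ range c, ∑ a ∈ range b,
      if a % 2 = b % 2 ∧ b % 2 = c % 2 ∧ c % 2 = d % 2 then X a c * X b d
      else if a % 2 = b % 2 ∧ c % 2 = d % 2 then X a d * X b c
      else if a % 2 = d % 2 ∧ b % 2 = c % 2 then X a b * X c d
      else 0

/-- first coefficient -/
def c1 (a b c d : ZMod 2) : ZMod 2 := (1 + a + b) * (1 + b + c) * (1 + c + d)
/-- second coefficient -/
def c2 (a b c d : ZMod 2) : ZMod 2 := (1 + a + b) * (1 + c + d) * (b + c)
/-- third coefficient -/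
def c3 (a b c d : ZMod 2) : ZMod 2 := (1 + a + d) * (1 + b + c) * (a + b)

lemma cast_mod (a : ℕ) : (a % 2 = 0 ∧ (a : ZMod 2) = 0) ∨ (a % 2 = 1 ∧ (a : ZMod 2) = 1) := by
  rcases Nat.mod_two_eq_zero_or_one a with h | h
  · exact Or.inl ⟨h, (ZMod.natCast_eq_zero_iff a 2).2 (Nat.dvd_of_mod_eq_zero h)⟩
  · refine Or.inr ⟨h, ?_⟩
    have h1 : ((a % 2 : ℕ) : ZMod 2) = (a : ZMod 2) := ZMod.natCast_mod a 2
    rw [← h1, h, Nat.cast_one]

lemma st_term (X : ℕ → ℕ → A) (a b c d : ℕ) :
    (if a % 2 = b % 2 ∧ b % 2 = c % 2 ∧ c % 2 = d % 2 then X a c * X b d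
      else if a % 2 = b % 2 ∧ c % 2 = d % 2 then X a d * X b c
      else if a % 2 = d % 2 ∧ b % 2 = c % 2 then X a b * X c d
      else 0) =
    c1 a b c d • (X a c * X b d) + c2 a b c d • (X a d * X b c) +
      c3 a b c d • (X a b * X c d) := by
  rcases cast_mod a with ⟨h1, h1'⟩ | ⟨h1, h1'⟩ <;> rcases cast_mod b with ⟨h2, h2'⟩ | ⟨h2, h2'⟩ <;>
    rcases cast_mod c with ⟨h3, h3'⟩ | ⟨h3, h3'⟩ <;>
    rcases cast_mod d with ⟨h4, h4'⟩ | ⟨h4, h4'⟩ <;>
    rw [h1, h2, h3, h4, h1', h2', h3', h4'] <;>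
    simp [c1, c2, c3, show (1 : ZMod 2) + 1 = 0 from rfl]

/-- The coefficients of the formula of Steenrod. -/
def kQ (x y z w : ℕ) : ZMod 2 :=
  (if x < z ∧ z < y ∧ y < w then c1 x z y w else 0) +
  (if x < z ∧ z < w ∧ w < y then c2 x z w y else 0) +
  (if x < y ∧ y < z ∧ z < w then c3 x y z w else 0)

lemma stQ_eq (X : ℕ → ℕ → A) (N : ℕ) : stQ X N = SK X N kQ := by
  unfold stQ
  have e0 : ∀ d ∈ range N, ∀ c ∈ range d, ∀ b ∈ range c, ∀ a ∈ range b, _ = _ :=
    fun d _ c _ b _ a _ => st_term X a b c d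
  rw [sum_congr rfl fun d hd => sum_congr rfl fun c hc => sum_congr rfl fun b hb =>
    sum_congr rfl fun a ha => e0 d hd c hc b hb a ha]
  rw [S4_inc]
  set g1 : ℕ → ℕ → ℕ → ℕ → A := fun a b c d => if a < b ∧ b < c ∧ c < d then
      c1 a b c d • (X a c * X b d) else 0 with hg1
  set g2 : ℕ → ℕ → ℕ → ℕ → A := fun a b c d => if a < b ∧ b < c ∧ c < d then
      c2 a b c d • (X a d * X b c) else 0 with hg2
  set g3 : ℕ → ℕ → ℕ → ℕ → A := fun a b c d => if a < b ∧ b < c ∧ c < d then
      c3 a b c d • (X a b * X c d) else 0 with hg3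
  have e1 : S4 N (fun a b c d => if a < b ∧ b < c ∧ c < d then
      c1 a b c d • (X a c * X b d) + c2 a b c d • (X a d * X b c) +
      c3 a b c d • (X a b * X c d) else 0) = S4 N g1 + S4 N g2 + S4 N g3 := by
    rw [← S4_add, ← S4_add]
    refine S4_congr fun a _ b _ c _ d _ => ?_
    rw [hg1, hg2, hg3]
    by_cases h : a < b ∧ b < c ∧ c < d
    · simp only [if_pos h]
    · simp only [if_neg h, add_zero]
  rw [e1, S4_23 N g1, S4_34 N g2, S4_23 N (fun a b c d => g2 a b d c)]
  unfold SK
  rw [← S4_add, ← S4_add]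
  refine S4_congr fun a _ b _ c _ d _ => ?_
  unfold kQ
  rw [add_smul, add_smul, ite_smul, ite_smul, ite_smul, zero_smul]

/-! ### The quadratic operation -/

/-- The coefficients of `q0`. -/
def k0 (N x y z w : ℕ) : ZMod 2 :=
  ∑ k ∈ range N, ∑ m ∈ range N, if (x < m ∧ m ≤ y ∧ y ≤ k) ∧ (z ≤ m ∧ m < w ∧ w < k) then 1 else 0

lemma FF_pairs {i j N : ℕ} (hij : i ≤ j) (hj : j ≤ N) : FF f x i j =
    ∑ u ∈ range N, ∑ v ∈ range N, if u < i ∧ i ≤ v ∧ v < j then X2 f x u v else 0 := by
  have e1 : FF f x i j = ∑ u ∈ range N, ∑ v ∈ range N,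
      if u < i ∧ v < j then X2 f x u v else 0 := by
    unfold FF
    rw [range_if (n := i) (N := N) (by omega)]
    refine sum_congr rfl fun u _ => ?_
    by_cases h : u < i
    · rw [if_pos h, range_if hj]
      refine sum_congr rfl fun v _ => ?_
      by_cases h' : v < j
      · rw [if_pos h', if_pos ⟨h, h'⟩]
      · rw [if_neg h', if_neg (by tauto)]
    · rw [if_neg h]
      exact (sum_eq_zero fun v _ => if_neg (by tauto)).symm
  have e2 : FF f x i i = ∑ u ∈ range N, ∑ v ∈ range N,
      if u < i ∧ v < i then X2 f x u v else 0 := by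
    unfold FF
    rw [range_if (n := i) (N := N) (by omega)]
    refine sum_congr rfl fun u _ => ?_
    by_cases h : u < i
    · rw [if_pos h, range_if (n := i) (N := N) (by omega)]
      refine sum_congr rfl fun v _ => ?_
      by_cases h' : v < i
      · rw [if_pos h', if_pos ⟨h, h'⟩]
      · rw [if_neg h', if_neg (by tauto)]
    · rw [if_neg h]
      exact (sum_eq_zero fun v _ => if_neg (by tauto)).symm
  rw [FF_self] at e2
  have e3 : ∑ u ∈ range N, ∑ v ∈ range N, (if u < i ∧ v < j then X2 f x u v else 0) =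
      ∑ u ∈ range N, ∑ v ∈ range N, (if u < i ∧ i ≤ v ∧ v < j then X2 f x u v else 0) +
      ∑ u ∈ range N, ∑ v ∈ range N, (if u < i ∧ v < i then X2 f x u v else 0) := by
    rw [← sum_add_distrib]
    refine sum_congr rfl fun u _ => ?_
    rw [← sum_add_distrib]
    refine sum_congr rfl fun v _ => ?_
    by_cases h1 : u < i
    · by_cases h2 : v < i
      · rw [if_pos ⟨h1, by omega⟩, if_neg (by omega), if_pos ⟨h1, h2⟩, zero_add]
      · by_cases h3 : v < j
        · rw [if_pos ⟨h1, h3⟩, if_pos ⟨h1, by omega, h3⟩, if_neg (by omega), add_zero]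
        · rw [if_neg (by omega), if_neg (by omega), if_neg (by omega), add_zero]
    · rw [if_neg (by omega), if_neg (by omega), if_neg (by omega), add_zero]
  rw [e1, e3, ← e2, add_zero]

lemma q0_eq (N : ℕ) : q0 f N x = SK (X2 f x) N (k0 N) := by
  have e1 : q0 f N x = ∑ k ∈ range N, ∑ m ∈ range N, S4 N (fun a b c d =>
      (if (a < m ∧ m ≤ b ∧ b ≤ k) ∧ (c ≤ m ∧ m < d ∧ d < k) then (1 : ZMod 2) else 0) •
        (X2 f x a b * X2 f x c d)) := by
    unfold q0
    refine sum_congr rfl fun k hk => ?_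
    have hk := mem_range.1 hk
    rw [range_if (n := k) (N := N) (by omega)]
    refine sum_congr rfl fun m hm => ?_
    by_cases h : m < k
    · rw [if_pos h, FF_pairs (N := N) (by omega) (by omega),
        FF_pairs (N := N) (by omega) (by omega)]
      unfold S4
      rw [sum_mul]
      refine sum_congr rfl fun a _ => ?_
      rw [sum_mul]
      refine sum_congr rfl fun b _ => ?_
      rw [mul_sum]
      refine sum_congr rfl fun c _ => ?_
      rw [mul_sum]
      refine sum_congr rfl fun d _ => ?_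
      by_cases h1 : a < m ∧ m ≤ b ∧ b ≤ k
      · have h1' : a < m ∧ m ≤ b ∧ b < k + 1 := by omega
        by_cases h2 : c ≤ m ∧ m < d ∧ d < k
        · have h2' : c < m + 1 ∧ m + 1 ≤ d ∧ d < k := by omega
          simp only [if_pos h1', if_pos h2', if_pos (And.intro h1 h2), one_smul]
        · have h2' : ¬ (c < m + 1 ∧ m + 1 ≤ d ∧ d < k) := by omega
          have h3 : ¬ ((a < m ∧ m ≤ b ∧ b ≤ k) ∧ (c ≤ m ∧ m < d ∧ d < k)) := by tauto
          simp only [if_neg h2', if_neg h3, zero_smul, mul_zero]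
      · have h1' : ¬ (a < m ∧ m ≤ b ∧ b < k + 1) := by omega
        have h3 : ¬ ((a < m ∧ m ≤ b ∧ b ≤ k) ∧ (c ≤ m ∧ m < d ∧ d < k)) := by tauto
        simp only [if_neg h1', if_neg h3, zero_smul, zero_mul]
    · rw [if_neg h]
      unfold S4
      refine (sum_eq_zero fun a _ => sum_eq_zero fun b _ => sum_eq_zero fun c _ =>
        sum_eq_zero fun d _ => ?_).symm
      rw [if_neg (by omega), zero_smul]
  rw [e1]
  unfold SK S4 k0
  have e2 : ∀ (g : ℕ → ℕ → ℕ → ℕ → ℕ → ℕ → A),
      ∑ k ∈ range N, ∑ m ∈ range N, ∑ a ∈ range N, ∑ b ∈ range N, ∑ c ∈ range N,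
        ∑ d ∈ range N, g k m a b c d = ∑ a ∈ range N, ∑ b ∈ range N, ∑ c ∈ range N,
        ∑ d ∈ range N, ∑ k ∈ range N, ∑ m ∈ range N, g k m a b c d := by
    intro g
    have s1 : ∀ (h : ℕ → ℕ → ℕ → A), ∑ k ∈ range N, ∑ m ∈ range N, ∑ a ∈ range N, h k m a =
        ∑ a ∈ range N, ∑ k ∈ range N, ∑ m ∈ range N, h k m a := by
      intro h
      rw [sum_comm (s := range N) (t := range N)
        (f := fun a k => ∑ m ∈ range N, h k m a)]
      exact sum_congr rfl fun k _ => sum_comm
    rw [s1]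
    refine sum_congr rfl fun a _ => ?_
    rw [s1]
    refine sum_congr rfl fun b _ => ?_
    rw [s1]
    refine sum_congr rfl fun c _ => ?_
    rw [s1]
  rw [e2]
  refine sum_congr rfl fun a _ => sum_congr rfl fun b _ => sum_congr rfl fun c _ =>
    sum_congr rfl fun d _ => ?_
  simp only [sum_smul]

/-! ### The correction term -/

/-- The correction term, with `M` faces. -/
def corr (f : ℕ → A →ₐ[ZMod 2] A) (M : ℕ) (x : A) : A :=
  ∑ v ∈ range M, ∑ u ∈ range v, ((u : ZMod 2) * v + M) • (f u x * f v x) +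
    ∑ u ∈ range M, ((M : ZMod 2) * u) • (f u x * f u x)

/-- The coefficients of the differential of the correction term. -/
def kE (M a b c d : ℕ) : ZMod 2 :=
  if a = c then (if b < d then (un a b : ZMod 2) * (un a d : ZMod 2) + M
    else if b = d then (M : ZMod 2) * (un a b : ZMod 2) else 0) else 0

lemma f_corr (hf : IsFace f) (M w : ℕ) (hw : w ≤ M) : f w (corr f M x) =
    ∑ b ∈ range (M + 1), ∑ d ∈ range (M + 1),
      (if b < d then (un w b : ZMod 2) * (un w d : ZMod 2) + M
        else if b = d then (M : ZMod 2) * (un w b : ZMod 2) else 0) •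
          (X2 f x w b * X2 f x w d) := by
  have e1 : f w (corr f M x) = ∑ k ∈ range (M + 1), ∑ m ∈ range k,
      (if m = w ∨ k = w then 0 else
        ((un w m : ZMod 2) * (un w k : ZMod 2) + M) • (X2 f x w m * X2 f x w k)) +
      ∑ k ∈ range (M + 1), ((M : ZMod 2) * (un w k : ZMod 2)) • (X2 f x w k * X2 f x w k) := by
    rw [← pairs_skn (fun m k => ((un w m : ZMod 2) * (un w k : ZMod 2) + M) •
        (X2 f x w m * X2 f x w k)) w M hw,
      ← sum_skn1 (fun k => ((M : ZMod 2) * (un w k : ZMod 2)) • (X2 f x w k * X2 f x w k)) w M hw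
        (by rw [X2_self, mul_zero, smul_zero])]
    unfold corr
    rw [map_add, map_sum, map_sum]
    congr 1
    · refine sum_congr rfl fun v _ => ?_
      rw [map_sum]
      refine sum_congr rfl fun u _ => ?_
      rw [map_smul, map_mul, f_f hf, f_f hf, un_skn, un_skn]
    · refine sum_congr rfl fun u _ => ?_
      rw [map_smul, map_mul, f_f hf, un_skn]
  have e2 : ∑ k ∈ range (M + 1), ∑ m ∈ range k,
      (if m = w ∨ k = w then 0 else
        ((un w m : ZMod 2) * (un w k : ZMod 2) + M) • (X2 f x w m * X2 f x w k)) =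
      ∑ b ∈ range (M + 1), ∑ d ∈ range (M + 1), (if b < d then
        ((un w b : ZMod 2) * (un w d : ZMod 2) + M) • (X2 f x w b * X2 f x w d) else 0) := by
    rw [sum_comm]
    refine sum_congr rfl fun d hd => ?_
    have hd := mem_range.1 hd
    rw [range_if (n := d) (N := M + 1) (by omega)]
    refine sum_congr rfl fun b _ => ?_
    by_cases h : b < d
    · rw [if_pos h, if_pos h]
      by_cases h' : b = w ∨ d = w
      · rw [if_pos h']
        rcases h' with rfl | rfl
        · rw [X2_self, zero_mul, smul_zero]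
        · rw [X2_self, mul_zero, smul_zero]
      · rw [if_neg h']
    · rw [if_neg h, if_neg h]
  have e3 : ∑ k ∈ range (M + 1), ((M : ZMod 2) * (un w k : ZMod 2)) •
      (X2 f x w k * X2 f x w k) = ∑ b ∈ range (M + 1), ∑ d ∈ range (M + 1), (if b = d then
        ((M : ZMod 2) * (un w b : ZMod 2)) • (X2 f x w b * X2 f x w d) else 0) := by
    refine sum_congr rfl fun b hb => ?_
    rw [sum_ite_eq, if_pos hb]
  rw [e1, e2, e3, ← sum_add_distrib]
  refine sum_congr rfl fun b _ => ?_
  rw [← sum_add_distrib]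
  refine sum_congr rfl fun d _ => ?_
  rcases lt_trichotomy b d with h | h | h
  · rw [if_pos h, if_pos h, if_neg (by omega), add_zero]
  · subst h
    rw [if_neg (lt_irrefl _), if_pos rfl, if_neg (lt_irrefl _), if_pos rfl, zero_add]
  · rw [if_neg (by omega), if_neg (by omega), if_neg (by omega), if_neg (by omega), zero_smul,
      add_zero]

lemma dF_corr (hf : IsFace f) (M : ℕ) :
    dF f (M + 1) (corr f M x) = SK (X2 f x) (M + 1) (kE M) := by
  unfold SK dF
  rw [S4_23]
  unfold S4
  refine sum_congr rfl fun a ha => ?_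
  have ha' := mem_range.1 ha
  rw [f_corr hf M a (by omega)]
  refine Eq.symm ?_
  refine (sum_eq_single a ?_ ?_).trans ?_
  · intro c _ hc
    refine sum_eq_zero fun b _ => sum_eq_zero fun d _ => ?_
    beta_reduce
    unfold kE
    rw [if_neg (Ne.symm hc), zero_smul]
  · intro h
    exact absurd ha h
  · refine sum_congr rfl fun b _ => sum_congr rfl fun d _ => ?_
    beta_reduce
    unfold kE
    rw [if_pos rfl]

/-! ### The relations of the cocycles -/

/-- The coefficients of the multiples of the relations. -/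
def Lam (u v w : ℕ) : ZMod 2 :=
  if u < v then (w : ZMod 2) * (1 + u + u * v)
  else if w < u then (v : ZMod 2) + u * w + u * v * w
  else if v < u ∧ u < w then (v : ZMod 2) * w + u * v + u * v * w
  else if u = v then (v : ZMod 2) * w else 0

/-- The coefficients of the sum of the multiples of the relations. -/
def kL (a _b c d : ℕ) : ZMod 2 := if c < d then Lam a c d else 0

lemma row_closed (hf : IsFace f) {M : ℕ} (hx : dF f M x = 0) {u : ℕ} (hu : u ≤ M) :
    ∑ v ∈ range (M + 1), X2 f x u v = 0 := by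
  have h1 := congrArg (f u) hx
  unfold dF at h1
  rw [map_sum, map_zero, sum_congr rfl fun a _ => f_f hf u a,
    sum_skn1 (fun v => X2 f x u v) u M (by omega) (X2_self u)] at h1
  exact h1

lemma kL_zero (hf : IsFace f) {M : ℕ} (hx : dF f M x = 0) :
    SK (X2 f x) (M + 1) kL = 0 := by
  unfold SK S4
  refine sum_eq_zero fun a ha => ?_
  have ha := mem_range.1 ha
  have e : ∑ b ∈ range (M + 1), ∑ c ∈ range (M + 1), ∑ d ∈ range (M + 1),
      kL a b c d • (X2 f x a b * X2 f x c d) = (∑ b ∈ range (M + 1), X2 f x a b) *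
      ∑ c ∈ range (M + 1), ∑ d ∈ range (M + 1), kL a 0 c d • X2 f x c d := by
    rw [sum_mul]
    refine sum_congr rfl fun b _ => ?_
    rw [mul_sum]
    refine sum_congr rfl fun c _ => ?_
    rw [mul_sum]
    refine sum_congr rfl fun d _ => ?_
    rw [mul_smul_comm]
    rfl
  rw [e, row_closed hf hx (by omega), zero_mul]

/-! ### Evaluation of the coefficients -/

lemma cnt {N lo hi : ℕ} (h1 : lo ≤ hi) (h2 : hi ≤ N) :
    ∑ m ∈ range N, (if lo ≤ m ∧ m < hi then (1 : ZMod 2) else 0) = hi + lo := by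
  obtain ⟨k, rfl⟩ : ∃ k, hi = lo + k := ⟨hi - lo, by omega⟩
  obtain ⟨l, rfl⟩ : ∃ l, N = lo + k + l := ⟨N - (lo + k), by omega⟩
  rw [sum_range_add, sum_range_add]
  have e1 : ∑ m ∈ range lo, (if lo ≤ m ∧ m < lo + k then (1 : ZMod 2) else 0) = 0 :=
    sum_eq_zero fun m hm => if_neg (by have := mem_range.1 hm; omega)
  have e2 : ∑ m ∈ range k, (if lo ≤ lo + m ∧ lo + m < lo + k then (1 : ZMod 2) else 0) =
      ∑ m ∈ range k, 1 :=
    sum_congr rfl fun m hm => if_pos (by have := mem_range.1 hm; omega)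
  have e3 : ∑ m ∈ range l, (if lo ≤ lo + k + m ∧ lo + k + m < lo + k then (1 : ZMod 2) else 0) =
      0 := sum_eq_zero fun m hm => if_neg (by omega)
  rw [e1, e2, e3, sum_const, card_range, nsmul_eq_mul, mul_one, zero_add, add_zero]
  push_cast
  generalize (lo : ZMod 2) = a
  generalize (k : ZMod 2) = b
  revert a b
  decide

lemma k0_val {N x y z w : ℕ} (lo hi K : ℕ) (h1 : lo ≤ hi) (h2 : hi ≤ N) (h3 : K ≤ N)
    (h4 : ∀ m, (x < m ∧ m ≤ y ∧ z ≤ m ∧ m < w) ↔ (lo ≤ m ∧ m < hi))
    (h5 : ∀ k, (y ≤ k ∧ w < k) ↔ K ≤ k) : k0 N x y z w = ((N : ZMod 2) + K) * (hi + lo) := by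
  have e1 : k0 N x y z w = (∑ k ∈ range N, (if K ≤ k ∧ k < N then (1 : ZMod 2) else 0)) *
      ∑ m ∈ range N, (if lo ≤ m ∧ m < hi then (1 : ZMod 2) else 0) := by
    unfold k0
    rw [sum_mul]
    refine sum_congr rfl fun k hk => ?_
    have hk := mem_range.1 hk
    rw [mul_sum]
    refine sum_congr rfl fun m _ => ?_
    have h6 := h4 m
    have h7 := h5 k
    by_cases h8 : K ≤ k
    · by_cases h9 : lo ≤ m ∧ m < hi
      · rw [if_pos (by omega), if_pos (by omega), if_pos h9, mul_one]
      · rw [if_neg (by omega), if_neg h9, mul_zero]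
    · rw [if_neg (by omega), if_neg (c := K ≤ k ∧ k < N) (by omega), zero_mul]
  rw [e1, cnt h3 le_rfl, cnt h1 h2]

lemma k0_zero {N x y z w : ℕ} (h4 : ∀ m, ¬ (x < m ∧ m ≤ y ∧ z ≤ m ∧ m < w)) :
    k0 N x y z w = 0 := by
  unfold k0
  refine sum_eq_zero fun k _ => sum_eq_zero fun m _ => if_neg ?_
  have := h4 m
  omega

lemma un_lt {a b : ℕ} (h : b < a) : un a b = b := by unfold un; rw [if_pos h]

lemma un_gt {a b : ℕ} (h : a < b) : (un a b : ZMod 2) = b + 1 := by
  unfold un
  rw [if_neg (by omega)]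
  obtain ⟨c, rfl⟩ : ∃ c, b = c + 1 := ⟨b - 1, by omega⟩
  rw [Nat.add_sub_cancel]
  push_cast
  generalize (c : ZMod 2) = a
  revert a
  decide

/-- The total coefficients. -/
def kT (M a b c d : ℕ) : ZMod 2 := kQ a b c d + k0 (M + 1) a b c d + kE M a b c d + kL a b c d

lemma Ksym_kT (M : ℕ) {x y z w : ℕ} (h1 : x < y) (h2 : z < w) :
    Ksym (kT M) x y z w = kQ x y z w + k0 (M + 1) x y z w +
      (kE M x y z w + kE M y x z w + kE M x y w z + kE M y x w z) + (Lam x z w + Lam y z w) := by
  have e1 : kQ y x z w = 0 := by unfold kQ; simp (disch := omega) only [if_neg, add_zero]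
  have e2 : kQ x y w z = 0 := by unfold kQ; simp (disch := omega) only [if_neg, add_zero]
  have e3 : kQ y x w z = 0 := by unfold kQ; simp (disch := omega) only [if_neg, add_zero]
  have e4 : k0 (M + 1) y x z w = 0 := k0_zero fun m => by omega
  have e5 : k0 (M + 1) x y w z = 0 := k0_zero fun m => by omega
  have e6 : k0 (M + 1) y x w z = 0 := k0_zero fun m => by omega
  have e7 : kL x y z w = Lam x z w := by unfold kL; rw [if_pos h2]
  have e8 : kL y x z w = Lam y z w := by unfold kL; rw [if_pos h2]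
  have e9 : kL x y w z = 0 := by unfold kL; rw [if_neg (by omega)]
  have e10 : kL y x w z = 0 := by unfold kL; rw [if_neg (by omega)]
  unfold Ksym kT
  rw [e1, e2, e3, e4, e5, e6, e7, e8, e9, e10]
  ring

/-- disjoint, separated -/
lemma case1 (M : ℕ) {x y z w : ℕ} (h1 : x < y) (h2 : y < z) (h3 : z < w) (h4 : w ≤ M) :
    Ksym (kT M) x y z w = Ksym (kT M) z w x y := by
  rw [Ksym_kT M h1 h3, Ksym_kT M h3 h1, k0_zero fun m => by omega, k0_zero fun m => by omega]
  unfold kQ kE Lam
  simp (disch := omega) only [if_pos, if_neg, add_zero, zero_add]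
  unfold c3
  generalize (x : ZMod 2) = a
  generalize (y : ZMod 2) = b
  generalize (z : ZMod 2) = c
  generalize (w : ZMod 2) = d
  revert a b c d
  decide

/-- disjoint, crossing -/
lemma case2 (M : ℕ) {x y z w : ℕ} (h1 : x < z) (h2 : z < y) (h3 : y < w) (h4 : w ≤ M) :
    Ksym (kT M) x y z w = Ksym (kT M) z w x y := by
  rw [Ksym_kT M (by omega) (by omega), Ksym_kT M (by omega) (by omega),
    k0_val (x := x) z (y + 1) (w + 1) (by omega) (by omega) (by omega) (fun m => by omega)
      (fun m => by omega),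
    k0_val (x := z) (z + 1) y w (by omega) (by omega) (by omega) (fun m => by omega)
      (fun m => by omega)]
  unfold kQ kE Lam
  simp (disch := omega) only [if_pos, if_neg, add_zero, zero_add]
  unfold c1
  push_cast
  generalize (x : ZMod 2) = a
  generalize (y : ZMod 2) = b
  generalize (z : ZMod 2) = c
  generalize (w : ZMod 2) = d
  generalize (M : ZMod 2) = e
  revert a b c d e
  decide

/-- disjoint, nested -/
lemma case3 (M : ℕ) {x y z w : ℕ} (h1 : x < z) (h2 : z < w) (h3 : w < y) (h4 : y ≤ M) :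
    Ksym (kT M) x y z w = Ksym (kT M) z w x y := by
  rw [Ksym_kT M (by omega) (by omega), Ksym_kT M (by omega) (by omega),
    k0_val (x := x) z w y (by omega) (by omega) (by omega) (fun m => by omega)
      (fun m => by omega),
    k0_val (x := z) (z + 1) (w + 1) (y + 1) (by omega) (by omega) (by omega) (fun m => by omega)
      (fun m => by omega)]
  unfold kQ kE Lam
  simp (disch := omega) only [if_pos, if_neg, add_zero, zero_add]
  unfold c2
  push_cast
  generalize (x : ZMod 2) = a
  generalize (y : ZMod 2) = b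
  generalize (z : ZMod 2) = c
  generalize (w : ZMod 2) = d
  generalize (M : ZMod 2) = e
  revert a b c d e
  decide

/-- common lower index -/
lemma case4 (M : ℕ) {x y w : ℕ} (h1 : x < y) (h2 : y < w) (h4 : w ≤ M) :
    Ksym (kT M) x y x w = Ksym (kT M) x w x y := by
  rw [Ksym_kT M (by omega) (by omega), Ksym_kT M (by omega) (by omega),
    k0_val (x := x) (y := y) (x + 1) (y + 1) (w + 1) (by omega) (by omega) (by omega)
      (fun m => by omega) (fun m => by omega),
    k0_val (x := x) (y := w) (x + 1) y w (by omega) (by omega) (by omega) (fun m => by omega)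
      (fun m => by omega)]
  unfold kQ kE Lam
  simp (disch := omega) only [if_pos, if_neg, add_zero, zero_add, if_true, un_gt, un_lt]
  push_cast
  generalize (x : ZMod 2) = a
  generalize (y : ZMod 2) = b
  generalize (w : ZMod 2) = d
  generalize (M : ZMod 2) = e
  revert a b d e
  decide

/-- common upper index -/
lemma case5 (M : ℕ) {x y z : ℕ} (h1 : x < z) (h2 : z < y) (h4 : y ≤ M) :
    Ksym (kT M) x y z y = Ksym (kT M) z y x y := by
  rw [Ksym_kT M (by omega) (by omega), Ksym_kT M (by omega) (by omega),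
    k0_val (x := x) z y (y + 1) (by omega) (by omega) (by omega)
      (fun m => by omega) (fun m => by omega),
    k0_val (x := z) (z + 1) y (y + 1) (by omega) (by omega) (by omega) (fun m => by omega)
      (fun m => by omega)]
  unfold kQ kE Lam
  simp (disch := omega) only [if_pos, if_neg, add_zero, zero_add, if_true, un_gt, un_lt]
  push_cast
  generalize (x : ZMod 2) = a
  generalize (y : ZMod 2) = b
  generalize (z : ZMod 2) = d
  generalize (M : ZMod 2) = e
  revert a b d e
  decide

/-- common middle index -/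
lemma case6 (M : ℕ) {x y w : ℕ} (h1 : x < y) (h2 : y < w) (h4 : w ≤ M) :
    Ksym (kT M) x y y w = Ksym (kT M) y w x y := by
  rw [Ksym_kT M (by omega) (by omega), Ksym_kT M (by omega) (by omega),
    k0_val (x := x) y (y + 1) (w + 1) (by omega) (by omega) (by omega)
      (fun m => by omega) (fun m => by omega),
    k0_zero fun m => by omega]
  unfold kQ kE Lam
  simp (disch := omega) only [if_pos, if_neg, add_zero, zero_add, if_true, un_gt, un_lt]
  push_cast
  generalize (x : ZMod 2) = a
  generalize (y : ZMod 2) = b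
  generalize (w : ZMod 2) = d
  generalize (M : ZMod 2) = e
  revert a b d e
  decide

/-- equal pairs -/
lemma case7 (M : ℕ) {x y : ℕ} (h1 : x < y) (h4 : y ≤ M) : Ksym (kT M) x y x y = 0 := by
  rw [Ksym_kT M (by omega) (by omega),
    k0_val (x := x) (x + 1) y (y + 1) (by omega) (by omega) (by omega)
      (fun m => by omega) (fun m => by omega)]
  unfold kQ kE Lam
  simp (disch := omega) only [if_pos, if_neg, add_zero, zero_add, if_true, un_gt, un_lt]
  push_cast
  generalize (x : ZMod 2) = a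
  generalize (y : ZMod 2) = b
  generalize (M : ZMod 2) = e
  revert a b e
  decide

lemma case_lt (M : ℕ) {x y z w : ℕ} (h0 : x < z) (h1 : x < y) (h2 : z < w) (h3 : y ≤ M)
    (h4 : w ≤ M) : Ksym (kT M) x y z w = Ksym (kT M) z w x y := by
  rcases lt_trichotomy y z with h | h | h
  · exact case1 M h1 h h2 h4
  · subst h
    exact case6 M h1 h2 h4
  · rcases lt_trichotomy y w with h' | h' | h'
    · exact case2 M h0 h h' h4
    · subst h'
      exact case5 M h0 h h3
    · exact case3 M h0 h2 h' h3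

lemma case_all (M : ℕ) {x y z w : ℕ} (h1 : x < y) (h2 : z < w) (h3 : y ≤ M)
    (h4 : w ≤ M) : Ksym (kT M) x y z w = Ksym (kT M) z w x y := by
  rcases lt_trichotomy x z with h | h | h
  · exact case_lt M h h1 h2 h3 h4
  · subst h
    rcases lt_trichotomy y w with h | h | h
    · exact case4 M h1 h h4
    · subst h
      rfl
    · exact (case4 M h2 h h3).symm
  · exact (case_lt M h h2 h1 h4 h3).symm

/-- The formula of Steenrod and `q0` agree on cocycles up to a coboundary. -/
theorem link (hf : IsFace f) {M : ℕ} (hx : dF f M x = 0) :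
    stQ (X2 f x) (M + 1) = q0 f (M + 1) x + dF f (M + 1) (corr f M x) := by
  have h : SK (X2 f x) (M + 1) (kT M) = 0 :=
    SK_zero X2_symm X2_self (fun x y z w h1 h2 h3 h4 => case_all M h1 h2 (by omega) (by omega))
      (fun x y h1 h2 => case7 M h1 (by omega))
  unfold kT at h
  rw [SK_add (X2 f x) (M + 1) (fun a b c d => kQ a b c d + k0 (M + 1) a b c d + kE M a b c d) kL,
    SK_add (X2 f x) (M + 1) (fun a b c d => kQ a b c d + k0 (M + 1) a b c d) (kE M),
    SK_add (X2 f x) (M + 1) kQ (k0 (M + 1)), ← stQ_eq, ← q0_eq, ← dF_corr hf, kL_zero hf hx,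
    add_zero, add_assoc] at h
  exact add_eq_zero2.1 h

end Pool.Agent.Work.MP_701abf_gt.Sq2
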