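import Pool.Agent.Work.MP_701abf_gt.Sq2.CartanTwo
import Pool.Agent.Work.MP_701abf_gt.Sq2.Link
import Pool.Agent.Work.MP_701abf_gt.Cob.Density

/-!
Cocycles and coboundaries in the big ring, and the three operations.
-/

open MvPolynomial
open Pool.Agent.Work.MP_701abf_gt.Stab Pool.Agent.Work.MP_701abf_gt.Cob

namespace Pool.Agent.Work.MP_701abf_gt.Sq2

noncomputable section

/-- Cocycles with `s` factors, of internal degree `t`. -/
def ZR (s : ℕ) (t : ℤ) : Submodule (ZMod 2) (RR Empty) where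
  carrier := {F | F ∈ lev Empty (s + 1) ∧ WH wE F (0, t) ∧ dE (s + 1) F = 0}
  zero_mem' := ⟨Submodule.zero_mem _, isWeightedHomogeneous_zero _ _ _, map_zero _⟩
  add_mem' := by
    rintro x y ⟨h1, h2, h3⟩ ⟨h4, h5, h6⟩
    exact ⟨Submodule.add_mem _ h1 h4, h2.add h5, by rw [map_add, h3, h6, add_zero]⟩
  smul_mem' := by
    rintro c x ⟨h1, h2, h3⟩
    refine ⟨Submodule.smul_mem _ _ h1, ?_, by rw [map_smul, h3, smul_zero]⟩
    have h4 : x ∈ weightedHomogeneousSubmodule (ZMod 2) wE ((0, t) : (ℤ × ℤ) × ℤ) := h2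
    exact Submodule.smul_mem _ c h4

/-- Coboundaries with `s` factors, of internal degree `t`. -/
def BR (s : ℕ) (t : ℤ) : Submodule (ZMod 2) (RR Empty) where
  carrier := {F | ∃ G ∈ lev Empty s, WH wE G (0, t) ∧ dE s G = F}
  zero_mem' := ⟨0, Submodule.zero_mem _, isWeightedHomogeneous_zero _ _ _, map_zero _⟩
  add_mem' := by
    rintro x y ⟨G, h1, h2, rfl⟩ ⟨H, h4, h5, rfl⟩
    exact ⟨G + H, Submodule.add_mem _ h1 h4, h2.add h5, map_add _ _ _⟩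
  smul_mem' := by
    rintro c x ⟨G, h1, h2, rfl⟩
    refine ⟨c • G, Submodule.smul_mem _ _ h1, ?_, map_smul _ _ _⟩
    have h4 : G ∈ weightedHomogeneousSubmodule (ZMod 2) wE ((0, t) : (ℤ × ℤ) × ℤ) := h2
    exact Submodule.smul_mem _ c h4

lemma mem_ZR {s : ℕ} {t : ℤ} {F : RR Empty} :
    F ∈ ZR s t ↔ F ∈ lev Empty (s + 1) ∧ WH wE F (0, t) ∧ dE (s + 1) F = 0 := Iff.rfl

lemma mem_BR {s : ℕ} {t : ℤ} {F : RR Empty} :
    F ∈ BR s t ↔ ∃ G ∈ lev Empty s, WH wE G (0, t) ∧ dE s G = F := Iff.rfl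

lemma BR_le (s : ℕ) (t : ℤ) : BR s t ≤ ZR s t := by
  rintro F ⟨G, h1, h2, rfl⟩
  exact ⟨dR_lev _ h1, dR_wh _ h2, dR_dR' _ h1⟩

lemma th_mem_ZR {s t : ℕ} {p : Cobar s} (hp : p ∈ Zc s t) : th s p ∈ ZR s (t : ℤ) := th_Zc hp

lemma th_mem_BR {s t : ℕ} {p : Cobar s} : th s p ∈ BR s (t : ℤ) ↔ p ∈ Bc s t := mem_Bc.symm

lemma exists_th {s t : ℕ} {F : RR Empty} (h : F ∈ ZR s (t : ℤ)) : ∃ p ∈ Zc s t, th s p = F :=
  ⟨ps s F, ps_Zc h.1 h.2.1 h.2.2, th_surj h.1⟩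

/-! ### Squares -/

lemma sq_add (F G : RR Empty) : (F + G) ^ 2 = F ^ 2 + G ^ 2 := by
  have : (2 : RR Empty) = 0 := two_zero
  linear_combination F * G * this

lemma sq_ZR {s : ℕ} {t : ℤ} {F : RR Empty} (h : F ∈ ZR s t) : F ^ 2 ∈ ZR s (2 * t) := by
  obtain ⟨h1, h2, h3⟩ := h
  refine ⟨lev_pow h1 two_ne_zero, ?_, ?_⟩
  · rw [pow_two]; exact mul_wh2 h2 h2
  · have := dR_pow (fun _ : Empty => 0) (s + 1) F 1
    rw [pow_one] at this
    change dR _ _ _ = 0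
    rw [this]
    change (dE (s + 1) F) ^ 2 = 0
    rw [h3, zero_pow two_ne_zero]

lemma sq_BR {s : ℕ} {t : ℤ} {F : RR Empty} (h : F ∈ BR s t) : F ^ 2 ∈ BR s (2 * t) := by
  obtain ⟨G, h1, h2, rfl⟩ := h
  refine ⟨G ^ 2, lev_pow h1 two_ne_zero, ?_, ?_⟩
  · rw [pow_two]; exact mul_wh2 h2 h2
  · have := dR_pow (fun _ : Empty => 0) s G 1
    rw [pow_one] at this
    exact this

/-! ### The operation of degree one -/

/-- The operation of degree one. -/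
def dl (s : ℕ) (F : RR Empty) : RR Empty := sq1 (fun _ => 0) (s + 1) F

lemma dl_ZR {s : ℕ} {t : ℤ} {F : RR Empty} (h : F ∈ ZR s t) : dl s F ∈ ZR (s + 1) (2 * t) := by
  obtain ⟨h1, h2, h3⟩ := h
  obtain ⟨h4, h5⟩ := sq1_mem h1 h2 h3
  exact ⟨h4, h5, sq1_d _ _ h3⟩

lemma dl_BR {s : ℕ} {t : ℤ} {F : RR Empty} (h : F ∈ BR s t) : dl s F ∈ BR (s + 1) (2 * t) := by
  obtain ⟨G, h1, h2, rfl⟩ := h
  obtain ⟨H, hH, hHw, e2⟩ := sq1_bd' h1 h2
  exact ⟨H, hH, hHw, e2⟩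

lemma dl_add {s : ℕ} {t : ℤ} {F G : RR Empty} (hF : F ∈ ZR s t) (hG : G ∈ ZR s t) :
    dl s (F + G) + (dl s F + dl s G) ∈ BR (s + 1) (2 * t) := by
  refine ⟨F * G, mul_lev hF.1 hG.1, mul_wh2 hF.2.1 hG.2.1, ?_⟩
  have h7 := sq1_add (fun _ => 0) (s + 1) hF.2.2 hG.2.2
  change dR _ _ _ = sq1 _ _ _ + (sq1 _ _ _ + sq1 _ _ _)
  rw [← h7, ← add_assoc, add_self2, zero_add]

/-! ### The operation of degree two -/

/-- The operation of degree two. -/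
def sg (s : ℕ) (F : RR Empty) : RR Empty := sq2 (s + 1) F

/-- Level and weight. -/
def LW (n : ℕ) (t : ℤ) (F : RR Empty) : Prop := F ∈ lev Empty n ∧ WH wE F (0, t)

lemma LW.add {n : ℕ} {t : ℤ} {F G : RR Empty} (h : LW n t F) (h' : LW n t G) : LW n t (F + G) :=
  ⟨Submodule.add_mem _ h.1 h'.1, h.2.add h'.2⟩

lemma LW.zero (n : ℕ) (t : ℤ) : LW n t 0 :=
  ⟨Submodule.zero_mem _, isWeightedHomogeneous_zero _ _ _⟩

lemma LW.sum {n : ℕ} {t : ℤ} {α : Type*} (s : Finset α) (g : α → RR Empty)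
    (h : ∀ a ∈ s, LW n t (g a)) : LW n t (∑ a ∈ s, g a) := by
  classical
  induction s using Finset.induction_on with
  | empty => exact LW.zero _ _
  | @insert a s ha ih =>
    rw [Finset.sum_insert ha]
    exact (h a (Finset.mem_insert_self _ _)).add
      (ih fun b hb => h b (Finset.mem_insert_of_mem hb))

lemma LW.smul {n : ℕ} {t : ℤ} {F : RR Empty} (h : LW n t F) (c : ZMod 2) : LW n t (c • F) := by
  have : c = 0 ∨ c = 1 := by revert c; decide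
  rcases this with rfl | rfl
  · rw [zero_smul]; exact LW.zero _ _
  · rw [one_smul]; exact h

lemma LW.mul {n : ℕ} {t : ℤ} {F G : RR Empty} (h : LW n t F) (h' : LW n t G) :
    LW n (2 * t) (F * G) := ⟨mul_lev h.1 h'.1, mul_wh2 h.2 h'.2⟩

lemma LW.fc {n : ℕ} {t : ℤ} {F : RR Empty} (h : LW n t F) (j : ℕ) : LW (n + 1) t (fc j F) :=
  ⟨face_lev _ _ h.1, (face_gr _ _ _).map h.2⟩

lemma LW.X2 {n : ℕ} {t : ℤ} {F : RR Empty} (h : LW n t F) (u v : ℕ) :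
    LW (n + 2) t (X2 Sq2.fc F u v) := by
  unfold Sq2.X2
  split_ifs
  · exact (h.fc u).fc v
  · exact (h.fc v).fc u
  · exact LW.zero _ _

lemma LW.FF {n : ℕ} {t : ℤ} {F : RR Empty} (h : LW n t F) (i j : ℕ) :
    LW (n + 2) t (FF Sq2.fc F i j) :=
  LW.sum _ _ fun _ _ => LW.sum _ _ fun _ _ => h.X2 _ _

lemma LW.P1 {n : ℕ} {t : ℤ} {F : RR Empty} (h : LW n t F) (i : ℕ) :
    LW (n + 1) t (P1 Sq2.fc F i) := LW.sum _ _ fun _ _ => h.fc _

lemma LW.sq2 {n : ℕ} {t : ℤ} {F : RR Empty} (h : LW n t F) (m : ℕ) :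
    LW (n + 2) (2 * t) (sq2 m F) :=
  LW.sum _ _ fun _ _ => LW.sum _ _ fun _ _ => (h.FF _ _).mul (h.FF _ _)

lemma LW.cup1 {n : ℕ} {t : ℤ} {F G : RR Empty} (h : LW n t F) (h' : LW n t G) (m : ℕ) :
    LW (n + 1) (2 * t) (cup1 Sq2.fc m F G) :=
  LW.sum _ _ fun _ _ => (h.P1 _).mul (h'.P1 _)

lemma LW.corr {n : ℕ} {t : ℤ} {F : RR Empty} (h : LW n t F) (m : ℕ) :
    LW (n + 1) (2 * t) (corr Sq2.fc m F) :=
  (LW.sum _ _ fun _ _ => LW.sum _ _ fun _ _ => ((h.fc _).mul (h.fc _)).smul _).add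
    (LW.sum _ _ fun _ _ => ((h.fc _).mul (h.fc _)).smul _)

lemma sg_ZR {s : ℕ} {t : ℤ} {F : RR Empty} (h : F ∈ ZR s t) : sg s F ∈ ZR (s + 2) (2 * t) := by
  obtain ⟨h1, h2, h3⟩ := h
  have h4 := LW.sq2 (m := s + 1) ⟨h1, h2⟩
  refine ⟨h4.1, h4.2, ?_⟩
  have h5 := q0_closed isFace_fc (M := s + 2) (x := F) (by rw [dF_fc]; exact h3)
  have h6 := dF_fc (s + 3) (sg s F)
  exact h6.symm.trans h5

lemma sg_BR {s : ℕ} {t : ℤ} {F : RR Empty} (h : F ∈ BR s t) : sg s F ∈ BR (s + 2) (2 * t) := by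
  obtain ⟨G, h1, h2, rfl⟩ := h
  have h4 := LW.sq2 (m := s) ⟨h1, h2⟩
  refine ⟨sq2 s G, h4.1, h4.2, ?_⟩
  have h5 := dF_q0 isFace_fc (s + 1) G
  have h6 := dF_fc (s + 2) (q0 fc (s + 2) G)
  have h7 := dF_fc s G
  rw [h7] at h5
  exact h6.symm.trans h5

lemma sg_add {s : ℕ} {t : ℤ} {F G : RR Empty} (hF : F ∈ ZR s t) (hG : G ∈ ZR s t) :
    sg s (F + G) + (sg s F + sg s G) ∈ BR (s + 2) (2 * t) := by
  have h4 := LW.cup1 (m := s + 2) ⟨hF.1, hF.2.1⟩ ⟨hG.1, hG.2.1⟩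
  refine ⟨cup1 fc (s + 2) F G, h4.1, h4.2, ?_⟩
  have h5 := q0_add isFace_fc (M := s + 2) (x := F) (by rw [dF_fc]; exact hF.2.2) G
  have h6 := dF_fc (s + 2) (cup1 fc (s + 2) F G)
  rw [← h6]
  unfold sg sq2
  rw [h5]
  have h8 := add_self2 (q0 fc (s + 3) F + q0 fc (s + 3) G)
  calc dF fc (s + 2 + 1) (cup1 fc (s + 2) F G) = (q0 fc (s + 3) F + q0 fc (s + 3) G +
        (q0 fc (s + 3) F + q0 fc (s + 3) G)) + dF fc (s + 2 + 1) (cup1 fc (s + 2) F G) := by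
        rw [h8, zero_add]
    _ = _ := by abel

/-! ### Products -/

lemma mul_ZR {i j : ℕ} {a b : ℤ} {F G : RR Empty} (hF : F ∈ ZR i a) (hG : G ∈ ZR j b) :
    G * sh j F ∈ ZR (i + j) (a + b) := by
  obtain ⟨h1, h2, h3⟩ := hF
  obtain ⟨h4, h5, h6⟩ := hG
  refine ⟨lev_cup h1 h4, wh_cup h2 h5 j, ?_⟩
  rw [show i + j + 1 = j + i + 1 by ring]
  change dR _ _ _ = 0
  rw [dR_cup (fun _ => 0) h4, h3, map_zero, mul_zero]
  have h7 : dR (fun _ : Empty => 0) (j + 1) G = 0 := h6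
  rw [h7, zero_mul, add_zero]

lemma mul_BR_left {i j : ℕ} {a b : ℤ} {F G : RR Empty} (hF : F ∈ BR i a) (hG : G ∈ ZR j b) :
    G * sh j F ∈ BR (i + j) (a + b) := by
  obtain ⟨H, hH, hw, rfl⟩ := hF
  obtain ⟨h4, h5, h6⟩ := hG
  have h7 : dR (fun _ : Empty => 0) (j + 1) G = 0 := h6
  cases i with
  | zero =>
    have h0 : H = 0 := hH
    rw [h0, map_zero, map_zero, mul_zero]
    exact Submodule.zero_mem _
  | succ i =>
    refine ⟨G * sh j H, ?_, wh_cup hw h5 j, ?_⟩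
    · rw [show i + 1 + j = i + j + 1 by ring]
      exact lev_cup hH h4
    · rw [show i + 1 + j = j + i + 1 by ring]
      change dR _ _ _ = _
      rw [dR_cup (fun _ => 0) h4, h7, zero_mul, zero_add]

lemma mul_BR_right {i j : ℕ} {a b : ℤ} {F G : RR Empty} (hF : F ∈ ZR i a) (hG : G ∈ BR j b) :
    G * sh j F ∈ BR (i + j) (a + b) := by
  obtain ⟨H, hH, hw, rfl⟩ := hG
  obtain ⟨h4, h5, h6⟩ := hF
  cases j with
  | zero =>
    have h0 : H = 0 := hH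
    rw [h0, map_zero, zero_mul]
    exact Submodule.zero_mem _
  | succ j =>
    refine ⟨H * sh j F, ?_, wh_cup h5 hw j, ?_⟩
    · rw [show i + (j + 1) = i + j + 1 by ring]
      exact lev_cup h4 hH
    · rw [show i + (j + 1) = j + i + 1 by ring]
      change dR _ _ _ = _
      rw [dR_cup (fun _ => 0) hH, h6, map_zero, mul_zero, add_zero]

/-- The Cartan formulas. -/
lemma dl_mul {i j : ℕ} {a b : ℤ} {F G : RR Empty} (hF : F ∈ ZR i a) (hG : G ∈ ZR j b) :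
    dl (i + j) (G * sh j F) = dl j G * sh (j + 1) (F ^ 2) + G ^ 2 * sh j (dl i F) := by
  have := sq1_cup (i := i) (j := j) hG.1 hG.2.2 hF.2.2
  unfold dl
  rw [show i + j + 1 = j + i + 1 by ring]
  exact this

lemma sg_mul {i j : ℕ} {a b : ℤ} {F G : RR Empty} (hF : F ∈ ZR i a) (hG : G ∈ ZR j b) :
    sg (i + j) (G * sh j F) = sg j G * sh (j + 2) (F ^ 2) + dl j G * sh (j + 1) (dl i F) +
      G ^ 2 * sh j (sg i F) := by
  have := sq2_cup (i := i) (j := j) hG.1 hG.2.2 hF.2.2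
  unfold sg dl
  rw [show i + j + 1 = j + i + 1 by ring]
  exact this

end

end Pool.Agent.Work.MP_701abf_gt.Sq2
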