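import Pool.Agent.Work.MP_701abf_gt.Sq2.RZ
import Pool.Agent.Work.MP_701abf_gt.Cob.Spread
import Pool.Agent.Work.MP_701abf_gt.Stab.HOne

/-!
The Kuenneth formula in the big ring, with a family of cocycles on the small side.
-/

open MvPolynomial
open Pool.Agent.Work.MP_701abf_gt.Stab Pool.Agent.Work.MP_701abf_gt.Cob

namespace Pool.Agent.Work.MP_701abf_gt.Sq2

noncomputable section

section fam
variable {Z : Type} [Fintype Z] {N : ℤ} (f : Fam Z N)

omit [Fintype Z] in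
lemma cup_eq (j : Z) (s : ℕ) (v : RR Empty) :
    Stab.cup (f.z j) (s - f.β j) v = v * sh (s - f.β j - 1) (f.z j) := rfl

omit [Fintype Z] in
lemma fam_ZR (j : Z) : f.z j ∈ ZR (f.β j + 1) N := ⟨f.lev j, f.wh j, f.cl j⟩

/-- Injectivity. -/
lemma inj_fam {s : ℕ} {M : ℤ} (hM : ∀ p' ≤ s, ExK f Empty (fun _ => 0) p' 0 M)
    (u : Z → RR Empty) (hu : ∀ j, f.β j + 1 ≤ s → u j ∈ ZR (s - (f.β j + 1)) M)
    (hu0 : ∀ j, s < f.β j + 1 → u j = 0)
    (e : ∑ j, u j * sh (s - (f.β j + 1)) (f.z j) ∈ BR s (N + M)) :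
    ∀ j, f.β j + 1 ≤ s → u j ∈ BR (s - (f.β j + 1)) M := by
  obtain ⟨G, hG, hGw, e1⟩ := e
  intro j hj
  obtain ⟨n, rfl⟩ : ∃ n, s = n + 1 := ⟨s - 1, by omega⟩
  have hu1 : ∀ j, u j ∈ lev Empty (n + 1 - f.β j) ∧ WH wE (u j) (0, (M : ℤ)) ∧
      dE (n + 1 - f.β j) (u j) = 0 := by
    intro j
    by_cases h : f.β j + 1 ≤ n + 1
    · have h1 := hu j h
      have h2 : n + 1 - f.β j = n + 1 - (f.β j + 1) + 1 := by omega
      rw [h2]
      exact h1
    · rw [hu0 j (by omega)]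
      exact ⟨Submodule.zero_mem _, isWeightedHomogeneous_zero _ _ _, map_zero _⟩
  obtain ⟨⟨H, v⟩, ⟨hH, hv⟩, e'⟩ := hM n (by omega) (G, u)
    ⟨⟨hG, by rw [add_comm] at hGw; exact hGw⟩, fun j => ⟨(hu1 j).1, (hu1 j).2.1⟩⟩ (by
      refine Prod.ext ?_ (funext fun j => (hu1 j).2.2)
      change dE (n + 1) G + ∑ j, Stab.cup (f.z j) (n + 1 - f.β j) (u j) = 0
      rw [e1]
      have : ∀ j, Stab.cup (f.z j) (n + 1 - f.β j) (u j) =
          u j * sh (n + 1 - (f.β j + 1)) (f.z j) := by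
        intro j
        rw [cup_eq]
        congr 2
      rw [Finset.sum_congr rfl fun j _ => this j, add_self2])
  have e2 : dE (n - f.β j) (v j) = u j := congrFun (congrArg Prod.snd e') j
  have h6 : n - f.β j = n + 1 - (f.β j + 1) := by omega
  have h7 : v j ∈ lev Empty (n - f.β j) := (hv j).1
  rw [h6] at h7 e2
  exact ⟨v j, h7, (hv j).2, e2⟩

lemma BR_zero_deg : BR 0 (0 : ℤ) = ⊥ := by
  refine le_antisymm ?_ bot_le
  rintro F ⟨G, hG, -, rfl⟩
  have h0 : G = 0 := hG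
  rw [h0, map_zero]
  exact Submodule.zero_mem _

lemma C_ZR (c : ZMod 2) : (C c : RR Empty) ∈ ZR 0 0 := by
  refine ⟨C_lev le_rfl _, wh_C _, ?_⟩
  rw [dE_C]
  have : (((0 + 1 + 1 : ℕ) : ZMod 2)) = 0 := rfl
  rw [this, zero_mul, map_zero]

/-- Independence. -/
lemma indep_fam {s : ℕ} (hM : ∀ p' ≤ s, ExK f Empty (fun _ => 0) p' 0 0)
    (c : Z → ZMod 2) (hc : ∀ j, c j ≠ 0 → f.β j + 1 = s) (e : ∑ j, c j • f.z j ∈ BR s N) :
    c = 0 := by
  set u : Z → RR Empty := fun j => C (c j) with hu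
  have h := inj_fam f hM u (fun j hj => by
      by_cases h0 : c j = 0
      · rw [hu]
        simp only
        rw [h0, map_zero]
        exact Submodule.zero_mem _
      · have := hc j h0
        rw [show s - (f.β j + 1) = 0 by omega]
        exact C_ZR _) (fun j hj => by
      by_cases h0 : c j = 0
      · rw [hu]
        simp only
        rw [h0, map_zero]
      · have := hc j h0
        omega) (by
      rw [add_zero]
      refine (?_ : ∑ j, u j * sh (s - (f.β j + 1)) (f.z j) = ∑ j, c j • f.z j) ▸ e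
      refine Finset.sum_congr rfl fun j _ => ?_
      by_cases h0 : c j = 0
      · rw [hu]
        simp only
        rw [h0, map_zero, zero_mul, zero_smul]
      · have := hc j h0
        rw [show s - (f.β j + 1) = 0 by omega, hu, ← MvPolynomial.smul_eq_C_mul]
        congr 1
        exact sh_zero_id _)
  funext j
  by_contra h0
  have h1 := hc j h0
  have h2 := h j (by omega)
  rw [show s - (f.β j + 1) = 0 by omega, BR_zero_deg] at h2
  have h3 : (C (c j) : RR Empty) = 0 := h2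
  have h4 : c j = 0 := (C_injective _ _) (by rw [h3, map_zero])
  exact h0 h4

/-- Spanning. -/
lemma span_fam' {s : ℕ} (hM : ExK f Empty (fun _ => 0) s 0 0) {x : RR Empty} (hx : x ∈ ZR s N) :
    ∃ c : Z → ZMod 2, (∀ j, c j ≠ 0 → f.β j + 1 = s) ∧ x + ∑ j, c j • f.z j ∈ BR s N := by
  obtain ⟨G, hG, hw, c, hc, e⟩ := span_fam f hM hx.1 hx.2.1 hx.2.2
  refine ⟨c, hc, G, hG, hw, ?_⟩
  rw [e, add_add_self2]

/-- Decomposition. -/
lemma decomp' {s : ℕ} {M : ℤ} (hM : ExK f Empty (fun _ => 0) s 0 M) {x : RR Empty}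
    (hx : x ∈ ZR s (N + M)) : ∃ v : Z → RR Empty,
      (∀ j, f.β j + 1 ≤ s → v j ∈ ZR (s - (f.β j + 1)) M) ∧ (∀ j, s < f.β j + 1 → v j = 0) ∧
      x + ∑ j, v j * sh (s - (f.β j + 1)) (f.z j) ∈ BR s (N + M) := by
  obtain ⟨h1, h2, h3⟩ := hx
  rw [add_comm] at h2
  obtain ⟨G, hG, hw, v, hv, e⟩ := decomp f hM h1 h2 h3
  refine ⟨v, fun j hj => ?_, fun j hj => ?_, G, hG, by rw [add_comm]; exact hw, ?_⟩
  · have h4 := hv j
    rw [show s - f.β j = s - (f.β j + 1) + 1 by omega] at h4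
    exact h4
  · have h4 := (hv j).1
    rw [show s - f.β j = 0 by omega] at h4
    exact h4
  · rw [e]
    have : ∀ j, Stab.cup (f.z j) (s - f.β j) (v j) = v j * sh (s - (f.β j + 1)) (f.z j) := by
      intro j
      rw [cup_eq]
      congr 2
    rw [Finset.sum_congr rfl fun j _ => this j, add_add_self2]

end fam

/-- The Kuenneth formula for `N + M`, in terms of cocycles `w l` of degree `(d l, M)`, with
the coefficients of the two operations. -/
structure KF (n : ℕ) (N M : ℤ) {Λ : Type} [Fintype Λ] (d : Λ → ℕ) (w : Λ → RR Empty)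
    (cD cS : Λ → Λ → ZMod 2) : Prop where
  d_pos : ∀ l, 1 ≤ d l
  w_mem : ∀ l, w l ∈ ZR (d l) M
  cD_deg : ∀ l m, cD l m ≠ 0 → d m = d l + 1
  cS_deg : ∀ l m, cS l m ≠ 0 → d m = d l + 2
  dl_w : ∀ l, d l + 1 ≤ n → dl (d l) (w l) + ∑ m, cD l m • w m ^ 2 ∈ BR (d l + 1) (2 * M)
  sg_w : ∀ l, d l + 2 ≤ n → sg (d l) (w l) + ∑ m, cS l m • w m ^ 2 ∈ BR (d l + 2) (2 * M)
  surj : ∀ s ≤ n, ∀ x ∈ ZR s (N + M), ∃ u : Λ → RR Empty,
    (∀ l, d l ≤ s → u l ∈ ZR (s - d l) N) ∧ (∀ l, s < d l → u l = 0) ∧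
    x + ∑ l, w l * sh (d l) (u l) ∈ BR s (N + M)
  inj : ∀ s ≤ n, ∀ u : Λ → RR Empty, (∀ l, d l ≤ s → u l ∈ ZR (s - d l) (2 * N)) →
    (∀ l, s < d l → u l = 0) → ∑ l, w l ^ 2 * sh (d l) (u l) ∈ BR s (2 * N + 2 * M) →
    ∀ l, d l ≤ s → u l ∈ BR (s - d l) (2 * N)

lemma pw_one {Z : Type} {M : ℤ} (f : Fam Z M) (j : Z) : (f.pw 1).z j = f.z j ^ 2 := by
  change f.z j ^ 2 ^ 1 = _
  rw [pow_one]

section exist
variable {Λ Z1 Z2 : Type} [Fintype Λ] [Fintype Z1] [Fintype Z2] {N M : ℤ} {n : ℕ}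

lemma mul_BR_right' {i j s : ℕ} (h : i + j = s) {a b : ℤ} {F G : RR Empty} (hF : F ∈ ZR i a)
    (hG : G ∈ BR j b) : G * sh j F ∈ BR s (a + b) := h ▸ mul_BR_right hF hG

lemma mul_BR_left' {i j s : ℕ} (h : i + j = s) {a b : ℤ} {F G : RR Empty} (hF : F ∈ BR i a)
    (hG : G ∈ ZR j b) : G * sh j F ∈ BR s (a + b) := h ▸ mul_BR_left hF hG

lemma mul_ZR' {i j s : ℕ} (h : i + j = s) {a b : ℤ} {F G : RR Empty} (hF : F ∈ ZR i a)
    (hG : G ∈ ZR j b) : G * sh j F ∈ ZR s (a + b) := h ▸ mul_ZR hF hG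

lemma surj_of (f : Fam Λ M) (g : Fam Z1 N) (hf : ∀ p ≤ n, ExK f Empty (fun _ => 0) p 0 0)
    (hg : ∀ p ≤ n, ExK g Empty (fun _ => 0) p 0 M) (s : ℕ) (hs : s ≤ n) (x : RR Empty)
    (hx : x ∈ ZR s (N + M)) : ∃ u : Λ → RR Empty,
    (∀ l, f.β l + 1 ≤ s → u l ∈ ZR (s - (f.β l + 1)) N) ∧ (∀ l, s < f.β l + 1 → u l = 0) ∧
    x + ∑ l, f.z l * sh (f.β l + 1) (u l) ∈ BR s (N + M) := by
  classical
  obtain ⟨v, hv, hv0, e⟩ := decomp' g (hg s hs) hx
  have key : ∀ j, ∃ c : Λ → ZMod 2, (∀ l, c l ≠ 0 → g.β j + 1 + (f.β l + 1) = s) ∧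
      (g.β j + 1 ≤ s → v j + ∑ l, c l • f.z l ∈ BR (s - (g.β j + 1)) M) ∧
      (s < g.β j + 1 → ∀ l, c l = 0) := by
    intro j
    by_cases h : g.β j + 1 ≤ s
    · obtain ⟨c, hc, hc'⟩ := span_fam' f (hf (s - (g.β j + 1)) (by omega)) (hv j h)
      exact ⟨c, fun l hl => by have := hc l hl; omega, fun _ => hc', fun h' => by omega⟩
    · exact ⟨fun _ => 0, fun l hl => absurd rfl hl, fun h' => absurd h' h, fun _ _ => rfl⟩
  choose c hc hc' hc0 using key
  refine ⟨fun l => ∑ j, c j l • g.z j, fun l hl => ?_, fun l hl => ?_, ?_⟩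
  · refine Submodule.sum_mem _ fun j _ => ?_
    by_cases h : c j l = 0
    · rw [h, zero_smul]
      exact Submodule.zero_mem _
    · refine Submodule.smul_mem _ _ ?_
      have h1 := hc j l h
      rw [show s - (f.β l + 1) = g.β j + 1 by omega]
      exact fam_ZR g j
  · refine Finset.sum_eq_zero fun j _ => ?_
    by_cases h : c j l = 0
    · rw [h, zero_smul]
    · have h1 := hc j l h
      omega
  · have e1 : ∑ l, f.z l * sh (f.β l + 1) (∑ j, c j l • g.z j) =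
        ∑ j, (∑ l, c j l • f.z l) * sh (s - (g.β j + 1)) (g.z j) := by
      have e2 : ∀ l, f.z l * sh (f.β l + 1) (∑ j, c j l • g.z j) =
          ∑ j, (c j l • f.z l) * sh (s - (g.β j + 1)) (g.z j) := by
        intro l
        rw [map_sum, Finset.mul_sum]
        refine Finset.sum_congr rfl fun j _ => ?_
        by_cases h : c j l = 0
        · rw [h, zero_smul, map_zero, mul_zero, zero_smul, zero_mul]
        · have h1 := hc j l h
          rw [show s - (g.β j + 1) = f.β l + 1 by omega, map_smul, mul_smul_comm, smul_mul_assoc]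
      rw [Finset.sum_congr rfl fun l _ => e2 l, Finset.sum_comm]
      refine Finset.sum_congr rfl fun j _ => ?_
      rw [Finset.sum_mul]
    have e3 : x + ∑ l, f.z l * sh (f.β l + 1) (∑ j, c j l • g.z j) =
        (x + ∑ j, v j * sh (s - (g.β j + 1)) (g.z j)) +
        ∑ j, (v j + ∑ l, c j l • f.z l) * sh (s - (g.β j + 1)) (g.z j) := by
      rw [e1]
      simp only [add_mul, Finset.sum_add_distrib]
      have := add_self2 (∑ j, v j * sh (s - (g.β j + 1)) (g.z j))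
      calc _ = x + (∑ j, v j * sh (s - (g.β j + 1)) (g.z j) +
            ∑ j, v j * sh (s - (g.β j + 1)) (g.z j)) +
            ∑ j, (∑ l, c j l • f.z l) * sh (s - (g.β j + 1)) (g.z j) := by rw [this, add_zero]
        _ = _ := by abel
    rw [e3]
    refine Submodule.add_mem _ e (Submodule.sum_mem _ fun j _ => ?_)
    by_cases h : g.β j + 1 ≤ s
    · exact mul_BR_right' (by omega) (fam_ZR g j) (hc' j h)
    · have h0 : ∑ l, c j l • f.z l = 0 := Finset.sum_eq_zero fun l _ => by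
        rw [hc0 j (by omega) l, zero_smul]
      rw [hv0 j (by omega), h0, add_zero, zero_mul]
      exact Submodule.zero_mem _

lemma inj_of (f : Fam Λ M) (g : Fam Z2 (2 * N))
    (hf : ∀ p ≤ n, ExK (f.pw 1) Empty (fun _ => 0) p 0 0)
    (hg0 : ∀ p ≤ n, ExK g Empty (fun _ => 0) p 0 0)
    (hg : ∀ p ≤ n, ExK g Empty (fun _ => 0) p 0 (2 * M)) (s : ℕ) (hs : s ≤ n)
    (u : Λ → RR Empty) (hu : ∀ l, f.β l + 1 ≤ s → u l ∈ ZR (s - (f.β l + 1)) (2 * N))
    (hu0 : ∀ l, s < f.β l + 1 → u l = 0)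
    (hB : ∑ l, f.z l ^ 2 * sh (f.β l + 1) (u l) ∈ BR s (2 * N + 2 * M)) :
    ∀ l, f.β l + 1 ≤ s → u l ∈ BR (s - (f.β l + 1)) (2 * N) := by
  classical
  have key : ∀ l, ∃ a : Z2 → ZMod 2, (∀ j, a j ≠ 0 → g.β j + 1 + (f.β l + 1) = s) ∧
      (f.β l + 1 ≤ s → u l + ∑ j, a j • g.z j ∈ BR (s - (f.β l + 1)) (2 * N)) ∧
      (s < f.β l + 1 → ∀ j, a j = 0) := by
    intro l
    by_cases h : f.β l + 1 ≤ s
    · obtain ⟨c, hc, hc'⟩ := span_fam' g (hg0 (s - (f.β l + 1)) (by omega)) (hu l h)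
      exact ⟨c, fun l hl => by have := hc l hl; omega, fun _ => hc', fun h' => by omega⟩
    · exact ⟨fun _ => 0, fun l hl => absurd rfl hl, fun h' => absurd h' h, fun _ _ => rfl⟩
  choose a ha ha' ha0 using key
  have hsq : ∀ l, f.z l ^ 2 ∈ ZR (f.β l + 1) (2 * M) := fun l => sq_ZR (fam_ZR f l)
  have e1 : ∑ l, f.z l ^ 2 * sh (f.β l + 1) (∑ j, a l j • g.z j) ∈ BR s (2 * N + 2 * M) := by
    have e2 : ∑ l, f.z l ^ 2 * sh (f.β l + 1) (∑ j, a l j • g.z j) =
        ∑ l, f.z l ^ 2 * sh (f.β l + 1) (u l) +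
        ∑ l, f.z l ^ 2 * sh (f.β l + 1) (u l + ∑ j, a l j • g.z j) := by
      rw [← Finset.sum_add_distrib]
      refine Finset.sum_congr rfl fun l _ => ?_
      rw [map_add, mul_add, ← add_assoc, add_self2, zero_add]
    rw [e2]
    refine Submodule.add_mem _ hB (Submodule.sum_mem _ fun l _ => ?_)
    by_cases h : f.β l + 1 ≤ s
    · exact mul_BR_left' (by omega) (ha' l h) (hsq l)
    · have h0 : ∑ j, a l j • g.z j = 0 := Finset.sum_eq_zero fun j _ => by
        rw [ha0 l (by omega) j, zero_smul]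
      rw [hu0 l (by omega), h0, add_zero, map_zero, mul_zero]
      exact Submodule.zero_mem _
  have e3 : ∑ l, f.z l ^ 2 * sh (f.β l + 1) (∑ j, a l j • g.z j) =
      ∑ j, (∑ l, a l j • f.z l ^ 2) * sh (s - (g.β j + 1)) (g.z j) := by
    have e2 : ∀ l, f.z l ^ 2 * sh (f.β l + 1) (∑ j, a l j • g.z j) =
        ∑ j, (a l j • f.z l ^ 2) * sh (s - (g.β j + 1)) (g.z j) := by
      intro l
      rw [map_sum, Finset.mul_sum]
      refine Finset.sum_congr rfl fun j _ => ?_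
      by_cases h : a l j = 0
      · rw [h, zero_smul, map_zero, mul_zero, zero_smul, zero_mul]
      · have h1 := ha l j h
        rw [show s - (g.β j + 1) = f.β l + 1 by omega, map_smul, mul_smul_comm, smul_mul_assoc]
    rw [Finset.sum_congr rfl fun l _ => e2 l, Finset.sum_comm]
    refine Finset.sum_congr rfl fun j _ => ?_
    rw [Finset.sum_mul]
  rw [e3] at e1
  have h2 := inj_fam g (s := s) (fun p hp => hg p (by omega)) (fun j => ∑ l, a l j • f.z l ^ 2)
    (fun j hj => Submodule.sum_mem _ fun l _ => by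
      by_cases h : a l j = 0
      · rw [h, zero_smul]
        exact Submodule.zero_mem _
      · refine Submodule.smul_mem _ _ ?_
        have h1 := ha l j h
        rw [show s - (g.β j + 1) = f.β l + 1 by omega]
        exact hsq l) (fun j hj => Finset.sum_eq_zero fun l _ => by
      by_cases h : a l j = 0
      · rw [h, zero_smul]
      · have h1 := ha l j h
        omega) e1
  have h3 : ∀ l j, a l j = 0 := by
    intro l j
    by_cases hj : g.β j + 1 ≤ s
    · have h4 := indep_fam (f.pw 1) (s := s - (g.β j + 1)) (fun p hp => hf p (by omega))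
        (fun l => a l j) (fun l hl => by
          have := ha l j hl
          change f.β l + 1 = _
          omega) (by
          have h5 := h2 j hj
          rw [Finset.sum_congr rfl fun l _ => by rw [pw_one], pow_one]
          exact h5)
      exact congrFun h4 l
    · by_contra h
      have := ha l j h
      omega
  intro l hl
  have h4 := ha' l hl
  have h5 : ∑ j, a l j • g.z j = 0 := Finset.sum_eq_zero fun j _ => by rw [h3, zero_smul]
  rw [h5, add_zero] at h4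
  exact h4

end exist

end

end Pool.Agent.Work.MP_701abf_gt.Sq2
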