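import Pool.Agent.Work.MP_701abf_gt.Sq2.Op

/-!
Existence of the data of the Kuenneth formula.
-/

open MvPolynomial
open Pool.Agent.Work.MP_701abf_gt.Stab Pool.Agent.Work.MP_701abf_gt.Cob

namespace Pool.Agent.Work.MP_701abf_gt.Sq2

noncomputable section

/-- The data of a power of two. -/
def Sg {Λ : Type} [Fintype Λ] (d : Λ → ℕ) (cD : Λ → Λ → ZMod 2) : Prop :=
  ∃ l0 m0, d l0 = 1 ∧ (∀ l, d l = 1 → l = l0) ∧ cD l0 m0 = 1 ∧
    ∀ ν, ∑ m, cD l0 m * cD m ν = 0

variable {Λ : Type} [Fintype Λ] {N M : ℤ} {n : ℕ}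

lemma indep0 (f : Fam Λ M) {s : ℕ} (hf : ∀ p ≤ s, ExK f Empty (fun _ => 0) p 0 0)
    (c : Λ → ZMod 2) (hc : ∀ l, c l ≠ 0 → f.β l + 1 = s) (e : ∑ l, c l • f.z l ∈ BR s M) :
    ∀ l, c l = 0 := fun l => congrFun (indep_fam f hf c hc e) l

lemma indep1 (f : Fam Λ M) {s : ℕ} (hf : ∀ p ≤ s, ExK (f.pw 1) Empty (fun _ => 0) p 0 0)
    (c : Λ → ZMod 2) (hc : ∀ l, c l ≠ 0 → f.β l + 1 = s)
    (e : ∑ l, c l • f.z l ^ 2 ∈ BR s (2 * M)) : ∀ l, c l = 0 := by
  have h := indep_fam (f.pw 1) hf c hc (by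
    rw [Finset.sum_congr rfl fun l _ => by rw [pw_one], pow_one]
    exact e)
  exact fun l => congrFun h l

lemma indep2 (f : Fam Λ M) {s : ℕ} (hf : ∀ p ≤ s, ExK (f.pw 2) Empty (fun _ => 0) p 0 0)
    (c : Λ → ZMod 2) (hc : ∀ l, c l ≠ 0 → f.β l + 1 = s)
    (e : ∑ l, c l • (f.z l ^ 2) ^ 2 ∈ BR s (2 * (2 * M))) : ∀ l, c l = 0 := by
  have h := indep_fam (f.pw 2) hf c hc (by
    have e1 : ∀ l, (f.pw 2).z l = (f.z l ^ 2) ^ 2 := by
      intro l
      change f.z l ^ 2 ^ 2 = _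
      rw [← pow_mul]
      norm_num
    have e2 : (2 : ℤ) ^ 2 * M = 2 * (2 * M) := by ring
    rw [Finset.sum_congr rfl fun l _ => by rw [e1 l], e2]
    exact e)
  exact fun l => congrFun h l

lemma span1 (f : Fam Λ M) {s : ℕ} (hf : ExK (f.pw 1) Empty (fun _ => 0) s 0 0)
    {x : RR Empty} (hx : x ∈ ZR s (2 * M)) : ∃ c : Λ → ZMod 2,
    (∀ l, c l ≠ 0 → f.β l + 1 = s) ∧ x + ∑ l, c l • f.z l ^ 2 ∈ BR s (2 * M) := by
  obtain ⟨c, hc, e⟩ := span_fam' (f.pw 1) hf (by rw [pow_one]; exact hx)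
  refine ⟨c, hc, ?_⟩
  rw [Finset.sum_congr rfl fun l _ => by rw [pw_one], pow_one] at e
  exact e

/-- The data from the families. -/
theorem exists_KF_of {Z1 Z2 : Type} [Fintype Z1] [Fintype Z2] (f : Fam Λ M) (g1 : Fam Z1 N)
    (g2 : Fam Z2 (2 * N)) (hM : 0 < M) (hn : 4 ≤ n)
    (hf : ∀ r, ∀ p ≤ n, ExK (f.pw r) Empty (fun _ => 0) p 0 0)
    (hf0 : ∀ p ≤ n, ExK f Empty (fun _ => 0) p 0 0)
    (hg : ∀ p ≤ n, ExK g1 Empty (fun _ => 0) p 0 M)
    (hg0 : ∀ p ≤ n, ExK g2 Empty (fun _ => 0) p 0 0)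
    (hg2 : ∀ p ≤ n, ExK g2 Empty (fun _ => 0) p 0 (2 * M)) :
    ∃ (d : Λ → ℕ) (w : Λ → RR Empty) (cD cS : Λ → Λ → ZMod 2), KF n N M d w cD cS ∧
      ((∃ b : ℕ, M = 2 ^ b) → Sg d cD) ∧ ((¬ ∃ b : ℕ, M = 2 ^ b) → ∀ l, d l ≠ 1) := by
  classical
  have hD : ∀ l, ∃ c : Λ → ZMod 2, (∀ m, c m ≠ 0 → f.β m + 1 = f.β l + 1 + 1) ∧
      (f.β l + 1 + 1 ≤ n → dl (f.β l + 1) (f.z l) + ∑ m, c m • f.z m ^ 2 ∈
        BR (f.β l + 1 + 1) (2 * M)) := by
    intro l
    by_cases h : f.β l + 1 + 1 ≤ n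
    · obtain ⟨c, hc, e⟩ := span1 f (hf 1 _ h) (dl_ZR (fam_ZR f l))
      exact ⟨c, hc, fun _ => e⟩
    · exact ⟨fun _ => 0, fun m hm => absurd rfl hm, fun h' => absurd h' h⟩
  have hS : ∀ l, ∃ c : Λ → ZMod 2, (∀ m, c m ≠ 0 → f.β m + 1 = f.β l + 1 + 2) ∧
      (f.β l + 1 + 2 ≤ n → sg (f.β l + 1) (f.z l) + ∑ m, c m • f.z m ^ 2 ∈
        BR (f.β l + 1 + 2) (2 * M)) := by
    intro l
    by_cases h : f.β l + 1 + 2 ≤ n
    · obtain ⟨c, hc, e⟩ := span1 f (hf 1 _ h) (sg_ZR (fam_ZR f l))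
      exact ⟨c, hc, fun _ => e⟩
    · exact ⟨fun _ => 0, fun m hm => absurd rfl hm, fun h' => absurd h' h⟩
  choose cD hcD hcD' using hD
  choose cS hcS hcS' using hS
  have hne : ∀ l, f.β l + 1 ≤ n → f.z l ≠ 0 := by
    intro l hl h0
    have h1 := indep0 f (s := f.β l + 1) (fun p hp => hf0 p (by omega))
      (fun m => if m = l then 1 else 0) (fun m hm => by
        by_cases h : m = l
        · rw [h]
        · exact absurd (if_neg h) hm) (by
        have : ∑ m, (if m = l then (1 : ZMod 2) else 0) • f.z m = 0 := by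
          refine Finset.sum_eq_zero fun m _ => ?_
          by_cases h : m = l
          · rw [h, h0, smul_zero]
          · rw [if_neg h, zero_smul]
        rw [this]
        exact Submodule.zero_mem _) l
    rw [if_pos rfl] at h1
    exact one_ne_zero h1
  refine ⟨fun l => f.β l + 1, f.z, cD, cS, ⟨fun l => by omega, fam_ZR f, hcD, hcS, hcD', hcS',
    surj_of f g1 hf0 hg, inj_of f g2 (hf 1) hg0 hg2⟩, ?_, ?_⟩
  · rintro ⟨b, rfl⟩
    -- the members of index one
    have h1 : ∀ l, f.β l + 1 = 1 → f.z l = ha b := by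
      intro l hl
      have h2 := fam_ZR f l
      rw [hl] at h2
      exact (ZR_one h2).resolve_left (hne l (by omega))
    obtain ⟨c, hc, e⟩ := span_fam' f (hf0 1 (by omega)) (ha_ZR b)
    have h2 : ∃ l0, c l0 ≠ 0 := by
      by_contra h
      push Not at h
      rw [Finset.sum_eq_zero fun l _ => by rw [h l, zero_smul], add_zero] at e
      exact ha_ne b (BR_one (by positivity) e)
    obtain ⟨l0, hl0⟩ := h2
    have hd0 := hc l0 hl0
    have h3 : ∀ l, f.β l + 1 = 1 → l = l0 := by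
      intro l hl
      by_contra hne'
      have h4 := indep0 f (s := 1) (fun p hp => hf0 p (by omega))
        (fun m => if m = l ∨ m = l0 then 1 else 0) (fun m hm => by
          by_cases h : m = l ∨ m = l0
          · rcases h with rfl | rfl
            · exact hl
            · exact hd0
          · exact absurd (if_neg h) hm) (by
          have : ∑ m, (if m = l ∨ m = l0 then (1 : ZMod 2) else 0) • f.z m = 0 := by
            have e1 : ∀ m, (if m = l ∨ m = l0 then (1 : ZMod 2) else 0) • f.z m =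
                (if m = l then ha b else 0) + (if m = l0 then ha b else 0) := by
              intro m
              by_cases h5 : m = l
              · subst h5
                rw [if_pos (Or.inl rfl), if_pos rfl, if_neg hne', add_zero, one_smul, h1 m hl]
              · by_cases h6 : m = l0
                · subst h6
                  rw [if_pos (Or.inr rfl), if_neg h5, if_pos rfl, zero_add, one_smul, h1 m hd0]
                · rw [if_neg (by tauto), if_neg h5, if_neg h6, zero_smul, add_zero]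
            rw [Finset.sum_congr rfl fun m _ => e1 m, Finset.sum_add_distrib,
              Finset.sum_ite_eq', Finset.sum_ite_eq', if_pos (Finset.mem_univ _),
              if_pos (Finset.mem_univ _), add_self2]
          rw [this]
          exact Submodule.zero_mem _) l
      rw [if_pos (Or.inl rfl)] at h4
      exact one_ne_zero h4
    have hz0 := h1 l0 hd0
    have hdl := hcD' l0 (by omega)
    rw [hd0, hz0] at hdl
    have h5 : ∃ m0, cD l0 m0 ≠ 0 := by
      by_contra h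
      push Not at h
      rw [Finset.sum_eq_zero fun l _ => by rw [h l, zero_smul], add_zero] at hdl
      exact dl_ha b hdl
    obtain ⟨m0, hm0⟩ := h5
    refine ⟨l0, m0, hd0, h3, ?_, ?_⟩
    · have : ∀ c : ZMod 2, c ≠ 0 → c = 1 := by decide
      exact this _ hm0
    · -- the square of the operation of degree one vanishes on the class
      have h6 := (dlOp 2 (2 * 2 ^ b)).congr (dl_ZR (ha_ZR b)) hdl
      have h7 := dl_dl_ha b
      have h8 : dl 2 (∑ m, cD l0 m • f.z m ^ 2) ∈ BR 3 (2 * (2 * 2 ^ b)) := by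
        have := Submodule.add_mem _ h6 h7
        rwa [add_right_comm, add_self2, zero_add] at this
      have hmem : ∀ m ∈ Finset.univ, cD l0 m • f.z m ^ 2 ∈ ZR 2 (2 * 2 ^ b) := by
        intro m _
        by_cases h : cD l0 m = 0
        · rw [h, zero_smul]
          exact Submodule.zero_mem _
        · have h9 := hcD l0 m h
          have h10 := sq_ZR (fam_ZR f m)
          rw [show f.β m + 1 = 2 by omega] at h10
          exact Submodule.smul_mem _ _ h10
      have h9 := (dlOp 2 (2 * 2 ^ b)).sum Finset.univ _ hmem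
      have h10 : ∑ m, dl 2 (cD l0 m • f.z m ^ 2) ∈ BR 3 (2 * (2 * 2 ^ b)) := by
        have := Submodule.add_mem _ h9 h8
        rwa [add_right_comm, add_self2, zero_add] at this
      have h11 : ∑ m, cD l0 m • (∑ ν, cD m ν • f.z ν ^ 2) ^ 2 ∈ BR 3 (2 * (2 * 2 ^ b)) := by
        have e1 : ∑ m, cD l0 m • (∑ ν, cD m ν • f.z ν ^ 2) ^ 2 =
            ∑ m, dl 2 (cD l0 m • f.z m ^ 2) +
            ∑ m, cD l0 m • (dl 2 (f.z m) + ∑ ν, cD m ν • f.z ν ^ 2) ^ 2 := by
          rw [← Finset.sum_add_distrib]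
          refine Finset.sum_congr rfl fun m _ => ?_
          rw [(dlOp 2 (2 * 2 ^ b)).smul, dl_sq, sq_add, smul_add, ← add_assoc, add_self2,
            zero_add]
        rw [e1]
        refine Submodule.add_mem _ h10 (Submodule.sum_mem _ fun m _ => ?_)
        by_cases h : cD l0 m = 0
        · rw [h, zero_smul]
          exact Submodule.zero_mem _
        · have h12 := hcD l0 m h
          have h13 := hcD' m (by omega)
          rw [show f.β m + 1 = 2 by omega] at h13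
          exact Submodule.smul_mem _ _ (sq_BR h13)
      have h12 : ∑ ν, (∑ m, cD l0 m * cD m ν) • (f.z ν ^ 2) ^ 2 ∈ BR 3 (2 * (2 * 2 ^ b)) := by
        have e1 : ∑ ν, (∑ m, cD l0 m * cD m ν) • (f.z ν ^ 2) ^ 2 =
            ∑ m, cD l0 m • (∑ ν, cD m ν • f.z ν ^ 2) ^ 2 := by
          have e2 : ∀ m, cD l0 m • (∑ ν, cD m ν • f.z ν ^ 2) ^ 2 =
              ∑ ν, (cD l0 m * cD m ν) • (f.z ν ^ 2) ^ 2 := by
            intro m
            rw [sum_sq, Finset.smul_sum]
            refine Finset.sum_congr rfl fun ν _ => ?_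
            rw [smul_sq, smul_smul]
          rw [Finset.sum_congr rfl fun m _ => e2 m, Finset.sum_comm]
          refine Finset.sum_congr rfl fun ν _ => ?_
          rw [Finset.sum_smul]
        rw [e1]
        exact h11
      refine indep2 f (s := 3) (fun p hp => hf 2 p (by omega)) _ (fun ν hν => ?_) h12
      obtain ⟨m, -, hm⟩ := Finset.exists_ne_zero_of_sum_ne_zero hν
      have h13 := hcD l0 m (left_ne_zero_of_mul hm)
      have h14 := hcD m ν (right_ne_zero_of_mul hm)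
      omega
  · intro h2 l hl
    have h3 := fam_ZR f l
    have hl' : f.β l + 1 = 1 := hl
    rw [hl'] at h3
    exact hne l (by omega) (ZR_one' hM h2 h3)

/-- Existence. -/
theorem exists_KF (n : ℕ) (hn : 4 ≤ n) : ∃ J L : ℕ, ∀ (a : ℕ) (N M : ℤ), 0 < M → M < 2 ^ a →
    (2 : ℤ) ^ J ∣ M → 0 < N → (2 : ℤ) ^ (a + L) ∣ N →
    ∃ (Λ : Type) (_ : Fintype Λ) (d : Λ → ℕ) (w : Λ → RR Empty) (cD cS : Λ → Λ → ZMod 2),
      KF n N M d w cD cS ∧
      ((∃ b : ℕ, M = 2 ^ b) → Sg d cD) ∧ ((¬ ∃ b : ℕ, M = 2 ^ b) → ∀ l, d l ≠ 1) := by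
  obtain ⟨L, hL⟩ := kunnethE n
  obtain ⟨J, hJ⟩ := base_tower n
  refine ⟨J, L, fun a N M hM0 hMa hMJ hN hd => ?_⟩
  obtain ⟨Z1, i1, g1, -, h1⟩ := hL a M N hM0.le hMa hN hd
  obtain ⟨Z2, i2, g2, h2, h3⟩ := hL (a + 1) (2 * M) (2 * N) (by omega)
    (by rw [pow_succ]; omega) (by omega) (by
      rw [show a + 1 + L = (a + L) + 1 by ring, pow_succ, mul_comm]
      exact mul_dvd_mul_left 2 hd)
  obtain ⟨Z, i, f, hf⟩ := good_fam n (N := M) hM0.ne'
  have hf0 : ∀ p' ≤ n, ExK (f.pw 0) Empty (fun _ => 0) p' 0 0 := by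
    intro p' hp'
    have h1 := hf p' hp'
    have h2 : ∀ (N' : ℤ) (f' : Fam Z N'), M = N' → f'.β = f.β → f'.z = f.z →
        ExK f' Empty (fun _ => 0) p' 0 0 := by
      intro N' f' e1 e2 e3
      subst e1
      obtain ⟨β', z', a, b, c⟩ := f'
      simp only at e2 e3
      subst e2
      subst e3
      exact h1
    refine h2 _ (f.pw 0) (by rw [pow_zero, one_mul]) rfl ?_
    funext j
    change f.z j ^ 2 ^ 0 = f.z j
    rw [pow_zero, pow_one]
  have hT := hJ Z M f hMJ hf0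
  obtain ⟨d, w, cD, cS, h⟩ := exists_KF_of f g1 g2 hM0 hn (fun r p hp => hT p hp r) hf h1 h2 h3
  exact ⟨Z, i, d, w, cD, cS, h⟩

end

end Pool.Agent.Work.MP_701abf_gt.Sq2
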