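import Pool.Agent.Work.MP_701abf_gt.Sq2.StepTw
import Pool.Agent.Work.MP_701abf_gt.Sq2.KFex

/-!
Chains of clusters, and the properties of the two operations along chains.
-/

open MvPolynomial
open Pool.Agent.Work.MP_701abf_gt.Stab Pool.Agent.Work.MP_701abf_gt.Cob

namespace Pool.Agent.Work.MP_701abf_gt.Sq2

/-- `t` is a chain of `c` powers of two and `m` numbers which are not powers of two. -/
inductive Ch (L : ℕ) : ℕ → ℕ → ℕ → Prop
  | sg (a : ℕ) : Ch L 1 0 (2 ^ a)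
  | cl (t : ℕ) (h0 : 0 < t) (h : ¬ ∃ b : ℕ, t = 2 ^ b) : Ch L 0 1 t
  | addsg {c m t : ℕ} (a : ℕ) (h : Ch L c m t) (hd : 2 ^ (a + 1 + L) ∣ t) :
      Ch L (c + 1) m (t + 2 ^ a)
  | addcl {c m t : ℕ} (a M : ℕ) (h : Ch L c m t) (h0 : 0 < M) (hM : M < 2 ^ a)
      (h2 : ¬ ∃ b : ℕ, M = 2 ^ b) (hd : 2 ^ (a + L) ∣ t) : Ch L c (m + 1) (t + M)

lemma Ch.pos {L c m t : ℕ} (h : Ch L c m t) : 0 < t := by
  induction h with
  | sg a => positivity
  | cl t h0 h => exact h0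
  | addsg a _ _ ih => exact Nat.add_pos_left ih _
  | addcl a M _ _ _ _ _ ih => omega

lemma not_pow_double {t : ℕ} (h : ¬ ∃ b : ℕ, t = 2 ^ b) : ¬ ∃ b : ℕ, 2 * t = 2 ^ b := by
  rintro ⟨b, hb⟩
  rcases b with _ | b
  · rw [pow_zero] at hb
    omega
  · rw [pow_succ, mul_comm] at hb
    exact h ⟨b, by omega⟩

lemma Ch.double {L c m t : ℕ} (h : Ch L c m t) : Ch L c m (2 * t) := by
  induction h with
  | sg a =>
    have := Ch.sg (L := L) (a + 1)
    rw [pow_succ, mul_comm] at this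
    exact this
  | cl t h0 h => exact Ch.cl _ (by omega) (not_pow_double h)
  | @addsg c m t a _ hd ih =>
    have h1 : 2 ^ (a + 1 + 1 + L) ∣ 2 * t := by
      rw [show a + 1 + 1 + L = (a + 1 + L) + 1 by ring, pow_succ, mul_comm]
      exact Nat.mul_dvd_mul_left 2 hd
    have := Ch.addsg (a + 1) ih h1
    rw [show 2 * t + 2 ^ (a + 1) = 2 * (t + 2 ^ a) by rw [pow_succ]; ring] at this
    exact this
  | @addcl c m t a M _ h0 hM h2 hd ih =>
    have h1 : 2 ^ (a + 1 + L) ∣ 2 * t := by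
      rw [show a + 1 + L = (a + L) + 1 by ring, pow_succ, mul_comm]
      exact Nat.mul_dvd_mul_left 2 hd
    have := Ch.addcl (a + 1) (2 * M) ih (by omega) (by rw [pow_succ]; omega)
      (not_pow_double h2) h1
    rw [show 2 * t + 2 * M = 2 * (t + M) by ring] at this
    exact this

lemma Ch.concat {L c m c' m' a N M : ℕ} (hN : Ch L c m N) (hM : Ch L c' m' M) (h1 : M < 2 ^ a)
    (h2 : 2 ^ (a + L) ∣ N) : Ch L (c + c') (m + m') (N + M) := by
  induction hM with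
  | sg b =>
    have h3 : b < a := (Nat.pow_lt_pow_iff_right (by norm_num)).1 h1
    exact Ch.addsg b hN ((pow_dvd_pow 2 (by omega)).trans h2)
  | cl t h0 h => exact Ch.addcl a t hN h0 h1 h h2
  | @addsg c' m' t b _ hd ih =>
    have h3 := ih (lt_of_le_of_lt (Nat.le_add_right _ _) h1)
    have h4 : b < a := (Nat.pow_lt_pow_iff_right (a := 2) (by norm_num)).1
      (lt_of_le_of_lt (Nat.le_add_left _ _) h1)
    have := Ch.addsg b h3 (Dvd.dvd.add ((pow_dvd_pow 2 (by omega)).trans h2) hd)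
    rw [add_assoc N t (2 ^ b)] at this
    exact this
  | @addcl c' m' t b M' h h0 hM h2' hd ih =>
    have h3 := ih (lt_of_le_of_lt (Nat.le_add_right _ _) h1)
    have h4 : b + L < a := by
      have h5 := Nat.le_of_dvd h.pos hd
      exact (Nat.pow_lt_pow_iff_right (a := 2) (by norm_num)).1
        (lt_of_le_of_lt h5 (lt_of_le_of_lt (Nat.le_add_right _ _) h1))
    have := Ch.addcl b M' h3 h0 hM h2' (Dvd.dvd.add ((pow_dvd_pow 2 (by omega)).trans h2) hd)
    rw [add_assoc N t M'] at this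
    exact this

/-- The properties. -/
structure PP (ι c m : ℕ) (t : ℤ) : Prop where
  v0 : V0 ι t
  a0 : 1 ≤ c → A0 ι t
  c0 : 2 ≤ c → C0 ι t
  x1 : 2 ≤ c → X1 ι t
  d1 : 3 ≤ c → D1 ι t
  b1 : 3 ≤ c → B1 ι t
  c1 : 4 ≤ c → C1 ι t
  x2 : m = 0 → 3 ≤ c → X2e ι t
  b2 : m = 0 → 5 ≤ c → B2 ι t

lemma V0_one {t : ℤ} (ht : t ≠ 0) : V0 1 t := by
  intro k hk F hF
  obtain rfl : k = 0 := by omega
  have h1 := lev_one hF.1 hF.2.1 ht
  rw [h1]
  exact Submodule.zero_mem _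

lemma A0_pow (a : ℕ) : A0 1 (2 ^ a) := by
  intro u hu h
  rcases ZR_one hu with h1 | h1
  · rw [h1]
    exact Submodule.zero_mem _
  · rw [h1] at h
    exact absurd h (dl_ha a)

lemma exists_Gi (n : ℕ) : ∃ J : ℕ, ∀ N : ℤ, (2 : ℤ) ^ J ∣ N → Gi n N := by
  obtain ⟨J, hJ⟩ := Ev.lt (n + 1) (P := fun p N => Surj0 p N ∧ Inj0 p N)
    fun p _ => stability p
  refine ⟨J, fun N hN k hk u hu h => ?_⟩
  obtain ⟨G, hG, hGw, e⟩ := h
  obtain ⟨z, hz, hzw, ez⟩ := (hJ N hN k (by omega)).2 u hu.1 hu.2.1 G hG hGw e.symm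
  exact ⟨z, hz, hzw, ez⟩

lemma V0_two {t : ℤ} (ht : 0 < t) (h2 : ¬ ∃ b : ℕ, t = 2 ^ b) : V0 2 t := by
  intro k hk F hF
  rcases Nat.lt_succ_iff_lt_or_eq.1 hk with h | h
  · exact V0_one ht.ne' k h hF
  · subst h
    rw [ZR_one' ht h2 hF]
    exact Submodule.zero_mem _

lemma not_pow_mul {b M : ℕ} (h2 : ¬ ∃ b : ℕ, M = 2 ^ b) :
    ¬ ∃ b' : ℕ, ((2 ^ b * M : ℕ) : ℤ) = 2 ^ b' := by
  rintro ⟨b', hb'⟩
  have h3 : 2 ^ b * M = 2 ^ b' := by exact_mod_cast hb'
  have h4 : M ∣ 2 ^ b' := ⟨2 ^ b, by rw [← h3, mul_comm]⟩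
  obtain ⟨k, -, hk⟩ := (Nat.dvd_prime_pow Nat.prime_two).1 h4
  exact h2 ⟨k, hk⟩

/-- The properties along chains. -/
theorem chain (n : ℕ) (hn : 4 ≤ n) : ∃ J L : ℕ, ∀ b : ℕ, J ≤ b → ∀ c m t : ℕ, Ch L c m t →
    c + 2 * m + 5 ≤ n → PP (c + 2 * m) c m ((2 ^ b * t : ℕ) : ℤ) := by
  obtain ⟨J1, L, hK⟩ := exists_KF n hn
  obtain ⟨J2, hG⟩ := exists_Gi n
  refine ⟨J1 + J2, L, fun b hb c m t h => ?_⟩
  have hdvd : ∀ x : ℕ, (2 : ℤ) ^ J1 ∣ ((2 ^ b * x : ℕ) : ℤ) := by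
    intro x
    have : 2 ^ J1 ∣ 2 ^ b * x := Dvd.dvd.mul_right (pow_dvd_pow 2 (by omega)) x
    exact_mod_cast this
  have hdvd2 : ∀ x : ℕ, (2 : ℤ) ^ J2 ∣ ((2 ^ b * x : ℕ) : ℤ) := by
    intro x
    have : 2 ^ J2 ∣ 2 ^ b * x := Dvd.dvd.mul_right (pow_dvd_pow 2 (by omega)) x
    exact_mod_cast this
  induction h with
  | sg a =>
    intro _
    have e : ((2 ^ b * 2 ^ a : ℕ) : ℤ) = 2 ^ (b + a) := by push_cast; rw [pow_add]
    rw [e]
    have h0 : (2 : ℤ) ^ (b + a) ≠ 0 := by positivity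
    exact ⟨V0_one h0, fun _ => A0_pow _, fun h => by omega, fun h => by omega,
      fun h => by omega, fun h => by omega, fun h => by omega, fun _ h => by omega,
      fun _ h => by omega⟩
  | cl t h0 h =>
    intro _
    have h0 : (0 : ℤ) < ((2 ^ b * t : ℕ) : ℤ) := by positivity
    exact ⟨V0_two h0 (not_pow_mul h), fun h => by omega, fun h => by omega, fun h => by omega,
      fun h => by omega, fun h => by omega, fun h => by omega, fun h => by omega,
      fun h => by omega⟩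
  | @addsg c m t a h hd ih =>
    intro hκ
    have I := ih (by omega)
    have ht := h.pos
    have hG' := hG _ (hdvd2 t)
    obtain ⟨Λ, i1, d, w, cD, cS, K, hsg, -⟩ := hK (a + b + 1) ((2 ^ b * t : ℕ) : ℤ)
      ((2 ^ b * 2 ^ a : ℕ) : ℤ) (by positivity) (by
        have : 2 ^ b * 2 ^ a < 2 ^ (a + b + 1) := by
          rw [← pow_add, add_comm b a]
          exact Nat.pow_lt_pow_right (by norm_num) (by omega)
        exact_mod_cast this) (hdvd _) (by positivity) (by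
        have : 2 ^ (a + b + 1 + L) ∣ 2 ^ b * t := by
          rw [show a + b + 1 + L = b + (a + 1 + L) by ring, pow_add]
          exact Nat.mul_dvd_mul_left _ hd
        exact_mod_cast this)
    obtain ⟨l0, m0, h0, hl, hm, hr⟩ := hsg ⟨b + a, by push_cast; rw [pow_add]⟩
    have e : ((2 ^ b * (t + 2 ^ a) : ℕ) : ℤ) = ((2 ^ b * t : ℕ) : ℤ) + ((2 ^ b * 2 ^ a : ℕ) : ℤ) := by
      push_cast; ring
    rw [e, show c + 1 + 2 * m = c + 2 * m + 1 by ring]
    exact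
      { v0 := V0_step K I.v0 (by omega)
        a0 := fun _ => A0_sg K h0 hl hm I.v0 hG' (by omega)
        c0 := fun hc => C0_sg K h0 hl hm I.v0 (I.a0 (by omega)) (by omega)
        x1 := fun hc => X1_sg K h0 hl hm I.v0 (I.a0 (by omega)) (by omega)
        d1 := fun hc => D1_sg K h0 hl hm I.v0 (I.c0 (by omega)) hG' (by omega)
        b1 := fun hc => B1_sg K h0 hl hm I.v0 (I.c0 (by omega)) hG' (by omega)
        c1 := fun hc => C1_sg K h0 hl hm I.v0 (I.d1 (by omega)) (by omega)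
        x2 := fun _ hc => X2_sg K h0 hl hm hr I.v0 (I.a0 (by omega)) (I.x1 (by omega))
          (by omega)
        b2 := fun _ hc => B2_sg K h0 hl hm I.v0 (I.c1 (by omega)) (I.a0 (by omega)) hG'
          (by omega) }
  | @addcl c m t a M h h0 hM h2 hd ih =>
    intro hκ
    have I := ih (by omega)
    have ht := h.pos
    obtain ⟨Λ, i1, d, w, cD, cS, K, -, hcl⟩ := hK (a + b) ((2 ^ b * t : ℕ) : ℤ)
      ((2 ^ b * M : ℕ) : ℤ) (by positivity) (by
        have : 2 ^ b * M < 2 ^ (a + b) := by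
          rw [pow_add, mul_comm (2 ^ a)]
          exact Nat.mul_lt_mul_of_pos_left hM (by positivity)
        exact_mod_cast this) (hdvd _) (by positivity) (by
        have : 2 ^ (a + b + L) ∣ 2 ^ b * t := by
          rw [show a + b + L = b + (a + L) by ring, pow_add]
          exact Nat.mul_dvd_mul_left _ hd
        exact_mod_cast this)
    have hc := hcl (not_pow_mul h2)
    have e : ((2 ^ b * (t + M) : ℕ) : ℤ) = ((2 ^ b * t : ℕ) : ℤ) + ((2 ^ b * M : ℕ) : ℤ) := by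
      push_cast; ring
    rw [e, show c + 2 * (m + 1) = c + 2 * m + 2 by ring]
    exact
      { v0 := V0_cl K hc I.v0 (by omega)
        a0 := fun hc' => A0_tw K hc I.v0 (I.a0 hc') (by omega)
        c0 := fun hc' => C0_tw K hc I.v0 (I.c0 hc') (by omega)
        x1 := fun hc' => X1_tw K hc I.v0 (I.a0 (by omega)) (I.x1 hc') (by omega)
        d1 := fun hc' => D1_tw K hc I.v0 (I.d1 hc') (by omega)
        b1 := fun hc' => B1_tw K hc I.v0 (I.a0 (by omega)) (I.b1 hc') (by omega)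
        c1 := fun hc' => C1_tw K hc I.v0 (I.c0 (by omega)) (I.c1 hc') (by omega)
        x2 := fun hm => by omega
        b2 := fun hm => by omega }

end Pool.Agent.Work.MP_701abf_gt.Sq2
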