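import Mathlib

/-!
Definition for the statement of the theorem on `d_2` and `d_3`.
-/

namespace Pool.Agent.Work.MP_701abf_gt.Sq2

/-- `t` is a sum of `k` numbers of the form `2 ^ a * u` with `u ≤ U`. -/
def Few (U k t : ℕ) : Prop :=
  ∃ a u : Fin k → ℕ, (∀ i, u i ≤ U) ∧ t = ∑ i, 2 ^ a i * u i

end Pool.Agent.Work.MP_701abf_gt.Sq2
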