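import Pool.Agent.Work.MP_701abf_gt.Sq2.Sums

/-!
The quadratic operation of degree two on the cocycles of a cosimplicial commutative algebra of
characteristic two, in terms of partial sums of iterated faces.
-/

namespace Pool.Agent.Work.MP_701abf_gt.Sq2

open Finset
open Pool.Agent.Work.MP_701abf_gt.Stab (add_self2)

variable {A : Type*} [CommRing A] [Algebra (ZMod 2) A]

/-- The cosimplicial identities. -/
def IsFace (f : ℕ → A →ₐ[ZMod 2] A) : Prop := ∀ i j, i < j → ∀ x, f j (f i x) = f i (f (j - 1) x)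

/-- The double faces. -/
def X2 (f : ℕ → A →ₐ[ZMod 2] A) (x : A) (u v : ℕ) : A :=
  if u < v then f v (f u x) else if v < u then f u (f v x) else 0

/-- The triple faces. -/
def X3 (f : ℕ → A →ₐ[ZMod 2] A) (x : A) (w u v : ℕ) : A :=
  if u = w ∨ v = w then 0 else f w (X2 f x (un w u) (un w v))

variable {f : ℕ → A →ₐ[ZMod 2] A} {x : A}

lemma X2_symm (u v : ℕ) : X2 f x u v = X2 f x v u := by
  unfold X2
  rcases lt_trichotomy u v with h | h | h
  · rw [if_pos h, if_neg (by omega), if_pos h]
  · rw [h]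
  · rw [if_neg (by omega), if_pos h, if_pos h]

lemma X2_self (u : ℕ) : X2 f x u u = 0 := by
  unfold X2
  rw [if_neg (lt_irrefl _), if_neg (lt_irrefl _)]

lemma X2_add (x y : A) (u v : ℕ) : X2 f (x + y) u v = X2 f x u v + X2 f y u v := by
  unfold X2
  split_ifs
  · rw [map_add, map_add]
  · rw [map_add, map_add]
  · rw [add_zero]

lemma f_f (hf : IsFace f) (w u : ℕ) : f w (f u x) = X2 f x w (skn w u) := by
  unfold X2 skn
  by_cases h : u < w
  · rw [if_pos h, if_neg (by omega), if_pos h]
  · rw [if_neg h, if_pos (by omega), hf w (u + 1) (by omega), Nat.add_sub_cancel]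

lemma f_X2 (w u v : ℕ) : f w (X2 f x u v) = X3 f x w (skn w u) (skn w v) := by
  unfold X3
  rw [if_neg (by
    have h1 := skn_ne w u
    have h2 := skn_ne w v
    tauto), un_skn, un_skn]

lemma X3_symm' (w u v : ℕ) : X3 f x w u v = X3 f x w v u := by
  unfold X3
  by_cases h : u = w ∨ v = w
  · rw [if_pos h, if_pos (by tauto)]
  · rw [if_neg h, if_neg (by tauto), X2_symm]

lemma X3_self (w v : ℕ) : X3 f x w w v = 0 := by
  unfold X3
  rw [if_pos (Or.inl rfl)]

lemma X3_self' (w u : ℕ) : X3 f x w u u = 0 := by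
  unfold X3
  split_ifs
  · rfl
  · rw [X2_self, map_zero]

/-- The value for an increasing triple. -/
lemma X3_inc (hf : IsFace f) {a b c : ℕ} (h1 : a < b) (h2 : b < c) :
    X3 f x a b c = f c (f b (f a x)) ∧ X3 f x b a c = f c (f b (f a x)) ∧
      X3 f x c a b = f c (f b (f a x)) := by
  have e1 : un a b = b - 1 := by unfold un; rw [if_neg (by omega)]
  have e2 : un a c = c - 1 := by unfold un; rw [if_neg (by omega)]
  have e3 : un b a = a := by unfold un; rw [if_pos (by omega)]
  have e4 : un b c = c - 1 := by unfold un; rw [if_neg (by omega)]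
  have e5 : un c a = a := by unfold un; rw [if_pos (by omega)]
  have e6 : un c b = b := by unfold un; rw [if_pos (by omega)]
  refine ⟨?_, ?_, ?_⟩
  · unfold X3 X2
    rw [if_neg (by omega), e1, e2, if_pos (by omega), ← hf a c (by omega), ← hf a b h1]
  · unfold X3 X2
    rw [if_neg (by omega), e3, e4, if_pos (by omega), ← hf b c (by omega)]
  · unfold X3 X2
    rw [if_neg (by omega), e5, e6, if_pos (by omega)]

lemma X3_symm (hf : IsFace f) (w u v : ℕ) : X3 f x w u v = X3 f x u w v := by
  rcases eq_or_ne w u with h | h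
  · rw [h]
  rcases eq_or_ne v w with h' | h'
  · subst h'
    rw [X3_symm' v u v, X3_self, X3_self']
  rcases eq_or_ne v u with h'' | h''
  · subst h''
    rw [X3_self', X3_symm' v w v, X3_self]
  rcases lt_or_gt_of_ne h with h1 | h1 <;> rcases lt_or_gt_of_ne h' with h2 | h2 <;>
    rcases lt_or_gt_of_ne h'' with h3 | h3
  · -- v < w < u
    obtain ⟨e1, e2, e3⟩ := X3_inc (x := x) hf h2 h1
    rw [X3_symm' w, X3_symm' u, e2, e3]
  · omega
  · -- w < v < u
    obtain ⟨e1, e2, e3⟩ := X3_inc (x := x) hf h2 h3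
    rw [X3_symm' w, e1, e3]
  · -- w < u < v
    obtain ⟨e1, e2, e3⟩ := X3_inc (x := x) hf h1 h3
    rw [e1, e2]
  · -- v < u < w
    obtain ⟨e1, e2, e3⟩ := X3_inc (x := x) hf h3 h1
    rw [X3_symm' w, e3, X3_symm' u, e2]
  · -- u < v < w
    obtain ⟨e1, e2, e3⟩ := X3_inc (x := x) hf h3 h2
    rw [e3, X3_symm' u, e1]
  · omega
  · -- u < w < v
    obtain ⟨e1, e2, e3⟩ := X3_inc (x := x) hf h1 h2
    rw [e2, e1]

/-! ### Partial sums -/

/-- The partial sums of the double faces. -/
def FF (f : ℕ → A →ₐ[ZMod 2] A) (x : A) (i j : ℕ) : A :=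
  ∑ u ∈ range i, ∑ v ∈ range j, X2 f x u v

/-- The partial sums of the triple faces. -/
def TT (f : ℕ → A →ₐ[ZMod 2] A) (x : A) (a b c : ℕ) : A :=
  ∑ w ∈ range a, ∑ u ∈ range b, ∑ v ∈ range c, X3 f x w u v

lemma FF_symm (i j : ℕ) : FF f x i j = FF f x j i := by
  unfold FF
  rw [sum_comm]
  exact sum_congr rfl fun u _ => sum_congr rfl fun v _ => X2_symm _ _

lemma FF_self (i : ℕ) : FF f x i i = 0 := symm_zero _ _ X2_self X2_symm

lemma FF_zero (j : ℕ) : FF f x 0 j = 0 := sum_range_zero _

lemma TT_symm' (a b c : ℕ) : TT f x a b c = TT f x a c b := by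
  unfold TT
  refine sum_congr rfl fun w _ => ?_
  rw [sum_comm]
  exact sum_congr rfl fun u _ => sum_congr rfl fun v _ => X3_symm' _ _ _

lemma TT_symm (hf : IsFace f) (a b c : ℕ) : TT f x a b c = TT f x b a c := by
  unfold TT
  rw [sum_comm]
  exact sum_congr rfl fun w _ => sum_congr rfl fun u _ => sum_congr rfl fun v _ =>
    X3_symm hf _ _ _

lemma TT_self' (a b : ℕ) : TT f x a b b = 0 := by
  unfold TT
  exact sum_eq_zero fun w _ => symm_zero _ _ (X3_self' w) (X3_symm' w)

lemma TT_self (hf : IsFace f) (a c : ℕ) : TT f x a a c = 0 := by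
  rw [TT_symm', TT_symm hf, TT_self']

lemma TT_zero (b c : ℕ) : TT f x 0 b c = 0 := sum_range_zero _

/-- The faces of the partial sums of the double faces. -/
lemma f_FF (w i j : ℕ) :
    f w (FF f x i j) = TT f x (w + 1) (sup w i) (sup w j) + TT f x w (sup w i) (sup w j) := by
  have h1 : f w (FF f x i j) =
      ∑ u ∈ range (sup w i), ∑ v ∈ range (sup w j), X3 f x w u v := by
    unfold FF
    rw [map_sum]
    have e : ∀ u, f w (∑ v ∈ range j, X2 f x u v) =
        ∑ v ∈ range (sup w j), X3 f x w (skn w u) v := by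
      intro u
      rw [map_sum, ← sum_skn (fun v => X3 f x w (skn w u) v) w j
        (by rw [X3_symm', X3_self])]
      exact sum_congr rfl fun v _ => f_X2 _ _ _
    rw [sum_congr rfl fun u _ => e u]
    exact sum_skn (fun u => ∑ v ∈ range (sup w j), X3 f x w u v) w i
      (sum_eq_zero fun v _ => X3_self _ _)
  have h2 : TT f x (w + 1) (sup w i) (sup w j) = TT f x w (sup w i) (sup w j) +
      ∑ u ∈ range (sup w i), ∑ v ∈ range (sup w j), X3 f x w u v := by
    unfold TT
    rw [sum_range_succ]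
  rw [h1, h2, add_right_comm, add_self2, zero_add]

/-- The quadratic operation, where `N` is the number of double faces. -/
def q0 (f : ℕ → A →ₐ[ZMod 2] A) (N : ℕ) (x : A) : A :=
  ∑ k ∈ range N, ∑ m ∈ range k, FF f x m (k + 1) * FF f x (m + 1) k

/-- The differential, with `M` faces. -/
def dF (f : ℕ → A →ₐ[ZMod 2] A) (M : ℕ) (x : A) : A := ∑ a ∈ range M, f a x

lemma FF_dF (hf : IsFace f) {M i j : ℕ} (hi : i ≤ M + 2) (hj : j ≤ M + 2) :
    FF f (dF f M x) i j = TT f x (M + 2) i j := by
  have key : ∀ u v, u < v → v < M + 2 →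
      f v (f u (dF f M x)) = ∑ w ∈ range (M + 2), X3 f x w u v := by
    intro u v h1 h2
    unfold dF
    rw [map_sum, map_sum]
    have e : ∀ a, f v (f u (f a x)) = X3 f x v u (skn v (skn u a)) := by
      intro a
      rw [f_f hf u a, f_X2]
      congr 1
      unfold skn
      rw [if_pos h1]
    rw [sum_congr rfl fun a _ => e a]
    rw [sum_skn1 (fun a => X3 f x v u (skn v a)) u M (by omega) (by
      change X3 f x v u (skn v u) = 0
      unfold skn
      rw [if_pos h1, X3_self'])]
    rw [sum_skn1 (fun a => X3 f x v u a) v (M + 1) (by omega) (by rw [X3_symm', X3_self])]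
    refine sum_congr rfl fun w _ => ?_
    rw [X3_symm' v, X3_symm hf v, X3_symm' w]
  have key2 : ∀ u v, u < M + 2 → v < M + 2 →
      X2 f (dF f M x) u v = ∑ w ∈ range (M + 2), X3 f x w u v := by
    intro u v h1 h2
    rcases lt_trichotomy u v with h | h | h
    · unfold X2
      rw [if_pos h, key u v h h2]
    · subst h
      rw [X2_self]
      exact (sum_eq_zero fun w _ => X3_self' _ _).symm
    · rw [X2_symm]
      unfold X2
      rw [if_pos h, key v u h h1]
      exact sum_congr rfl fun w _ => X3_symm' _ _ _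
  unfold FF TT
  rw [sum_comm (s := range (M + 2)) (t := range i)]
  refine sum_congr rfl fun u hu => ?_
  rw [sum_comm (s := range (M + 2)) (t := range j)]
  refine sum_congr rfl fun v hv => ?_
  exact key2 u v (by have := mem_range.1 hu; omega) (by have := mem_range.1 hv; omega)

end Pool.Agent.Work.MP_701abf_gt.Sq2
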