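import Pool.Agent.Work.MP_701abf_gt.Sq2.Quad

/-!
Quadratic expressions in the double faces: sums over quadruples of indices.
-/

namespace Pool.Agent.Work.MP_701abf_gt.Sq2

open Finset
open Pool.Agent.Work.MP_701abf_gt.Stab (add_self2)

variable {A : Type*} [CommRing A] [Algebra (ZMod 2) A]

lemma symm_zero_fin {α : Type*} (P : Finset α) (h : α → α → A) (hd : ∀ p ∈ P, h p p = 0)
    (hs : ∀ p ∈ P, ∀ q ∈ P, h p q = h q p) : ∑ p ∈ P, ∑ q ∈ P, h p q = 0 := by
  classical
  induction P using Finset.induction_on with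
  | empty => rfl
  | @insert a P ha ih =>
    have ih' := ih (fun p hp => hd p (mem_insert_of_mem hp))
      fun p hp q hq => hs p (mem_insert_of_mem hp) q (mem_insert_of_mem hq)
    rw [sum_insert ha, sum_insert ha, hd a (mem_insert_self a P), zero_add]
    have e : ∑ p ∈ P, ∑ q ∈ insert a P, h p q = ∑ p ∈ P, h p a + ∑ p ∈ P, ∑ q ∈ P, h p q := by
      rw [← sum_add_distrib]
      exact sum_congr rfl fun p _ => sum_insert ha
    rw [e, ih', add_zero]
    have e2 : ∑ p ∈ P, h p a = ∑ q ∈ P, h a q :=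
      sum_congr rfl fun p hp => hs p (mem_insert_of_mem hp) a (mem_insert_self a P)
    rw [e2, add_self2]

/-- Sums over quadruples. -/
def S4 (N : ℕ) (g : ℕ → ℕ → ℕ → ℕ → A) : A :=
  ∑ a ∈ range N, ∑ b ∈ range N, ∑ c ∈ range N, ∑ d ∈ range N, g a b c d

omit [Algebra (ZMod 2) A] in
lemma S4_12 (N : ℕ) (g : ℕ → ℕ → ℕ → ℕ → A) : S4 N g = S4 N (fun a b c d => g b a c d) :=
  sum_comm

omit [Algebra (ZMod 2) A] in
lemma S4_23 (N : ℕ) (g : ℕ → ℕ → ℕ → ℕ → A) : S4 N g = S4 N (fun a b c d => g a c b d) :=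
  sum_congr rfl fun _ _ => sum_comm

omit [Algebra (ZMod 2) A] in
lemma S4_34 (N : ℕ) (g : ℕ → ℕ → ℕ → ℕ → A) : S4 N g = S4 N (fun a b c d => g a b d c) :=
  sum_congr rfl fun _ _ => sum_congr rfl fun _ _ => sum_comm

omit [Algebra (ZMod 2) A] in
lemma S4_congr {N : ℕ} {g g' : ℕ → ℕ → ℕ → ℕ → A}
    (h : ∀ a < N, ∀ b < N, ∀ c < N, ∀ d < N, g a b c d = g' a b c d) : S4 N g = S4 N g' :=
  sum_congr rfl fun a ha => sum_congr rfl fun b hb => sum_congr rfl fun c hc =>
    sum_congr rfl fun d hd => h a (mem_range.1 ha) b (mem_range.1 hb) c (mem_range.1 hc) d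
      (mem_range.1 hd)

omit [Algebra (ZMod 2) A] in
lemma S4_add (N : ℕ) (g g' : ℕ → ℕ → ℕ → ℕ → A) :
    S4 N (fun a b c d => g a b c d + g' a b c d) = S4 N g + S4 N g' := by
  unfold S4
  simp only [sum_add_distrib]

omit [Algebra (ZMod 2) A] in
lemma S4_rev (N : ℕ) (g : ℕ → ℕ → ℕ → ℕ → A) : S4 N g = S4 N (fun a b c d => g d c b a) := by
  rw [S4_12, S4_23, S4_34, S4_12, S4_23, S4_12]

omit [Algebra (ZMod 2) A] in
lemma range_if {n N : ℕ} (h : n ≤ N) (g : ℕ → A) :
    ∑ i ∈ range n, g i = ∑ i ∈ range N, if i < n then g i else 0 := by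
  rw [← sum_filter]
  refine sum_congr ?_ fun _ _ => rfl
  ext i
  simp only [mem_range, mem_filter]
  omega

omit [Algebra (ZMod 2) A] in
/-- Increasing quadruples. -/
lemma S4_inc (N : ℕ) (g : ℕ → ℕ → ℕ → ℕ → A) :
    ∑ d ∈ range N, ∑ c ∈ range d, ∑ b ∈ range c, ∑ a ∈ range b, g a b c d =
      S4 N (fun a b c d => if a < b ∧ b < c ∧ c < d then g a b c d else 0) := by
  rw [S4_rev]
  unfold S4
  refine sum_congr rfl fun d hd => ?_
  have hd := mem_range.1 hd
  rw [range_if (n := d) (N := N) (by omega)]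
  refine sum_congr rfl fun c hc => ?_
  by_cases h1 : c < d
  · rw [if_pos h1, range_if (n := c) (N := N) (by omega)]
    refine sum_congr rfl fun b hb => ?_
    by_cases h2 : b < c
    · rw [if_pos h2, range_if (n := b) (N := N) (by omega)]
      refine sum_congr rfl fun a ha => ?_
      change _ = if a < b ∧ b < c ∧ c < d then g a b c d else 0
      by_cases h3 : a < b
      · rw [if_pos h3, if_pos ⟨h3, h2, h1⟩]
      · rw [if_neg h3, if_neg (by tauto)]
    · rw [if_neg h2]
      exact (sum_eq_zero fun a _ => if_neg (by tauto)).symm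
  · rw [if_neg h1]
    exact (sum_eq_zero fun b _ => sum_eq_zero fun a _ => if_neg (by tauto)).symm

omit [Algebra (ZMod 2) A] in
lemma off2 (h : ℕ → ℕ → A) (hd : ∀ k, h k k = 0) (N : ℕ) :
    ∑ a ∈ range N, ∑ b ∈ range N, h a b =
      ∑ a ∈ range N, ∑ b ∈ range N, if a < b then h a b + h b a else 0 := by
  have e1 : ∑ a ∈ range N, ∑ b ∈ range N, h a b =
      ∑ a ∈ range N, ∑ b ∈ range N, (if a < b then h a b else 0) +
      ∑ a ∈ range N, ∑ b ∈ range N, (if b < a then h a b else 0) := by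
    rw [← sum_add_distrib]
    refine sum_congr rfl fun a _ => ?_
    rw [← sum_add_distrib]
    refine sum_congr rfl fun b _ => ?_
    rcases lt_trichotomy a b with h1 | h1 | h1
    · rw [if_pos h1, if_neg (by omega), add_zero]
    · subst h1
      rw [if_neg (lt_irrefl _), hd, add_zero]
    · rw [if_neg (by omega), if_pos h1, zero_add]
  rw [e1, sum_comm (f := fun a b => if b < a then h a b else 0), ← sum_add_distrib]
  refine sum_congr rfl fun a _ => ?_
  rw [← sum_add_distrib]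
  refine sum_congr rfl fun b _ => ?_
  by_cases h1 : a < b
  · rw [if_pos h1, if_pos h1, if_pos h1]
  · rw [if_neg h1, if_neg h1, if_neg h1, add_zero]

variable (X : ℕ → ℕ → A)

/-- The quadratic expression with coefficients `κ`. -/
def SK (N : ℕ) (κ : ℕ → ℕ → ℕ → ℕ → ZMod 2) : A :=
  S4 N (fun a b c d => κ a b c d • (X a b * X c d))

lemma SK_add (N : ℕ) (κ κ' : ℕ → ℕ → ℕ → ℕ → ZMod 2) :
    SK X N (fun a b c d => κ a b c d + κ' a b c d) = SK X N κ + SK X N κ' := by
  unfold SK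
  rw [← S4_add]
  exact S4_congr fun a _ b _ c _ d _ => add_smul _ _ _

/-- Symmetrised coefficients. -/
def Ksym (κ : ℕ → ℕ → ℕ → ℕ → ZMod 2) (x y z w : ℕ) : ZMod 2 :=
  κ x y z w + κ y x z w + (κ x y w z + κ y x w z)

variable {X}

lemma SK_zero (hs : ∀ a b, X a b = X b a) (hd : ∀ a, X a a = 0) {N : ℕ}
    {κ : ℕ → ℕ → ℕ → ℕ → ZMod 2}
    (H1 : ∀ x y z w, x < y → z < w → y < N → w < N → Ksym κ x y z w = Ksym κ z w x y)
    (H2 : ∀ x y, x < y → y < N → Ksym κ x y x y = 0) : SK X N κ = 0 := by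
  have e1 : SK X N κ = ∑ a ∈ range N, ∑ b ∈ range N, ∑ c ∈ range N, ∑ d ∈ range N,
      if c < d then (κ a b c d + κ a b d c) • (X a b * X c d) else 0 := by
    unfold SK S4
    refine sum_congr rfl fun a _ => sum_congr rfl fun b _ => ?_
    rw [off2 (fun c d => κ a b c d • (X a b * X c d)) (fun k => by rw [hd, mul_zero, smul_zero])]
    refine sum_congr rfl fun c _ => sum_congr rfl fun d _ => ?_
    by_cases h : c < d
    · rw [if_pos h, if_pos h, hs d c, ← add_smul]
    · rw [if_neg h, if_neg h]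
  have e2 : SK X N κ = ∑ a ∈ range N, ∑ b ∈ range N, if a < b then ∑ c ∈ range N, ∑ d ∈ range N,
      (if c < d then Ksym κ a b c d • (X a b * X c d) else 0) else 0 := by
    rw [e1, off2 (fun a b => ∑ c ∈ range N, ∑ d ∈ range N,
      if c < d then (κ a b c d + κ a b d c) • (X a b * X c d) else 0) (fun k => by
        refine sum_eq_zero fun c _ => sum_eq_zero fun d _ => ?_
        rw [hd, zero_mul, smul_zero, ite_self])]
    refine sum_congr rfl fun a _ => sum_congr rfl fun b _ => ?_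
    by_cases h : a < b
    · rw [if_pos h, if_pos h, ← sum_add_distrib]
      refine sum_congr rfl fun c _ => ?_
      rw [← sum_add_distrib]
      refine sum_congr rfl fun d _ => ?_
      by_cases h' : c < d
      · rw [if_pos h', if_pos h', if_pos h', hs b a, ← add_smul]
        congr 1
        unfold Ksym
        ring
      · rw [if_neg h', if_neg h', if_neg h', add_zero]
    · rw [if_neg h, if_neg h]
  set P : Finset (ℕ × ℕ) := (range N ×ˢ range N).filter (fun p => p.1 < p.2) with hP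
  have e3 : ∀ g : ℕ → ℕ → A, ∑ a ∈ range N, ∑ b ∈ range N, (if a < b then g a b else 0) =
      ∑ p ∈ P, g p.1 p.2 := by
    intro g
    rw [hP, sum_filter, sum_product]
  rw [e2, e3]
  have e4 : ∀ p ∈ P, ∑ c ∈ range N, ∑ d ∈ range N,
      (if c < d then Ksym κ p.1 p.2 c d • (X p.1 p.2 * X c d) else 0) =
      ∑ q ∈ P, Ksym κ p.1 p.2 q.1 q.2 • (X p.1 p.2 * X q.1 q.2) := fun p _ => e3 _
  rw [sum_congr rfl e4]
  refine symm_zero_fin P _ ?_ ?_
  · intro p hp
    rw [hP, mem_filter, mem_product, mem_range, mem_range] at hp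
    rw [H2 _ _ hp.2 hp.1.2, zero_smul]
  · intro p hp q hq
    rw [hP, mem_filter, mem_product, mem_range, mem_range] at hp hq
    rw [H1 _ _ _ _ hp.2 hq.2 hp.1.2 hq.1.2, mul_comm]

end Pool.Agent.Work.MP_701abf_gt.Sq2
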