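import Pool.Agent.Work.MP_701abf_gt.Sq2.KFex

/-!
The two operations in terms of the coordinates of the Kuenneth formula.
-/

open MvPolynomial
open Pool.Agent.Work.MP_701abf_gt.Stab Pool.Agent.Work.MP_701abf_gt.Cob

namespace Pool.Agent.Work.MP_701abf_gt.Sq2

noncomputable section

lemma mem_of_eq {S : Submodule (ZMod 2) (RR Empty)} {a b : RR Empty} (h : a ∈ S) (e : a = b) :
    b ∈ S := e ▸ h

set_option linter.unusedSectionVars false

variable {Λ : Type} [Fintype Λ] {d : Λ → ℕ} {w : Λ → RR Empty} {cD cS : Λ → Λ → ZMod 2}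
  {N M : ℤ} {n : ℕ}

/-- The families of coordinates. -/
def Fm (d : Λ → ℕ) (s : ℕ) (t : ℤ) (u : Λ → RR Empty) : Prop :=
  (∀ l, d l ≤ s → u l ∈ ZR (s - d l) t) ∧ (∀ l, s < d l → u l = 0)

/-- The sum with given coordinates. -/
def Sm (d : Λ → ℕ) (w u : Λ → RR Empty) : RR Empty := ∑ l, w l * sh (d l) (u l)

/-- `dl` of a coordinate. -/
def dl' (d : Λ → ℕ) (s : ℕ) (u : Λ → RR Empty) (l : Λ) : RR Empty :=
  if d l ≤ s then dl (s - d l) (u l) else 0

/-- `sg` of a coordinate. -/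
def sg' (d : Λ → ℕ) (s : ℕ) (u : Λ → RR Empty) (l : Λ) : RR Empty :=
  if d l ≤ s then sg (s - d l) (u l) else 0

/-- The coordinates of `dl`. -/
def Df (d : Λ → ℕ) (cD : Λ → Λ → ZMod 2) (s : ℕ) (u : Λ → RR Empty) (m : Λ) : RR Empty :=
  dl' d s u m + ∑ l, cD l m • u l ^ 2

/-- The coordinates of `sg`. -/
def Sf (d : Λ → ℕ) (cD cS : Λ → Λ → ZMod 2) (s : ℕ) (u : Λ → RR Empty) (m : Λ) : RR Empty :=
  sg' d s u m + ∑ l, cD l m • dl' d s u l + ∑ l, cS l m • u l ^ 2

lemma Fm.mem {s : ℕ} {t : ℤ} {u : Λ → RR Empty} (h : Fm d s t u) {l : Λ} {k : ℕ}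
    (hk : k + d l = s) : u l ∈ ZR k t := by
  have := h.1 l (by omega)
  rwa [show s - d l = k by omega] at this

lemma dl'_eq {s : ℕ} {u : Λ → RR Empty} {l : Λ} {k : ℕ} (hk : k + d l = s) :
    dl' d s u l = dl k (u l) := by
  unfold dl'
  rw [if_pos (by omega), show s - d l = k by omega]

lemma sg'_eq {s : ℕ} {u : Λ → RR Empty} {l : Λ} {k : ℕ} (hk : k + d l = s) :
    sg' d s u l = sg k (u l) := by
  unfold sg'
  rw [if_pos (by omega), show s - d l = k by omega]

lemma dl'_gt {s : ℕ} {u : Λ → RR Empty} {l : Λ} (hk : s < d l) : dl' d s u l = 0 := by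
  unfold dl'
  rw [if_neg (by omega)]

lemma sg'_gt {s : ℕ} {u : Λ → RR Empty} {l : Λ} (hk : s < d l) : sg' d s u l = 0 := by
  unfold sg'
  rw [if_neg (by omega)]

lemma dl'_mem {s : ℕ} {t : ℤ} {u : Λ → RR Empty} (h : Fm d s t u) {l : Λ} {k : ℕ}
    (hk : k + d l = s + 1) : dl' d s u l ∈ ZR k (2 * t) := by
  by_cases h1 : d l ≤ s
  · obtain ⟨k', rfl⟩ : ∃ k', k = k' + 1 := ⟨k - 1, by omega⟩
    rw [dl'_eq (k := k') (by omega)]
    exact dl_ZR (h.mem (by omega))
  · rw [dl'_gt (by omega)]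
    exact Submodule.zero_mem _

lemma sg'_mem {s : ℕ} {t : ℤ} {u : Λ → RR Empty} (h : Fm d s t u) {l : Λ} {k : ℕ}
    (hk : k + d l = s + 2) : sg' d s u l ∈ ZR k (2 * t) := by
  by_cases h1 : d l ≤ s
  · obtain ⟨k', rfl⟩ : ∃ k', k = k' + 2 := ⟨k - 2, by omega⟩
    rw [sg'_eq (k := k') (by omega)]
    exact sg_ZR (h.mem (by omega))
  · rw [sg'_gt (by omega)]
    exact Submodule.zero_mem _

lemma Df_Fm (hc : ∀ l m, cD l m ≠ 0 → d m = d l + 1) {s : ℕ} {t : ℤ} {u : Λ → RR Empty}
    (h : Fm d s t u) : Fm d (s + 1) (2 * t) (Df d cD s u) := by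
  refine ⟨fun m hm => ?_, fun m hm => ?_⟩
  · unfold Df
    refine Submodule.add_mem _ (dl'_mem h (by omega)) (Submodule.sum_mem _ fun l _ => ?_)
    by_cases h0 : cD l m = 0
    · rw [h0, zero_smul]
      exact Submodule.zero_mem _
    · have h1 := hc l m h0
      exact Submodule.smul_mem _ _ (sq_ZR (h.mem (by omega)))
  · unfold Df
    rw [dl'_gt (by omega), zero_add]
    refine Finset.sum_eq_zero fun l _ => ?_
    by_cases h0 : cD l m = 0
    · rw [h0, zero_smul]
    · have h1 := hc l m h0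
      rw [h.2 l (by omega), zero_pow two_ne_zero, smul_zero]

lemma Sf_Fm (hc : ∀ l m, cD l m ≠ 0 → d m = d l + 1) (hc' : ∀ l m, cS l m ≠ 0 → d m = d l + 2)
    {s : ℕ} {t : ℤ} {u : Λ → RR Empty} (h : Fm d s t u) :
    Fm d (s + 2) (2 * t) (Sf d cD cS s u) := by
  refine ⟨fun m hm => ?_, fun m hm => ?_⟩
  · unfold Sf
    refine Submodule.add_mem _ (Submodule.add_mem _ (sg'_mem h (by omega))
      (Submodule.sum_mem _ fun l _ => ?_)) (Submodule.sum_mem _ fun l _ => ?_)
    · by_cases h0 : cD l m = 0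
      · rw [h0, zero_smul]
        exact Submodule.zero_mem _
      · have h1 := hc l m h0
        exact Submodule.smul_mem _ _ (dl'_mem h (by omega))
    · by_cases h0 : cS l m = 0
      · rw [h0, zero_smul]
        exact Submodule.zero_mem _
      · have h1 := hc' l m h0
        exact Submodule.smul_mem _ _ (sq_ZR (h.mem (by omega)))
  · unfold Sf
    rw [sg'_gt (by omega), zero_add]
    have e1 : ∑ l, cD l m • dl' d s u l = 0 := Finset.sum_eq_zero fun l _ => by
      by_cases h0 : cD l m = 0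
      · rw [h0, zero_smul]
      · have h1 := hc l m h0
        rw [dl'_gt (by omega), smul_zero]
    have e2 : ∑ l, cS l m • u l ^ 2 = 0 := Finset.sum_eq_zero fun l _ => by
      by_cases h0 : cS l m = 0
      · rw [h0, zero_smul]
      · have h1 := hc' l m h0
        rw [h.2 l (by omega), zero_pow two_ne_zero, smul_zero]
    rw [e1, e2, add_zero]

lemma Sm_term {s : ℕ} {t : ℤ} {u : Λ → RR Empty} (hw : ∀ l, w l ∈ ZR (d l) M) (h : Fm d s t u)
    (l : Λ) : w l * sh (d l) (u l) ∈ ZR s (t + M) := by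
  by_cases h1 : d l ≤ s
  · exact mul_ZR' (by omega) (h.1 l h1) (hw l)
  · rw [h.2 l (by omega), map_zero, mul_zero]
    exact Submodule.zero_mem _

lemma Sm_mem {s : ℕ} {t : ℤ} {u : Λ → RR Empty} (hw : ∀ l, w l ∈ ZR (d l) M) (h : Fm d s t u) :
    Sm d w u ∈ ZR s (t + M) := Submodule.sum_mem _ fun l _ => Sm_term hw h l

/-- If all coordinates are coboundaries, the sum is one. -/
lemma Sm_BR {s : ℕ} {t : ℤ} {u : Λ → RR Empty} (hw : ∀ l, w l ∈ ZR (d l) M) (h : Fm d s t u)
    (hB : ∀ l, d l ≤ s → u l ∈ BR (s - d l) t) : Sm d w u ∈ BR s (t + M) := by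
  refine Submodule.sum_mem _ fun l _ => ?_
  by_cases h1 : d l ≤ s
  · exact mul_BR_left' (by omega) (hB l h1) (hw l)
  · rw [h.2 l (by omega), map_zero, mul_zero]
    exact Submodule.zero_mem _

lemma Sm_add (u v : Λ → RR Empty) : Sm d w (fun l => u l + v l) = Sm d w u + Sm d w v := by
  unfold Sm
  rw [← Finset.sum_add_distrib]
  exact Finset.sum_congr rfl fun l _ => by rw [map_add, mul_add]

/-- The square. -/
lemma Sm_sq (u : Λ → RR Empty) :
    (Sm d w u) ^ 2 = Sm d (fun l => w l ^ 2) (fun l => u l ^ 2) := by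
  unfold Sm
  rw [sum_sq]
  exact Finset.sum_congr rfl fun l _ => by rw [mul_pow, map_pow]

/-- The operation of degree one. -/
lemma Sm_dl (K : KF n N M d w cD cS) {s : ℕ} (hs : s + 1 ≤ n) {u : Λ → RR Empty}
    (h : Fm d s N u) :
    dl s (Sm d w u) + Sm d (fun l => w l ^ 2) (Df d cD s u) ∈ BR (s + 1) (2 * (N + M)) := by
  classical
  have h1 := (dlOp s (N + M)).sum Finset.univ (fun l => w l * sh (d l) (u l))
    (fun l _ => Sm_term K.w_mem h l)
  -- the operation on a term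
  have h2 : ∀ l, dl s (w l * sh (d l) (u l)) + (w l ^ 2 * sh (d l) (dl' d s u l) +
      ∑ m, w m ^ 2 * sh (d m) (cD l m • u l ^ 2)) ∈ BR (s + 1) (2 * (N + M)) := by
    intro l
    by_cases hl : d l ≤ s
    · obtain ⟨k, rfl⟩ : ∃ k, s = k + d l := ⟨s - d l, by omega⟩
      have hu : u l ∈ ZR k N := h.mem rfl
      have e1 := dl_mul hu (K.w_mem l)
      have e2 : ∑ m, w m ^ 2 * sh (d m) (cD l m • u l ^ 2) =
          (∑ m, cD l m • w m ^ 2) * sh (d l + 1) (u l ^ 2) := by
        rw [Finset.sum_mul]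
        refine Finset.sum_congr rfl fun m _ => ?_
        by_cases h0 : cD l m = 0
        · rw [h0, zero_smul, zero_smul, map_zero, mul_zero, zero_mul]
        · rw [K.cD_deg l m h0, map_smul, mul_smul_comm, smul_mul_assoc]
      rw [e1, e2, dl'_eq rfl]
      have h3 := mul_BR_right (sq_ZR hu) (K.dl_w l (by omega))
      rw [show 2 * N + 2 * M = 2 * (N + M) by ring,
        show k + (d l + 1) = k + d l + 1 by ring, add_mul] at h3
      refine mem_of_eq h3 ?_
      have h4 := add_self2 (w l ^ 2 * sh (d l) (dl k (u l)))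
      calc _ = dl (d l) (w l) * sh (d l + 1) (u l ^ 2) + (∑ m, cD l m • w m ^ 2) *
            sh (d l + 1) (u l ^ 2) + (w l ^ 2 * sh (d l) (dl k (u l)) +
              w l ^ 2 * sh (d l) (dl k (u l))) := by rw [h4, add_zero]
        _ = _ := by abel
    · have e1 : ∑ m, w m ^ 2 * sh (d m) (cD l m • u l ^ 2) = 0 := by
        refine Finset.sum_eq_zero fun m _ => ?_
        rw [h.2 l (by omega), zero_pow two_ne_zero, smul_zero, map_zero, mul_zero]
      rw [e1, dl'_gt (by omega), h.2 l (by omega), map_zero, mul_zero, mul_zero,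
        dl_zero, add_zero, add_zero]
      exact Submodule.zero_mem _
  have h3 : ∑ l, (dl s (w l * sh (d l) (u l)) + (w l ^ 2 * sh (d l) (dl' d s u l) +
      ∑ m, w m ^ 2 * sh (d m) (cD l m • u l ^ 2))) ∈ BR (s + 1) (2 * (N + M)) :=
    Submodule.sum_mem _ fun l _ => h2 l
  have e3 : Sm d (fun l => w l ^ 2) (Df d cD s u) =
      ∑ l, (w l ^ 2 * sh (d l) (dl' d s u l) + ∑ m, w m ^ 2 * sh (d m) (cD l m • u l ^ 2)) := by
    unfold Sm Df
    rw [Finset.sum_add_distrib, Finset.sum_comm (f := fun l m =>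
      w m ^ 2 * sh (d m) (cD l m • u l ^ 2)), ← Finset.sum_add_distrib]
    refine Finset.sum_congr rfl fun m _ => ?_
    rw [map_add, mul_add, map_sum, Finset.mul_sum]
  rw [Finset.sum_add_distrib, ← e3] at h3
  have h4 := Submodule.add_mem _ h1 h3
  have h5 := add_self2 (∑ l, dl s (w l * sh (d l) (u l)))
  refine mem_of_eq h4 ?_
  calc _ = dl s (Sm d w u) + Sm d (fun l => w l ^ 2) (Df d cD s u) +
        (∑ l, dl s (w l * sh (d l) (u l)) + ∑ l, dl s (w l * sh (d l) (u l))) := by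
        change dl s (Sm d w u) + ∑ l, dl s (w l * sh (d l) (u l)) + _ = _
        abel
    _ = _ := by rw [h5, add_zero]

/-- The operation of degree two. -/
lemma Sm_sg (K : KF n N M d w cD cS) {s : ℕ} (hs : s + 2 ≤ n) {u : Λ → RR Empty}
    (h : Fm d s N u) :
    sg s (Sm d w u) + Sm d (fun l => w l ^ 2) (Sf d cD cS s u) ∈
      BR (s + 2) (2 * (N + M)) := by
  classical
  have h1 := (sgOp s (N + M)).sum Finset.univ (fun l => w l * sh (d l) (u l))
    (fun l _ => Sm_term K.w_mem h l)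
  -- the operation on a term
  have h2 : ∀ l, sg s (w l * sh (d l) (u l)) + (w l ^ 2 * sh (d l) (sg' d s u l) +
      (∑ m, w m ^ 2 * sh (d m) (cD l m • dl' d s u l) +
      ∑ m, w m ^ 2 * sh (d m) (cS l m • u l ^ 2))) ∈ BR (s + 2) (2 * (N + M)) := by
    intro l
    by_cases hl : d l ≤ s
    · obtain ⟨k, rfl⟩ : ∃ k, s = k + d l := ⟨s - d l, by omega⟩
      have hu : u l ∈ ZR k N := h.mem rfl
      have e1 := sg_mul hu (K.w_mem l)
      have e2 : ∑ m, w m ^ 2 * sh (d m) (cD l m • dl' d (k + d l) u l) =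
          (∑ m, cD l m • w m ^ 2) * sh (d l + 1) (dl k (u l)) := by
        rw [Finset.sum_mul, dl'_eq rfl]
        refine Finset.sum_congr rfl fun m _ => ?_
        by_cases h0 : cD l m = 0
        · rw [h0, zero_smul, zero_smul, map_zero, mul_zero, zero_mul]
        · rw [K.cD_deg l m h0, map_smul, mul_smul_comm, smul_mul_assoc]
      have e3 : ∑ m, w m ^ 2 * sh (d m) (cS l m • u l ^ 2) =
          (∑ m, cS l m • w m ^ 2) * sh (d l + 2) (u l ^ 2) := by
        rw [Finset.sum_mul]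
        refine Finset.sum_congr rfl fun m _ => ?_
        by_cases h0 : cS l m = 0
        · rw [h0, zero_smul, zero_smul, map_zero, mul_zero, zero_mul]
        · rw [K.cS_deg l m h0, map_smul, mul_smul_comm, smul_mul_assoc]
      rw [e1, e2, e3, sg'_eq rfl]
      have h3 := mul_BR_right (dl_ZR hu) (K.dl_w l (by omega))
      have h3' := mul_BR_right (sq_ZR hu) (K.sg_w l (by omega))
      rw [show 2 * N + 2 * M = 2 * (N + M) by ring,
        show k + 1 + (d l + 1) = k + d l + 2 by ring, add_mul] at h3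
      rw [show 2 * N + 2 * M = 2 * (N + M) by ring,
        show k + (d l + 2) = k + d l + 2 by ring, add_mul] at h3'
      have h3'' := Submodule.add_mem _ h3 h3'
      refine mem_of_eq h3'' ?_
      have h4 := add_self2 (w l ^ 2 * sh (d l) (sg k (u l)))
      calc _ = dl (d l) (w l) * sh (d l + 1) (dl k (u l)) + (∑ m, cD l m • w m ^ 2) *
            sh (d l + 1) (dl k (u l)) + (sg (d l) (w l) * sh (d l + 2) (u l ^ 2) +
            (∑ m, cS l m • w m ^ 2) * sh (d l + 2) (u l ^ 2)) +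
            (w l ^ 2 * sh (d l) (sg k (u l)) +
              w l ^ 2 * sh (d l) (sg k (u l))) := by rw [h4, add_zero]
        _ = _ := by abel
    · have e1 : ∑ m, w m ^ 2 * sh (d m) (cD l m • dl' d s u l) = 0 := by
        refine Finset.sum_eq_zero fun m _ => ?_
        rw [dl'_gt (by omega), smul_zero, map_zero, mul_zero]
      have e2 : ∑ m, w m ^ 2 * sh (d m) (cS l m • u l ^ 2) = 0 := by
        refine Finset.sum_eq_zero fun m _ => ?_
        rw [h.2 l (by omega), zero_pow two_ne_zero, smul_zero, map_zero, mul_zero]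
      rw [e1, e2, sg'_gt (by omega), h.2 l (by omega), map_zero, mul_zero, mul_zero,
        sg_zero, add_zero, add_zero, add_zero]
      exact Submodule.zero_mem _
  have h3 : ∑ l, (sg s (w l * sh (d l) (u l)) + (w l ^ 2 * sh (d l) (sg' d s u l) +
      (∑ m, w m ^ 2 * sh (d m) (cD l m • dl' d s u l) +
      ∑ m, w m ^ 2 * sh (d m) (cS l m • u l ^ 2)))) ∈ BR (s + 2) (2 * (N + M)) :=
    Submodule.sum_mem _ fun l _ => h2 l
  have e3 : Sm d (fun l => w l ^ 2) (Sf d cD cS s u) =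
      ∑ l, (w l ^ 2 * sh (d l) (sg' d s u l) +
      (∑ m, w m ^ 2 * sh (d m) (cD l m • dl' d s u l) +
      ∑ m, w m ^ 2 * sh (d m) (cS l m • u l ^ 2))) := by
    unfold Sm Sf
    rw [Finset.sum_add_distrib, Finset.sum_add_distrib, Finset.sum_comm (f := fun l m =>
      w m ^ 2 * sh (d m) (cS l m • u l ^ 2)), Finset.sum_comm (f := fun l m =>
      w m ^ 2 * sh (d m) (cD l m • dl' d s u l)), ← Finset.sum_add_distrib,
      ← Finset.sum_add_distrib]
    refine Finset.sum_congr rfl fun m _ => ?_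
    rw [map_add, map_add, mul_add, mul_add, map_sum, Finset.mul_sum, map_sum, Finset.mul_sum,
      add_assoc]
  rw [Finset.sum_add_distrib, ← e3] at h3
  have h4 := Submodule.add_mem _ h1 h3
  have h5 := add_self2 (∑ l, sg s (w l * sh (d l) (u l)))
  refine mem_of_eq h4 ?_
  calc _ = sg s (Sm d w u) + Sm d (fun l => w l ^ 2) (Sf d cD cS s u) +
        (∑ l, sg s (w l * sh (d l) (u l)) + ∑ l, sg s (w l * sh (d l) (u l))) := by
        change sg s (Sm d w u) + ∑ l, sg s (w l * sh (d l) (u l)) + _ = _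
        abel
    _ = _ := by rw [h5, add_zero]

end

end Pool.Agent.Work.MP_701abf_gt.Sq2
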