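import Pool.Agent.Work.MP_701abf_gt.Sq2.KF

/-!
Operations on cocycles modulo coboundaries; the classes of the powers of two.
-/

open MvPolynomial
open Pool.Agent.Work.MP_701abf_gt.Stab Pool.Agent.Work.MP_701abf_gt.Cob

namespace Pool.Agent.Work.MP_701abf_gt.Sq2

noncomputable section

/-- A map of cocycles which is additive modulo coboundaries. -/
structure IsOp (Z B Z' B' : Submodule (ZMod 2) (RR Empty)) (φ : RR Empty → RR Empty) : Prop where
  zero : φ 0 = 0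
  memZ : ∀ F ∈ Z, φ F ∈ Z'
  memB : ∀ F ∈ B, φ F ∈ B'
  add : ∀ F ∈ Z, ∀ G ∈ Z, φ (F + G) + (φ F + φ G) ∈ B'
  le : B ≤ Z

namespace IsOp
variable {Z B Z' B' : Submodule (ZMod 2) (RR Empty)} {φ : RR Empty → RR Empty}
  (h : IsOp Z B Z' B' φ)
include h

lemma smul (c : ZMod 2) (F : RR Empty) : φ (c • F) = c • φ F := by
  have : c = 0 ∨ c = 1 := by revert c; decide
  rcases this with rfl | rfl
  · rw [zero_smul, zero_smul, h.zero]
  · rw [one_smul, one_smul]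

lemma sum {α : Type*} (S : Finset α) (F : α → RR Empty) (hF : ∀ a ∈ S, F a ∈ Z) :
    φ (∑ a ∈ S, F a) + ∑ a ∈ S, φ (F a) ∈ B' := by
  classical
  induction S using Finset.induction_on with
  | empty =>
    rw [Finset.sum_empty, Finset.sum_empty, h.zero, add_zero]
    exact Submodule.zero_mem _
  | @insert a S ha ih =>
    have ih' := ih fun b hb => hF b (Finset.mem_insert_of_mem hb)
    have h1 := h.add (F a) (hF a (Finset.mem_insert_self _ _)) (∑ b ∈ S, F b)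
      (Submodule.sum_mem _ fun b hb => hF b (Finset.mem_insert_of_mem hb))
    rw [Finset.sum_insert ha, Finset.sum_insert ha]
    have h2 := Submodule.add_mem _ h1 ih'
    have h3 := add_self2 (φ (∑ b ∈ S, F b))
    have e : φ (F a + ∑ b ∈ S, F b) + (φ (F a) + φ (∑ b ∈ S, F b)) +
        (φ (∑ b ∈ S, F b) + ∑ b ∈ S, φ (F b)) =
        φ (F a + ∑ b ∈ S, F b) + (φ (F a) + ∑ b ∈ S, φ (F b)) := by
      calc _ = φ (F a + ∑ b ∈ S, F b) + (φ (F a) + ∑ b ∈ S, φ (F b)) +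
            (φ (∑ b ∈ S, F b) + φ (∑ b ∈ S, F b)) := by abel
        _ = _ := by rw [h3, add_zero]
    rwa [e] at h2

lemma congr {F G : RR Empty} (hF : F ∈ Z) (hFG : F + G ∈ B) : φ F + φ G ∈ B' := by
  have h1 := h.add F hF (F + G) (h.le hFG)
  have h2 := h.memB _ hFG
  have e : F + (F + G) = G := by rw [← add_assoc, add_self2, zero_add]
  rw [e] at h1
  have h3 := Submodule.add_mem _ h1 h2
  rwa [add_assoc, add_assoc, add_self2, add_zero, add_comm] at h3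

end IsOp

lemma sqOp (s : ℕ) (t : ℤ) : IsOp (ZR s t) (BR s t) (ZR s (2 * t)) (BR s (2 * t))
    (fun F => F ^ 2) where
  zero := zero_pow two_ne_zero
  memZ _ h := sq_ZR h
  memB _ h := sq_BR h
  add F _ G _ := by
    rw [sq_add, add_self2]
    exact Submodule.zero_mem _
  le := BR_le _ _

lemma dl_zero (s : ℕ) : dl s 0 = 0 := by
  unfold dl sq1 pr
  simp only [map_zero, mul_zero, ite_self, Finset.sum_const_zero]

lemma sg_zero (s : ℕ) : sg s 0 = 0 := by
  unfold sg sq2 q0 FF X2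
  simp only [map_zero, ite_self, Finset.sum_const_zero, mul_zero]

lemma dlOp (s : ℕ) (t : ℤ) : IsOp (ZR s t) (BR s t) (ZR (s + 1) (2 * t)) (BR (s + 1) (2 * t))
    (dl s) where
  zero := dl_zero s
  memZ _ h := dl_ZR h
  memB _ h := dl_BR h
  add _ hF _ hG := dl_add hF hG
  le := BR_le _ _

lemma sgOp (s : ℕ) (t : ℤ) : IsOp (ZR s t) (BR s t) (ZR (s + 2) (2 * t)) (BR (s + 2) (2 * t))
    (sg s) where
  zero := sg_zero s
  memZ _ h := sg_ZR h
  memB _ h := sg_BR h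
  add _ hF _ hG := sg_add hF hG
  le := BR_le _ _

/-! ### Squares -/

lemma face_sq (j : ℕ) (F : RR Empty) : fc j (F ^ 2) = fc j F ^ 2 := map_pow _ _ _

lemma sum_sq {α : Type*} (S : Finset α) (F : α → RR Empty) :
    (∑ a ∈ S, F a) ^ 2 = ∑ a ∈ S, F a ^ 2 := by
  classical
  induction S using Finset.induction_on with
  | empty => rw [Finset.sum_empty, Finset.sum_empty, zero_pow two_ne_zero]
  | @insert a S ha ih => rw [Finset.sum_insert ha, Finset.sum_insert ha, sq_add, ih]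

lemma dl_sq (s : ℕ) (F : RR Empty) : dl s (F ^ 2) = dl s F ^ 2 := by
  unfold dl sq1 pr
  rw [sum_sq]
  refine Finset.sum_congr rfl fun j _ => ?_
  rw [sum_sq]
  refine Finset.sum_congr rfl fun i _ => ?_
  beta_reduce
  split_ifs
  · rw [map_pow, map_pow, mul_pow]
  · rw [zero_pow two_ne_zero]

lemma sg_sq (s : ℕ) (F : RR Empty) : sg s (F ^ 2) = sg s F ^ 2 := by
  have h1 : ∀ u v, X2 fc (F ^ 2) u v = X2 fc F u v ^ 2 := by
    intro u v
    unfold X2
    split_ifs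
    · rw [map_pow, map_pow]
    · rw [map_pow, map_pow]
    · rw [zero_pow two_ne_zero]
  have h2 : ∀ i j, FF fc (F ^ 2) i j = FF fc F i j ^ 2 := by
    intro i j
    unfold FF
    rw [sum_sq]
    refine Finset.sum_congr rfl fun u _ => ?_
    rw [sum_sq]
    exact Finset.sum_congr rfl fun v _ => h1 u v
  unfold sg sq2 q0
  rw [sum_sq]
  refine Finset.sum_congr rfl fun k _ => ?_
  rw [sum_sq]
  refine Finset.sum_congr rfl fun m _ => ?_
  rw [h2, h2, mul_pow]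

lemma smul_sq (c : ZMod 2) (F : RR Empty) : (c • F) ^ 2 = c • F ^ 2 := by
  have : c = 0 ∨ c = 1 := by revert c; decide
  rcases this with rfl | rfl
  · rw [zero_smul, zero_smul, zero_pow two_ne_zero]
  · rw [one_smul, one_smul]

/-! ### Index one -/

lemma face_zero (F : RR Empty) : face (fun _ => 0) 0 F = sh 1 F := by
  rw [← sh_zero_face 0 F]
  exact (sh_zero_id _).symm

lemma dl_one {F : RR Empty} (hF : F ∈ lev Empty 2) : dl 1 F = F * sh 1 F := by
  have h1 : face (fun _ : Empty => 0) 2 F = F := face_high _ (n := 1) le_rfl hF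
  unfold dl sq1 pr
  simp only [Finset.sum_range_succ, Finset.sum_range_zero]
  norm_num
  rw [h1, face_zero, mul_comm]

lemma BR_one {t : ℤ} (ht : t ≠ 0) {F : RR Empty} (h : F ∈ BR 1 t) : F = 0 := by
  obtain ⟨G, hG, hw, rfl⟩ := h
  rw [lev_one hG hw ht, map_zero]

/-- The class of a power of two. -/
def ha (a : ℕ) : RR Empty := h0c ^ 2 ^ a

lemma ha_ZR (a : ℕ) : ha a ∈ ZR 1 (2 ^ a) := by
  have h := th_mem_ZR (ha_Zc a)
  have e : th 1 ((xi (0 : Fin 1) 1 : Cobar 1) ^ 2 ^ a) = ha a := by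
    rw [map_pow, th_xi]
    rfl
  rw [e] at h
  push_cast at h
  exact h

lemma ha_ne (a : ℕ) : ha a ≠ 0 := pow_ne_zero _ (X_ne_zero _)

lemma ZR_one {a : ℕ} {F : RR Empty} (h : F ∈ ZR 1 (2 ^ a)) : F = 0 ∨ F = ha a := by
  obtain ⟨h1, h2, h3⟩ := h
  rcases primitive_form h1 h3 (N := 2 ^ a) (by positivity) (by push_cast; exact h2) with
    h | ⟨b, hb, h⟩
  · exact Or.inl h
  · right
    rw [Nat.pow_right_injective le_rfl hb]
    exact h

lemma ZR_one' {M : ℤ} (hM : 0 < M) (h2 : ¬ ∃ b : ℕ, M = 2 ^ b) {F : RR Empty} (h : F ∈ ZR 1 M) :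
    F = 0 := by
  obtain ⟨h1, hw, h3⟩ := h
  obtain ⟨n, rfl⟩ := Int.eq_ofNat_of_zero_le hM.le
  rcases primitive_form h1 h3 (N := n) (by omega) hw with h | ⟨b, hb, h⟩
  · exact h
  · exact absurd ⟨b, by rw [hb]; push_cast; rfl⟩ h2

lemma dl_ha (a : ℕ) : dl 1 (ha a) ∉ BR 2 (2 * 2 ^ a) := by
  intro h
  refine ha_sq a ?_
  rw [← th_mem_BR]
  change th (1 + 1) _ ∈ _
  rw [th_jux]
  have e : th 1 ((xi (0 : Fin 1) 1 : Cobar 1) ^ 2 ^ a) = ha a := by
    rw [map_pow, th_xi]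
    rfl
  rw [e]
  rw [dl_one (ha_ZR a).1] at h
  have e2 : ((2 ^ a + 2 ^ a : ℕ) : ℤ) = 2 * 2 ^ a := by push_cast; ring
  rw [e2]
  exact h

/-! ### Products of consecutive classes -/

/-- The second generator. -/
def x2c : RR Empty := X (Sum.inl (0, 1))

lemma x2c_lev : x2c ∈ lev Empty 2 := by
  rw [mem_lev_succ]
  exact prj_inl_lt (by simp)

lemma x2c_wh : WH wE x2c (0, 3) := by
  have h := isWeightedHomogeneous_X (ZMod 2) wE (Sum.inl (0, 1))
  have e : wE (Sum.inl (0, 1)) = (0, 3) := by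
    change ((0 : ℤ × ℤ), (2 : ℤ) ^ (1 + 1) - 1) = (0, 3)
    norm_num
  rw [e] at h
  exact h

lemma x2c_d : dE 2 x2c = h0c * sh 1 (h0c ^ 2) := by
  have e1 : (gG (ι := Empty) 1 * gG 0).co 2 =
      (gG (ι := Empty) 0).co 2 + (gG (ι := Empty) 1).co 1 ^ 2 * (gG (ι := Empty) 0).co 1 +
      (gG (ι := Empty) 1).co 2 := by
    rw [Pt.co_mul, Finset.Nat.sum_antidiagonal_eq_sum_range_succ_mk]
    simp only [Finset.sum_range_succ, Finset.sum_range_zero, Pt.co_zero]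
    norm_num
  have e2 : dE 2 x2c = (gG (ι := Empty) 1).co 2 + (gG (ι := Empty) 1 * gG 0).co 2 +
      (gG (ι := Empty) 0).co 2 := by
    rw [dR_apply]
    simp only [Finset.sum_range_succ, Finset.sum_range_zero, zero_add]
    unfold x2c
    rw [face_inl, face_inl, face_inl]
    rfl
  have e3 : sh 1 h0c = (gG (ι := Empty) 1).co 1 := by
    unfold h0c
    rw [sh_inl]
    rfl
  have e4 : h0c = (gG (ι := Empty) 0).co 1 := rfl
  rw [e2, e1, map_pow, e3, ← e4]
  have h1 := add_self2 ((gG (ι := Empty) 1).co 2)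
  have h2 := add_self2 ((gG (ι := Empty) 0).co 2)
  linear_combination h1 + h2

lemma h0c_cube_d : dE 2 (h0c ^ 3) = h0c * sh 1 (h0c ^ 2) + h0c ^ 2 * sh 1 h0c := by
  have e0 : face (fun _ : Empty => 0) 0 h0c = sh 1 h0c := face_zero _
  have e2 : face (fun _ : Empty => 0) 2 h0c = h0c := face_high _ (n := 1) le_rfl h0c_lev
  have e1 : face (fun _ : Empty => 0) 1 h0c = sh 1 h0c + h0c := by
    have h := h0c_d
    rw [dR_apply] at h
    simp only [Finset.sum_range_succ, Finset.sum_range_zero, zero_add] at h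
    rw [e0, e2] at h
    have h2 := add_eq_zero2.1 h
    have h3 := add_self2 (sh (ι := Empty) 1 h0c)
    calc face (fun _ : Empty => 0) 1 h0c = sh 1 h0c + (sh 1 h0c +
          face (fun _ : Empty => 0) 1 h0c) := by rw [← add_assoc, h3, zero_add]
      _ = _ := by rw [h2]
  rw [dR_apply]
  simp only [Finset.sum_range_succ, Finset.sum_range_zero, zero_add, map_pow]
  rw [e0, e1, e2]
  have h2 : (2 : RR Empty) = 0 := two_zero
  linear_combination (sh (ι := Empty) 1 h0c ^ 3 + h0c ^ 3 + sh (ι := Empty) 1 h0c ^ 2 * h0c +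
    sh (ι := Empty) 1 h0c * h0c ^ 2) * h2

lemma pow_BR {t : ℤ} {F : RR Empty} {s : ℕ} (h : F ∈ BR s t) (a : ℕ) :
    F ^ 2 ^ a ∈ BR s (2 ^ a * t) := by
  induction a with
  | zero =>
    have e : F ^ 2 ^ 0 = F := by rw [pow_zero, pow_one]
    rw [e, pow_zero, one_mul]
    exact h
  | succ a ih =>
    have e : F ^ 2 ^ (a + 1) = (F ^ 2 ^ a) ^ 2 := by rw [← pow_mul, ← pow_succ]
    have := sq_BR ih
    rw [e, pow_succ, mul_comm ((2 : ℤ) ^ a) 2, mul_assoc]
    exact this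

lemma cons1 (a : ℕ) : ha a * sh 1 (ha a ^ 2) ∈ BR 2 (2 ^ a * 3) := by
  have h : h0c * sh 1 (h0c ^ 2) ∈ BR 2 3 := ⟨x2c, x2c_lev, x2c_wh, x2c_d⟩
  have h1 := pow_BR h a
  rw [mul_pow, ← map_pow, ← pow_mul, mul_comm 2 (2 ^ a), pow_mul] at h1
  exact h1

lemma cons2 (a : ℕ) : ha a ^ 2 * sh 1 (ha a) ∈ BR 2 (2 ^ a * 3) := by
  have h : h0c ^ 2 * sh 1 h0c ∈ BR 2 3 := by
    refine ⟨x2c + h0c ^ 3, Submodule.add_mem _ x2c_lev (lev_pow h0c_lev (by norm_num)),
      x2c_wh.add ?_, ?_⟩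
    · have := h0c_wh.pow 3
      have e : 3 • (((0 : ℤ × ℤ), (1 : ℤ)) : (ℤ × ℤ) × ℤ) = (0, 3) := by
        rw [Prod.smul_mk, smul_zero, nsmul_eq_mul]
        norm_num
      rw [e] at this
      exact this
    · rw [map_add, x2c_d, h0c_cube_d, ← add_assoc, add_self2, zero_add]
  have h1 := pow_BR h a
  rw [mul_pow, ← map_pow, ← pow_mul, mul_comm 2 (2 ^ a), pow_mul] at h1
  exact h1

lemma dl_dl_ha (a : ℕ) : dl 2 (dl 1 (ha a)) ∈ BR 3 (2 * (2 * 2 ^ a)) := by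
  have h1 := ha_ZR a
  have h2 := dl_mul h1 h1
  rw [dl_one h1.1]
  change dl (1 + 1) _ ∈ _
  rw [h2, dl_one h1.1]
  have e1 : ha a * sh 1 (ha a) * sh (1 + 1) (ha a ^ 2) =
      ha a * sh 1 (ha a * sh 1 (ha a ^ 2)) := by
    rw [map_mul, sh_sh]
    ring
  have e2 : ha a ^ 2 * sh 1 (ha a * sh 1 (ha a)) = (ha a ^ 2 * sh 1 (ha a)) * sh 2 (ha a) := by
    rw [map_mul, sh_sh]
    ring
  rw [e1, e2]
  have h3 := mul_BR_left (cons1 a) h1
  have h4 := mul_BR_right h1 (cons2 a)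
  have e3 : (2 : ℤ) ^ a * 3 + 2 ^ a = 2 * (2 * 2 ^ a) := by ring
  have e4 : (2 : ℤ) ^ a + 2 ^ a * 3 = 2 * (2 * 2 ^ a) := by ring
  rw [e3] at h3
  rw [e4] at h4
  exact Submodule.add_mem _ h3 h4

end

end Pool.Agent.Work.MP_701abf_gt.Sq2
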