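import Pool.Agent.Work.MP_701abf_gt.Sq2.Face

/-!
The quadratic operation on cocycles: it commutes with the differential, and it is additive up to
coboundaries.
-/

namespace Pool.Agent.Work.MP_701abf_gt.Sq2

open Finset
open Pool.Agent.Work.MP_701abf_gt.Stab (add_self2)

variable {A : Type*} [CommRing A] [Algebra (ZMod 2) A]

/-! ### Two formal identities -/

lemma gen0 (T : ℕ → ℕ → ℕ → A) (s1 : ∀ a b c, T a b c = T b a c)
    (s2 : ∀ a b c, T a b c = T a c b) (d : ∀ a b, T a b b = 0) (z : ∀ b c, T 0 b c = 0) (N : ℕ) :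
    ∑ w ∈ range N, ∑ k ∈ range N, ∑ m ∈ range k, (if m = w ∨ k = w then 0 else
      (T (w + 1) m (k + 1) + T w m (k + 1)) * (T (w + 1) (m + 1) k + T w (m + 1) k)) =
    ∑ k ∈ range N, ∑ m ∈ range k, T N m (k + 1) * T N (m + 1) k := by
  have d' : ∀ a c, T a a c = 0 := fun a c => by rw [s2, s1, d]
  have s3 : ∀ a b c, T a b c = T c a b := fun a b c => by rw [s2, s1]
  set φ : ℕ → ℕ → ℕ → A := fun m k w => T w m (k + 1) * T w (m + 1) k with hφ
  set h : ℕ → ℕ → ℕ → A := fun w x y => if x = w ∨ y = w ∨ x = y then 0 else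
    T (x + 1) w y * T x (w + 1) (y + 1) with hh
  have key : ∀ w k m, m < k → (if m = w ∨ k = w then 0 else
      (T (w + 1) m (k + 1) + T w m (k + 1)) * (T (w + 1) (m + 1) k + T w (m + 1) k)) =
      (φ m k (w + 1) + φ m k w) + (h w m k + h w k m) := by
    intro w k m hmk
    by_cases h0 : m = w ∨ k = w
    · rw [if_pos h0]
      have e1 : h w m k = 0 := by
        rw [hh]; exact if_pos (by tauto)
      have e2 : h w k m = 0 := by
        rw [hh]; exact if_pos (by tauto)
      rw [e1, e2, add_zero, add_zero]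
      rcases h0 with rfl | rfl
      · rw [hφ]
        simp only
        rw [d', d', mul_zero, zero_mul, add_zero]
      · rw [hφ]
        simp only
        rw [s2 (k + 1) m, d', s2 k (m + 1), d', zero_mul, mul_zero, add_zero]
    · rw [if_neg h0]
      have e1 : h w m k = T (w + 1) m (k + 1) * T w (m + 1) k := by
        rw [hh]
        simp only
        rw [if_neg (by rintro (h1 | h1 | h1) <;> [exact h0 (Or.inl h1); exact h0 (Or.inr h1); omega]),
          s1 (m + 1) w k, s1 m (w + 1) (k + 1), mul_comm]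
      have e2 : h w k m = T w m (k + 1) * T (w + 1) (m + 1) k := by
        rw [hh]
        simp only
        rw [if_neg (by rintro (h1 | h1 | h1) <;> [exact h0 (Or.inr h1); exact h0 (Or.inl h1); omega]),
          ← s3 w m (k + 1), ← s3 (w + 1) (m + 1) k]
      rw [e1, e2, hφ]
      ring
  have e1 : ∀ w ∈ range N, ∑ k ∈ range N, ∑ m ∈ range k, (if m = w ∨ k = w then 0 else
      (T (w + 1) m (k + 1) + T w m (k + 1)) * (T (w + 1) (m + 1) k + T w (m + 1) k)) =
      ∑ k ∈ range N, ∑ m ∈ range k, (φ m k (w + 1) + φ m k w) +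
        ∑ m ∈ range N, ∑ k ∈ range N, h w m k := by
    intro w _
    rw [offdiag (h w) N (fun k => by rw [hh]; exact if_pos (by tauto)), ← sum_add_distrib]
    refine sum_congr rfl fun k _ => ?_
    rw [← sum_add_distrib]
    exact sum_congr rfl fun m hm => key w k m (mem_range.1 hm)
  rw [sum_congr rfl e1, sum_add_distrib]
  have e2 : ∑ w ∈ range N, ∑ m ∈ range N, ∑ k ∈ range N, h w m k = 0 := by
    rw [sum_comm]
    refine sum_eq_zero fun m _ => symm_zero (fun w k => h w m k) N (fun k => ?_) fun i j => ?_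
    · rw [hh]; exact if_pos (by tauto)
    · rw [hh]
      simp only
      by_cases h0 : m = i ∨ j = i ∨ m = j
      · rw [if_pos h0, if_pos (by
          rcases h0 with h0 | h0 | h0
          · exact Or.inr (Or.inr h0)
          · exact Or.inr (Or.inl h0.symm)
          · exact Or.inl h0)]
      · rw [if_neg h0, if_neg (by
          rintro (h1 | h1 | h1)
          · exact h0 (Or.inr (Or.inr h1))
          · exact h0 (Or.inr (Or.inl h1.symm))
          · exact h0 (Or.inl h1)), s2 (m + 1), s2 m]
  rw [e2, add_zero, sum_comm]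
  refine sum_congr rfl fun k _ => ?_
  rw [sum_comm]
  refine sum_congr rfl fun m _ => ?_
  rw [sum_tel (φ m k) N, hφ]
  simp only
  rw [z, z, mul_zero, add_zero]

lemma gen1 (F G : ℕ → ℕ → A) (sF : ∀ a b, F a b = F b a) (sG : ∀ a b, G a b = G b a)
    (dF' : ∀ a, F a a = 0) (dG : ∀ a, G a a = 0) (zF : ∀ b, F 0 b = 0) (N : ℕ)
    (cF : ∀ b < N, F N b = 0) :
    ∑ w ∈ range N, ∑ k ∈ range N, (if k = w then 0 else
      (F (w + 1) k + F w k) * (G (w + 1) (k + 1) + G w (k + 1))) =
    ∑ k ∈ range N, ∑ m ∈ range k,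
      (F m (k + 1) * G (m + 1) k + F (m + 1) k * G m (k + 1)) := by
  set φ : ℕ → ℕ → A := fun k w => F w k * G w (k + 1) with hφ
  set g : ℕ → ℕ → A := fun w k => if k = w then 0 else F (w + 1) k * G w (k + 1) with hg
  set h : ℕ → ℕ → A := fun w k => if k = w then 0 else F w k * G (w + 1) (k + 1) with hh
  have key : ∀ w k, (if k = w then 0 else
      (F (w + 1) k + F w k) * (G (w + 1) (k + 1) + G w (k + 1))) =
      (φ k (w + 1) + φ k w) + (g w k + h w k) := by
    intro w k
    by_cases h0 : k = w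
    · subst h0
      rw [if_pos rfl, hφ, hg, hh]
      simp only [if_true]
      rw [dF', dG, mul_zero, zero_mul, add_zero, add_zero]
    · rw [if_neg h0, hφ, hg, hh]
      simp only
      rw [if_neg h0, if_neg h0]
      ring
  have e0 : ∑ w ∈ range N, ∑ k ∈ range N, (if k = w then 0 else
      (F (w + 1) k + F w k) * (G (w + 1) (k + 1) + G w (k + 1))) =
      ∑ w ∈ range N, ∑ k ∈ range N, (φ k (w + 1) + φ k w) +
        (∑ w ∈ range N, ∑ k ∈ range N, g w k + ∑ w ∈ range N, ∑ k ∈ range N, h w k) := by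
    rw [← sum_add_distrib, ← sum_add_distrib]
    refine sum_congr rfl fun w _ => ?_
    rw [← sum_add_distrib, ← sum_add_distrib]
    exact sum_congr rfl fun k _ => key w k
  have e1 : ∑ w ∈ range N, ∑ k ∈ range N, (φ k (w + 1) + φ k w) = 0 := by
    rw [sum_comm]
    refine sum_eq_zero fun k hk => ?_
    rw [sum_tel (φ k) N, hφ]
    simp only
    rw [cF k (mem_range.1 hk), zF, zero_mul, zero_mul, add_zero]
  have e2 : ∑ w ∈ range N, ∑ k ∈ range N, h w k = 0 := by
    refine symm_zero h N (fun k => by rw [hh]; exact if_pos rfl) fun i j => ?_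
    rw [hh]
    simp only
    by_cases h0 : j = i
    · rw [if_pos h0, if_pos h0.symm]
    · rw [if_neg h0, if_neg (fun h1 => h0 h1.symm), sF i j, sG (i + 1)]
  rw [e0, e1, e2, zero_add, add_zero, offdiag g N (fun k => by rw [hg]; exact if_pos rfl)]
  refine sum_congr rfl fun k _ => sum_congr rfl fun m hm => ?_
  have hm := mem_range.1 hm
  rw [hg]
  simp only
  rw [if_neg (by omega), if_neg (by omega), add_comm, sF (k + 1) m, sG k (m + 1)]

variable {f : ℕ → A →ₐ[ZMod 2] A} {x : A}

/-! ### The differential of the quadratic operation -/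

lemma sup_succ (w m : ℕ) : sup w (m + 1) = skn w m + 1 := by
  unfold sup skn
  split_ifs <;> omega

lemma Y_sup (hf : IsFace f) (w m b : ℕ) :
    TT f x (w + 1) (sup w m) b + TT f x w (sup w m) b =
      TT f x (w + 1) (skn w m) b + TT f x w (skn w m) b := by
  by_cases h : m = w
  · subst h
    have e1 : sup m m = m := by unfold sup; rw [if_pos le_rfl]
    have e2 : skn m m = m + 1 := by unfold skn; rw [if_neg (lt_irrefl _)]
    rw [e1, e2, TT_self hf, TT_self hf, add_zero, zero_add, TT_symm hf]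
  · have e1 : sup w m = skn w m := by unfold sup skn; split_ifs <;> omega
    rw [e1]

lemma Y_sup' (hf : IsFace f) (w m b : ℕ) :
    TT f x (w + 1) b (sup w m) + TT f x w b (sup w m) =
      TT f x (w + 1) b (skn w m) + TT f x w b (skn w m) := by
  rw [TT_symm' (w + 1), TT_symm' w, Y_sup hf, TT_symm' (w + 1), TT_symm' w]

omit [Algebra (ZMod 2) A] in
/-- Reindexing of a sum over pairs. -/
lemma pairs_skn (G : ℕ → ℕ → A) (w N : ℕ) (hw : w ≤ N) :
    ∑ k ∈ range N, ∑ m ∈ range k, G (skn w m) (skn w k) =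
      ∑ k ∈ range (N + 1), ∑ m ∈ range k, (if m = w ∨ k = w then 0 else G m k) := by
  set G' : ℕ → ℕ → A := fun m k => if m = w ∨ k = w then 0 else G m k with hG'
  set H : ℕ → A := fun k => ∑ m ∈ range k, G' m k with hH
  have e0 : H w = 0 := by
    rw [hH]
    exact sum_eq_zero fun m _ => by rw [hG']; exact if_pos (Or.inr rfl)
  have e1 : ∀ k, ∑ m ∈ range k, G (skn w m) (skn w k) = H (skn w k) := by
    intro k
    have e2 : ∀ m, G (skn w m) (skn w k) = G' (skn w m) (skn w k) := by
      intro m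
      rw [hG']
      simp only
      rw [if_neg (by
        have h1 := skn_ne w m
        have h2 := skn_ne w k
        tauto)]
    rw [sum_congr rfl fun m _ => e2 m,
      sum_skn (fun m => G' m (skn w k)) w k (by rw [hG']; exact if_pos (Or.inl rfl))]
    rw [hH]
    simp only
    by_cases h : k = w
    · subst h
      have e3 : sup k k = k := by unfold sup; rw [if_pos le_rfl]
      have e4 : skn k k = k + 1 := by unfold skn; rw [if_neg (lt_irrefl _)]
      rw [e3, e4, sum_range_succ]
      have e5 : G' k (k + 1) = 0 := by rw [hG']; exact if_pos (Or.inl rfl)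
      rw [e5, add_zero]
    · have e3 : sup w k = skn w k := by unfold sup skn; split_ifs <;> omega
      rw [e3]
  rw [sum_congr rfl fun k _ => e1 k, sum_skn1 H w N hw e0]

theorem dF_q0 (hf : IsFace f) (M : ℕ) (x : A) :
    dF f (M + 2) (q0 f (M + 1) x) = q0 f (M + 2) (dF f M x) := by
  have e1 : ∀ w ∈ range (M + 2), f w (q0 f (M + 1) x) =
      ∑ k ∈ range (M + 2), ∑ m ∈ range k, (if m = w ∨ k = w then 0 else
      (TT f x (w + 1) m (k + 1) + TT f x w m (k + 1)) *
        (TT f x (w + 1) (m + 1) k + TT f x w (m + 1) k)) := by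
    intro w hw
    have hw := mem_range.1 hw
    rw [← pairs_skn (fun m k => (TT f x (w + 1) m (k + 1) + TT f x w m (k + 1)) *
        (TT f x (w + 1) (m + 1) k + TT f x w (m + 1) k)) w (M + 1) (by omega)]
    unfold q0
    rw [map_sum]
    refine sum_congr rfl fun k _ => ?_
    rw [map_sum]
    refine sum_congr rfl fun m _ => ?_
    rw [map_mul, f_FF, f_FF, Y_sup hf, Y_sup' hf w k, sup_succ, sup_succ]
  unfold dF
  rw [sum_congr rfl e1, gen0 (TT f x) (TT_symm hf) TT_symm' TT_self' TT_zero (M + 2)]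
  unfold q0
  refine sum_congr rfl fun k hk => sum_congr rfl fun m hm => ?_
  have hk := mem_range.1 hk
  have hm := mem_range.1 hm
  have e2 : ∀ i j, i ≤ M + 2 → j ≤ M + 2 → FF f (∑ a ∈ range M, f a x) i j =
    TT f x (M + 2) i j := fun i j hi hj => FF_dF hf hi hj
  rw [e2 _ _ (by omega) (by omega), e2 _ _ (by omega) (by omega)]

/-- The quadratic operation maps cocycles to cocycles. -/
theorem q0_closed (hf : IsFace f) {M : ℕ} (hx : dF f M x = 0) :
    dF f (M + 2) (q0 f (M + 1) x) = 0 := by
  rw [dF_q0 hf, hx]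
  unfold q0 FF X2
  refine sum_eq_zero fun k _ => sum_eq_zero fun m _ => ?_
  simp only [map_zero, ite_self, sum_const_zero, mul_zero]

/-! ### Additivity -/

/-- The partial sums of the faces. -/
def P1 (f : ℕ → A →ₐ[ZMod 2] A) (x : A) (k : ℕ) : A := ∑ u ∈ range k, f u x

lemma FF_add (x y : A) (i j : ℕ) : FF f (x + y) i j = FF f x i j + FF f y i j := by
  unfold FF
  rw [← sum_add_distrib]
  refine sum_congr rfl fun u _ => ?_
  rw [← sum_add_distrib]
  exact sum_congr rfl fun v _ => X2_add _ _ _ _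

lemma f_P1 (hf : IsFace f) (w i : ℕ) :
    f w (P1 f x i) = FF f x (w + 1) (sup w i) + FF f x w (sup w i) := by
  have h1 : f w (P1 f x i) = ∑ v ∈ range (sup w i), X2 f x w v := by
    unfold P1
    rw [map_sum, ← sum_skn (fun v => X2 f x w v) w i (X2_self w)]
    exact sum_congr rfl fun v _ => f_f hf _ _
  have h2 : FF f x (w + 1) (sup w i) = FF f x w (sup w i) +
      ∑ v ∈ range (sup w i), X2 f x w v := by
    unfold FF
    rw [sum_range_succ]
  rw [h1, h2, add_right_comm, add_self2, zero_add]

lemma FF_closed (hf : IsFace f) {M : ℕ} (hx : dF f M x = 0) {j : ℕ} (hj : j ≤ M + 1) :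
    FF f x (M + 1) j = 0 := by
  rw [FF_symm]
  unfold FF
  refine sum_eq_zero fun u hu => ?_
  have hu := mem_range.1 hu
  have h1 := congrArg (f u) hx
  unfold dF at h1
  rw [map_sum, map_zero, sum_congr rfl fun a _ => f_f hf u a,
    sum_skn1 (fun v => X2 f x u v) u M (by omega) (X2_self u)] at h1
  exact h1

/-- The correction term for additivity. -/
def cup1 (f : ℕ → A →ₐ[ZMod 2] A) (M : ℕ) (x y : A) : A :=
  ∑ k ∈ range M, P1 f x k * P1 f y (k + 1)

lemma R_sup (w k b : ℕ) (h : b = sup w k) :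
    FF f x (w + 1) b + FF f x w b = FF f x (w + 1) (skn w k) + FF f x w (skn w k) := by
  subst h
  by_cases h : k = w
  · subst h
    have e1 : sup k k = k := by unfold sup; rw [if_pos le_rfl]
    have e2 : skn k k = k + 1 := by unfold skn; rw [if_neg (lt_irrefl _)]
    rw [e1, e2, FF_self, FF_self, add_zero, zero_add, FF_symm]
  · have e1 : sup w k = skn w k := by unfold sup skn; split_ifs <;> omega
    rw [e1]

/-- The quadratic operation is additive on cocycles up to an explicit coboundary. -/
theorem q0_add (hf : IsFace f) {M : ℕ} {x : A} (hx : dF f M x = 0) (y : A) :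
    q0 f (M + 1) (x + y) = q0 f (M + 1) x + q0 f (M + 1) y + dF f (M + 1) (cup1 f M x y) := by
  have e1 : ∀ w ∈ range (M + 1), f w (cup1 f M x y) =
      ∑ k ∈ range (M + 1), (if k = w then 0 else
        (FF f x (w + 1) k + FF f x w k) * (FF f y (w + 1) (k + 1) + FF f y w (k + 1))) := by
    intro w hw
    have hw := mem_range.1 hw
    rw [← sum_skn1 (fun k => if k = w then 0 else
        (FF f x (w + 1) k + FF f x w k) * (FF f y (w + 1) (k + 1) + FF f y w (k + 1))) w M
        (by omega) (if_pos rfl)]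
    unfold cup1
    rw [map_sum]
    refine sum_congr rfl fun k _ => ?_
    rw [map_mul, f_P1 hf, f_P1 hf, R_sup w k _ rfl, sup_succ, if_neg (skn_ne w k)]
  have e2 : dF f (M + 1) (cup1 f M x y) = ∑ k ∈ range (M + 1), ∑ m ∈ range k,
      (FF f x m (k + 1) * FF f y (m + 1) k + FF f x (m + 1) k * FF f y m (k + 1)) := by
    unfold dF
    rw [sum_congr rfl e1]
    exact gen1 (FF f x) (FF f y) FF_symm FF_symm FF_self FF_self FF_zero (M + 1)
      fun b hb => FF_closed hf hx (by omega)
  rw [e2]
  unfold q0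
  rw [← sum_add_distrib, ← sum_add_distrib]
  refine sum_congr rfl fun k _ => ?_
  rw [← sum_add_distrib, ← sum_add_distrib]
  refine sum_congr rfl fun m _ => ?_
  rw [FF_add, FF_add]
  ring

end Pool.Agent.Work.MP_701abf_gt.Sq2
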