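import Pool.Agent.Work.MP_701abf_gt.Sq2.Mat

/-!
Propagation of the injectivity and exactness properties of the two operations.
-/

open MvPolynomial
open Pool.Agent.Work.MP_701abf_gt.Stab Pool.Agent.Work.MP_701abf_gt.Cob

namespace Pool.Agent.Work.MP_701abf_gt.Sq2

noncomputable section

set_option linter.unusedSectionVars false

/-! ### The properties -/

/-- vanishing below `κ` -/
def V0 (κ : ℕ) (t : ℤ) : Prop := ∀ k < κ, ZR k t ≤ BR k t
/-- `dl` is injective in index `κ` -/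
def A0 (κ : ℕ) (t : ℤ) : Prop := ∀ u ∈ ZR κ t, dl κ u ∈ BR (κ + 1) (2 * t) → u ∈ BR κ t
/-- `sg` is injective in index `κ` -/
def C0 (κ : ℕ) (t : ℤ) : Prop := ∀ u ∈ ZR κ t, sg κ u ∈ BR (κ + 2) (2 * t) → u ∈ BR κ t
/-- the joint property in index `κ + 1` -/
def D1 (κ : ℕ) (t : ℤ) : Prop := ∀ u ∈ ZR (κ + 1) t, ∀ v ∈ ZR κ t,
  sg (κ + 1) u ∈ BR (κ + 3) (2 * t) → dl (κ + 1) u + sg κ v ∈ BR (κ + 2) (2 * t) →
  u ∈ BR (κ + 1) t ∧ v ∈ BR κ t
/-- `sg` is injective in index `κ + 1` -/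
def C1 (κ : ℕ) (t : ℤ) : Prop := ∀ u ∈ ZR (κ + 1) t, sg (κ + 1) u ∈ BR (κ + 3) (2 * t) →
  u ∈ BR (κ + 1) t
/-- `dl` and `sg` are jointly injective in index `κ + 2` -/
def B2 (κ : ℕ) (t : ℤ) : Prop := ∀ u ∈ ZR (κ + 2) t, dl (κ + 2) u ∈ BR (κ + 3) (2 * t) →
  sg (κ + 2) u ∈ BR (κ + 4) (2 * t) → u ∈ BR (κ + 2) t
/-- exactness in index `κ + 1` -/
def X1 (κ : ℕ) (t : ℤ) : Prop := ∀ u ∈ ZR (κ + 1) t, dl (κ + 1) u ∈ BR (κ + 2) (2 * t) →
  ∃ v ∈ ZR κ t, dl κ v + u ^ 2 ∈ BR (κ + 1) (2 * t)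
/-- exactness in index `κ + 2` -/
def X2e (κ : ℕ) (t : ℤ) : Prop := ∀ u ∈ ZR (κ + 2) t, dl (κ + 2) u ∈ BR (κ + 3) (2 * t) →
  ∃ v ∈ ZR (κ + 1) t, dl (κ + 1) v + u ^ 2 ∈ BR (κ + 2) (2 * t)
/-- injectivity of the square up to index `n` -/
def Gi (n : ℕ) (t : ℤ) : Prop := ∀ k ≤ n, ∀ u ∈ ZR k t, u ^ 2 ∈ BR k (2 * t) → u ∈ BR k t

variable {Λ : Type} [Fintype Λ] {d : Λ → ℕ} {w : Λ → RR Empty} {cD cS : Λ → Λ → ZMod 2}
  {N M : ℤ} {n : ℕ}

lemma BR_cancel {s : ℕ} {t : ℤ} {F G : RR Empty} (h1 : F + G ∈ BR s t) (h2 : G ∈ BR s t) :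
    F ∈ BR s t := by
  have := Submodule.add_mem _ h1 h2
  rwa [add_add_self2] at this

lemma BR_cancel' {s : ℕ} {t : ℤ} {F G : RR Empty} (h1 : F + G ∈ BR s t) (h2 : F ∈ BR s t) :
    G ∈ BR s t := BR_cancel (by rwa [add_comm] at h1) h2

lemma coords_D (K : KF n N M d w cD cS) {s : ℕ} (hs : s + 1 ≤ n) {x : RR Empty}
    (hx : x ∈ ZR s (N + M)) {u : Λ → RR Empty} (hu : Fm d s N u)
    (e : x + Sm d w u ∈ BR s (N + M)) (h : dl s x ∈ BR (s + 1) (2 * (N + M))) {m : Λ} {k : ℕ}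
    (hk : k + d m = s + 1) : Df d cD s u m ∈ BR k (2 * N) := by
  have h1 := (dlOp s (N + M)).congr hx e
  have h2 := BR_cancel' h1 h
  have h3 := BR_cancel' (Sm_dl K hs hu) h2
  have h4 := Df_Fm K.cD_deg hu
  have h5 := K.inj (s + 1) hs _ h4.1 h4.2 (by
    rw [show 2 * N + 2 * M = 2 * (N + M) by ring]
    exact h3) m (by omega)
  rwa [show s + 1 - d m = k by omega] at h5

lemma coords_S (K : KF n N M d w cD cS) {s : ℕ} (hs : s + 2 ≤ n) {x : RR Empty}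
    (hx : x ∈ ZR s (N + M)) {u : Λ → RR Empty} (hu : Fm d s N u)
    (e : x + Sm d w u ∈ BR s (N + M)) (h : sg s x ∈ BR (s + 2) (2 * (N + M))) {m : Λ} {k : ℕ}
    (hk : k + d m = s + 2) : Sf d cD cS s u m ∈ BR k (2 * N) := by
  have h1 := (sgOp s (N + M)).congr hx e
  have h2 := BR_cancel' h1 h
  have h3 := BR_cancel' (Sm_sg K hs hu) h2
  have h4 := Sf_Fm K.cD_deg K.cS_deg hu
  have h5 := K.inj (s + 2) hs _ h4.1 h4.2 (by
    rw [show 2 * N + 2 * M = 2 * (N + M) by ring]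
    exact h3) m (by omega)
  rwa [show s + 2 - d m = k by omega] at h5

lemma coords_DS (K : KF n N M d w cD cS) {s : ℕ} (hs : s + 2 ≤ n) {x y : RR Empty}
    (hx : x ∈ ZR (s + 1) (N + M)) (hy : y ∈ ZR s (N + M)) {u v : Λ → RR Empty}
    (hu : Fm d (s + 1) N u) (hv : Fm d s N v)
    (e : x + Sm d w u ∈ BR (s + 1) (N + M)) (e' : y + Sm d w v ∈ BR s (N + M))
    (h : dl (s + 1) x + sg s y ∈ BR (s + 2) (2 * (N + M))) {m : Λ} {k : ℕ}
    (hk : k + d m = s + 2) : Df d cD (s + 1) u m + Sf d cD cS s v m ∈ BR k (2 * N) := by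
  have h1 := (dlOp (s + 1) (N + M)).congr hx e
  have h1' := (sgOp s (N + M)).congr hy e'
  have h2 := Sm_dl K (s := s + 1) hs hu
  have h2' := Sm_sg K hs hv
  have h3 : Sm d (fun l => w l ^ 2) (Df d cD (s + 1) u) +
      Sm d (fun l => w l ^ 2) (Sf d cD cS s v) ∈ BR (s + 2) (2 * (N + M)) := by
    have h4 := Submodule.add_mem _ (Submodule.add_mem _ (Submodule.add_mem _ h1 h1')
      (Submodule.add_mem _ h2 h2')) h
    refine mem_of_eq h4 ?_
    have a1 := add_self2 (dl (s + 1) x)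
    have a2 := add_self2 (sg s y)
    have a3 := add_self2 (dl (s + 1) (Sm d w u))
    have a4 := add_self2 (sg s (Sm d w v))
    calc _ = Sm d (fun l => w l ^ 2) (Df d cD (s + 1) u) +
          Sm d (fun l => w l ^ 2) (Sf d cD cS s v) + (dl (s + 1) x + dl (s + 1) x) +
          (sg s y + sg s y) + (dl (s + 1) (Sm d w u) + dl (s + 1) (Sm d w u)) +
          (sg s (Sm d w v) + sg s (Sm d w v)) := by abel
      _ = _ := by rw [a1, a2, a3, a4, add_zero, add_zero, add_zero, add_zero]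
  rw [← Sm_add] at h3
  have h4 := Df_Fm K.cD_deg hu
  have h4' := Sf_Fm K.cD_deg K.cS_deg hv
  have h5 := K.inj (s + 2) hs (fun l => Df d cD (s + 1) u l + Sf d cD cS s v l)
    (fun l hl => Submodule.add_mem _ (h4.1 l hl) (h4'.1 l hl))
    (fun l hl => by
      have a1 : Df d cD (s + 1) u l = 0 := h4.2 l hl
      have a2 : Sf d cD cS s v l = 0 := h4'.2 l hl
      beta_reduce
      rw [a1, a2, add_zero]) (by
    rw [show 2 * N + 2 * M = 2 * (N + M) by ring]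
    exact h3) m (by omega)
  rwa [show s + 2 - d m = k by omega] at h5

/-- Coordinates of small index. -/
lemma small {κ : ℕ} (hV : V0 κ N) {s : ℕ} {u : Λ → RR Empty} (hu : Fm d s N u) {l : Λ}
    {k : ℕ} (hk : k + d l = s) (hk' : k < κ) : u l ∈ BR k N := hV k hk' (hu.mem hk)

lemma small_dl {κ : ℕ} (hV : V0 κ N) {s : ℕ} {u : Λ → RR Empty} (hu : Fm d s N u) {l : Λ}
    {k : ℕ} (hk : k + d l = s + 1) (hk' : k ≤ κ) : dl' d s u l ∈ BR k (2 * N) := by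
  by_cases h1 : d l ≤ s
  · obtain ⟨k', rfl⟩ : ∃ k', k = k' + 1 := ⟨k - 1, by omega⟩
    rw [dl'_eq (k := k') (by omega)]
    exact dl_BR (small hV hu (by omega) (by omega))
  · rw [dl'_gt (by omega)]
    exact Submodule.zero_mem _

lemma small_sg {κ : ℕ} (hV : V0 κ N) {s : ℕ} {u : Λ → RR Empty} (hu : Fm d s N u) {l : Λ}
    {k : ℕ} (hk : k + d l = s + 2) (hk' : k ≤ κ + 1) : sg' d s u l ∈ BR k (2 * N) := by
  by_cases h1 : d l ≤ s
  · obtain ⟨k', rfl⟩ : ∃ k', k = k' + 2 := ⟨k - 2, by omega⟩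
    rw [sg'_eq (k := k') (by omega)]
    exact sg_BR (small hV hu (by omega) (by omega))
  · rw [sg'_gt (by omega)]
    exact Submodule.zero_mem _

/-- The conclusion from the coordinates. -/
lemma concl (K : KF n N M d w cD cS) {s : ℕ} {x : RR Empty} {u : Λ → RR Empty}
    (hu : Fm d s N u) (e : x + Sm d w u ∈ BR s (N + M))
    (h : ∀ l k, k + d l = s → u l ∈ BR k N) : x ∈ BR s (N + M) :=
  BR_cancel e (Sm_BR K.w_mem hu fun l hl => h l _ (by omega))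

/-! ### Evaluation of the sums -/

lemma sumD_one (K : KF n N M d w cD cS) (F : Λ → RR Empty) {m : Λ} (h : d m ≤ 1) :
    ∑ l, cD l m • F l = 0 := by
  refine Finset.sum_eq_zero fun l _ => ?_
  by_cases h0 : cD l m = 0
  · rw [h0, zero_smul]
  · have h1 := K.cD_deg l m h0
    have h2 := K.d_pos l
    omega

lemma sumS_two (K : KF n N M d w cD cS) (F : Λ → RR Empty) {m : Λ} (h : d m ≤ 2) :
    ∑ l, cS l m • F l = 0 := by
  refine Finset.sum_eq_zero fun l _ => ?_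
  by_cases h0 : cS l m = 0
  · rw [h0, zero_smul]
  · have h1 := K.cS_deg l m h0
    have h2 := K.d_pos l
    omega

lemma sumD_two_cl (K : KF n N M d w cD cS) (hc : ∀ l, d l ≠ 1) (F : Λ → RR Empty) {m : Λ}
    (h : d m ≤ 2) : ∑ l, cD l m • F l = 0 := by
  refine Finset.sum_eq_zero fun l _ => ?_
  by_cases h0 : cD l m = 0
  · rw [h0, zero_smul]
  · have h1 := K.cD_deg l m h0
    have h2 := K.d_pos l
    have h3 := hc l
    omega

lemma sumD_two_sg (K : KF n N M d w cD cS) {l0 : Λ} (hl : ∀ l, d l = 1 → l = l0)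
    (F : Λ → RR Empty) {m : Λ} (h : d m = 2) : ∑ l, cD l m • F l = cD l0 m • F l0 := by
  refine Finset.sum_eq_single l0 (fun l _ hl' => ?_) fun h => absurd (Finset.mem_univ _) h
  by_cases h0 : cD l m = 0
  · rw [h0, zero_smul]
  · have h1 := K.cD_deg l m h0
    exact absurd (hl l (by omega)) hl'

end

end Pool.Agent.Work.MP_701abf_gt.Sq2
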