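import Pool.Agent.Work.MP_701abf_gt.Sq2.Step

/-!
Propagation: the steps which add an arbitrary cluster.
-/

open MvPolynomial
open Pool.Agent.Work.MP_701abf_gt.Stab Pool.Agent.Work.MP_701abf_gt.Cob

namespace Pool.Agent.Work.MP_701abf_gt.Sq2

noncomputable section

variable {Λ : Type} [Fintype Λ] {d : Λ → ℕ} {w : Λ → RR Empty} {cD cS : Λ → Λ → ZMod 2}
  {N M : ℤ} {n κ : ℕ}

lemma V0_step (K : KF n N M d w cD cS) (hV : V0 κ N) (hn : κ ≤ n) : V0 (κ + 1) (N + M) := by
  intro k hk x hx
  obtain ⟨u, hu1, hu2, e⟩ := K.surj k (by omega) x hx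
  refine concl K ⟨hu1, hu2⟩ e fun l k' hk' => ?_
  have := K.d_pos l
  exact small hV ⟨hu1, hu2⟩ hk' (by omega)

lemma V0_cl (K : KF n N M d w cD cS) (hc : ∀ l, d l ≠ 1) (hV : V0 κ N) (hn : κ + 1 ≤ n) :
    V0 (κ + 2) (N + M) := by
  intro k hk x hx
  obtain ⟨u, hu1, hu2, e⟩ := K.surj k (by omega) x hx
  refine concl K ⟨hu1, hu2⟩ e fun l k' hk' => ?_
  have := K.d_pos l
  have := hc l
  exact small hV ⟨hu1, hu2⟩ hk' (by omega)

lemma A0_cl (K : KF n N M d w cD cS) (hc : ∀ l, d l ≠ 1) (hV : V0 κ N) (hn : κ + 1 ≤ n) :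
    A0 (κ + 1) (N + M) := fun x hx _ => V0_cl K hc hV hn (κ + 1) (by omega) hx

lemma C0_cl (K : KF n N M d w cD cS) (hc : ∀ l, d l ≠ 1) (hV : V0 κ N) (hn : κ + 1 ≤ n) :
    C0 (κ + 1) (N + M) := fun x hx _ => V0_cl K hc hV hn (κ + 1) (by omega) hx

lemma C1_cl (K : KF n N M d w cD cS) (hc : ∀ l, d l ≠ 1) (hV : V0 κ N) (hC : C0 κ N)
    (hn : κ + 4 ≤ n) : C1 (κ + 1) (N + M) := by
  intro x hx hs
  obtain ⟨u, hu1, hu2, e⟩ := K.surj (κ + 2) (by omega) x hx
  have hu : Fm d (κ + 2) N u := ⟨hu1, hu2⟩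
  refine concl K hu e fun l k hk => ?_
  have h1 := K.d_pos l
  have h2 := hc l
  by_cases h3 : d l = 2
  · obtain rfl : k = κ := by omega
    refine hC _ (hu.mem hk) ?_
    have h4 := coords_S K (s := k + 2) (by omega) hx hu e hs (m := l) (k := k + 2) (by omega)
    unfold Sf at h4
    rw [sumD_two_cl K hc _ (by omega), sumS_two K _ (by omega), add_zero, add_zero,
      sg'_eq hk] at h4
    exact h4
  · exact small hV hu hk (by omega)

lemma D1_cl (K : KF n N M d w cD cS) (hc : ∀ l, d l ≠ 1) (hV : V0 κ N) (hC : C0 κ N)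
    (hn : κ + 4 ≤ n) : D1 (κ + 1) (N + M) := fun x hx y hy hs _ =>
  ⟨C1_cl K hc hV hC hn x hx hs, V0_cl K hc hV (by omega) (κ + 1) (by omega) hy⟩

lemma B2_cl (K : KF n N M d w cD cS) (hc : ∀ l, d l ≠ 1) (hV : V0 κ N) (hC : C1 κ N)
    (hA : A0 κ N) (hn : κ + 5 ≤ n) : B2 (κ + 1) (N + M) := by
  intro x hx hd hs
  obtain ⟨u, hu1, hu2, e⟩ := K.surj (κ + 3) (by omega) x hx
  have hu : Fm d (κ + 3) N u := ⟨hu1, hu2⟩
  have key2 : ∀ l, d l = 2 → u l ∈ BR (κ + 1) N := by
    intro l h3
    refine hC _ (hu.mem (by omega)) ?_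
    have h4 := coords_S K (s := κ + 3) (by omega) hx hu e hs (m := l) (k := κ + 3) (by omega)
    unfold Sf at h4
    rw [sumD_two_cl K hc _ (by omega), sumS_two K _ (by omega), add_zero, add_zero,
      sg'_eq (k := κ + 1) (by omega)] at h4
    exact h4
  refine concl K hu e fun l k hk => ?_
  have h1 := K.d_pos l
  have h2 := hc l
  by_cases h3 : d l = 2
  · obtain rfl : k = κ + 1 := by omega
    exact key2 l h3
  by_cases h3' : d l = 3
  · obtain rfl : k = κ := by omega
    refine hA _ (hu.mem hk) ?_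
    have h4 := coords_D K (s := k + 3) (by omega) hx hu e hd (m := l) (k := k + 1) (by omega)
    unfold Df at h4
    rw [dl'_eq hk] at h4
    refine BR_cancel h4 (Submodule.sum_mem _ fun l' _ => ?_)
    by_cases h0 : cD l' l = 0
    · rw [h0, zero_smul]
      exact Submodule.zero_mem _
    · have h5 := K.cD_deg l' l h0
      exact Submodule.smul_mem _ _ (sq_BR (key2 l' (by omega)))
  · exact small hV hu hk (by omega)

lemma X1_cl (K : KF n N M d w cD cS) (hc : ∀ l, d l ≠ 1) (hV : V0 κ N) (hA : A0 κ N)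
    (hn : κ + 3 ≤ n) : X1 (κ + 1) (N + M) := by
  intro x hx hd
  obtain ⟨u, hu1, hu2, e⟩ := K.surj (κ + 2) (by omega) x hx
  have hu : Fm d (κ + 2) N u := ⟨hu1, hu2⟩
  have h0 : x ∈ BR (κ + 2) (N + M) := by
    refine concl K hu e fun l k hk => ?_
    have h1 := K.d_pos l
    have h2 := hc l
    by_cases h3 : d l = 2
    · obtain rfl : k = κ := by omega
      refine hA _ (hu.mem hk) ?_
      have h4 := coords_D K (s := k + 2) (by omega) hx hu e hd (m := l) (k := k + 1) (by omega)
      unfold Df at h4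
      rw [sumD_two_cl K hc _ (by omega), add_zero, dl'_eq hk] at h4
      exact h4
    · exact small hV hu hk (by omega)
  refine ⟨0, Submodule.zero_mem _, ?_⟩
  rw [dl_zero, zero_add]
  exact sq_BR h0

/-- The final argument for exactness. -/
lemma exact_of (K : KF n N M d w cD cS) {s : ℕ} (hs : s + 2 ≤ n) {x : RR Empty}
    (hx : x ∈ ZR (s + 1) (N + M)) {u y : Λ → RR Empty} (hu : Fm d (s + 1) N u)
    (e : x + Sm d w u ∈ BR (s + 1) (N + M)) (hy : Fm d s N y)
    (h : ∀ l k, k + d l = s + 1 → Df d cD s y l + u l ^ 2 ∈ BR k (2 * N)) :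
    ∃ v ∈ ZR s (N + M), dl s v + x ^ 2 ∈ BR (s + 1) (2 * (N + M)) := by
  refine ⟨Sm d w y, Sm_mem K.w_mem hy, ?_⟩
  have h1 := Sm_dl K (s := s) (by omega) hy
  have h2 : x ^ 2 + (Sm d w u) ^ 2 ∈ BR (s + 1) (2 * (N + M)) :=
    (sqOp (s + 1) (N + M)).congr hx e
  rw [Sm_sq] at h2
  have h3 := Df_Fm K.cD_deg hy
  have h4 : Sm d (fun l => w l ^ 2) (fun l => Df d cD s y l + u l ^ 2) ∈
      BR (s + 1) (2 * N + 2 * M) := by
    refine Sm_BR (fun l => sq_ZR (K.w_mem l)) (s := s + 1)
      ⟨fun l hl => Submodule.add_mem _ (h3.1 l hl) (sq_ZR (hu.1 l hl)), fun l hl => ?_⟩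
      fun l hl => h l _ (by omega)
    have a1 : Df d cD s y l = 0 := h3.2 l hl
    have a2 : u l = 0 := hu.2 l hl
    beta_reduce
    rw [a1, a2, zero_pow two_ne_zero, add_zero]
  rw [Sm_add, show 2 * N + 2 * M = 2 * (N + M) by ring] at h4
  have h5 := Submodule.add_mem _ (Submodule.add_mem _ h1 h2) h4
  refine mem_of_eq h5 ?_
  have b1 := add_self2 (Sm d (fun l => w l ^ 2) (Df d cD s y))
  have b2 := add_self2 (Sm d (fun l => w l ^ 2) (fun l => u l ^ 2))
  calc _ = dl s (Sm d w y) + x ^ 2 + (Sm d (fun l => w l ^ 2) (Df d cD s y) +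
        Sm d (fun l => w l ^ 2) (Df d cD s y)) +
        (Sm d (fun l => w l ^ 2) (fun l => u l ^ 2) +
          Sm d (fun l => w l ^ 2) (fun l => u l ^ 2)) := by abel
    _ = _ := by rw [b1, b2, add_zero, add_zero]

lemma X2_cl (K : KF n N M d w cD cS) (hc : ∀ l, d l ≠ 1) (hV : V0 κ N) (hA : A0 κ N)
    (hX : X1 κ N) (hn : κ + 4 ≤ n) : X2e (κ + 1) (N + M) := by
  intro x hx hd
  obtain ⟨u, hu1, hu2, e⟩ := K.surj (κ + 3) (by omega) x hx
  have hu : Fm d (κ + 3) N u := ⟨hu1, hu2⟩
  have key2 : ∀ l, ∃ z, d l = 2 → (z ∈ ZR κ N ∧ dl κ z + u l ^ 2 ∈ BR (κ + 1) (2 * N)) := by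
    intro l
    by_cases h3 : d l = 2
    · have h4 := coords_D K (s := κ + 3) (by omega) hx hu e hd (m := l) (k := κ + 2) (by omega)
      unfold Df at h4
      rw [sumD_two_cl K hc _ (by omega), add_zero, dl'_eq (k := κ + 1) (by omega)] at h4
      obtain ⟨z, hz, hz'⟩ := hX _ (hu.mem (l := l) (k := κ + 1) (by omega)) h4
      exact ⟨z, fun _ => ⟨hz, hz'⟩⟩
    · exact ⟨0, fun h => absurd h h3⟩
  choose z hz using key2
  set y : Λ → RR Empty := fun l => if d l = 2 then z l else 0 with hy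
  have hy2 : ∀ l, d l = 2 → y l = z l := fun l hl => by rw [hy]; exact if_pos hl
  have hy0 : ∀ l, d l ≠ 2 → y l = 0 := fun l hl => by rw [hy]; exact if_neg hl
  have hyF : Fm d (κ + 2) N y := by
    refine ⟨fun l hl => ?_, fun l hl => hy0 l (by omega)⟩
    by_cases h : d l = 2
    · rw [hy2 l h, h, Nat.add_sub_cancel]
      exact (hz l h).1
    · rw [hy0 l h]
      exact Submodule.zero_mem _
  refine exact_of K (by omega) hx hu e hyF fun l k hk => ?_
  have h1 := K.d_pos l
  have h2 := hc l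
  by_cases h3 : d l = 2
  · obtain rfl : k = κ + 1 := by omega
    unfold Df
    rw [sumD_two_cl K hc _ (by omega), add_zero, dl'_eq (k := κ) (by omega), hy2 l h3]
    exact (hz l h3).2
  · have e1 : dl' d (κ + 2) y l = 0 := by
      unfold dl'
      rw [hy0 l h3, dl_zero, ite_self]
    unfold Df
    rw [e1, zero_add]
    by_cases h3' : d l = 3
    · obtain rfl : k = κ := by omega
      have e2 : ∑ l', cD l' l • y l' ^ 2 + u l ^ 2 = (u l + ∑ l', cD l' l • y l') ^ 2 := by
        rw [sq_add, sum_sq, add_comm]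
        congr 1
        exact Finset.sum_congr rfl fun l' _ => (smul_sq _ _).symm
      rw [e2]
      refine sq_BR (hA _ ?_ ?_)
      · refine Submodule.add_mem _ (hu.mem (by omega)) (Submodule.sum_mem _ fun l' _ => ?_)
        by_cases h0 : cD l' l = 0
        · rw [h0, zero_smul]
          exact Submodule.zero_mem _
        · have h5 := K.cD_deg l' l h0
          rw [hy2 l' (by omega)]
          exact Submodule.smul_mem _ _ (hz l' (by omega)).1
      · have hm : ∀ l', cD l' l • y l' ∈ ZR k N := by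
          intro l'
          by_cases h0 : cD l' l = 0
          · rw [h0, zero_smul]
            exact Submodule.zero_mem _
          · have h5 := K.cD_deg l' l h0
            rw [hy2 l' (by omega)]
            exact Submodule.smul_mem _ _ (hz l' (by omega)).1
        have a1 := (dlOp k N).add (u l) (hu.mem (by omega)) (∑ l', cD l' l • y l')
          (Submodule.sum_mem _ fun l' _ => hm l')
        have a2 := (dlOp k N).sum Finset.univ (fun l' => cD l' l • y l') fun l' _ => hm l'
        have a3 := coords_D K (s := k + 3) (by omega) hx hu e hd (m := l) (k := k + 1)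
          (by omega)
        unfold Df at a3
        rw [dl'_eq (k := k) (by omega)] at a3
        have a4 : ∑ l', (dl k (cD l' l • y l') + cD l' l • u l' ^ 2) ∈ BR (k + 1) (2 * N) := by
          refine Submodule.sum_mem _ fun l' _ => ?_
          rw [(dlOp k N).smul, ← smul_add]
          by_cases h0 : cD l' l = 0
          · rw [h0, zero_smul]
            exact Submodule.zero_mem _
          · have h5 := K.cD_deg l' l h0
            rw [hy2 l' (by omega)]
            exact Submodule.smul_mem _ _ (hz l' (by omega)).2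
        rw [Finset.sum_add_distrib] at a4
        have a5 := Submodule.add_mem _ (Submodule.add_mem _ a1 a2) (Submodule.add_mem _ a3 a4)
        refine mem_of_eq a5 ?_
        have b1 := add_self2 (dl k (u l))
        have b2 := add_self2 (dl k (∑ l', cD l' l • y l'))
        have b3 := add_self2 (∑ l', dl k (cD l' l • y l'))
        have b4 := add_self2 (∑ l', cD l' l • u l' ^ 2)
        calc _ = dl k (u l + ∑ l', cD l' l • y l') + (dl k (u l) + dl k (u l)) +
              (dl k (∑ l', cD l' l • y l') + dl k (∑ l', cD l' l • y l')) +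
              (∑ l', dl k (cD l' l • y l') + ∑ l', dl k (cD l' l • y l')) +
              (∑ l', cD l' l • u l' ^ 2 + ∑ l', cD l' l • u l' ^ 2) := by abel
          _ = _ := by rw [b1, b2, b3, b4, add_zero, add_zero, add_zero, add_zero]
    · have e2 : ∑ l', cD l' l • y l' ^ 2 = 0 := by
        refine Finset.sum_eq_zero fun l' _ => ?_
        by_cases h0 : cD l' l = 0
        · rw [h0, zero_smul]
        · have h5 := K.cD_deg l' l h0
          rw [hy0 l' (by omega), zero_pow two_ne_zero, smul_zero]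
      rw [e2, zero_add]
      exact sq_BR (small hV hu hk (by omega))

end

end Pool.Agent.Work.MP_701abf_gt.Sq2
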