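import Pool.Agent.Work.MP_701abf_gt.Sq2.StepCl

/-!
Propagation: the steps which add a power of two.
-/

open MvPolynomial
open Pool.Agent.Work.MP_701abf_gt.Stab Pool.Agent.Work.MP_701abf_gt.Cob

namespace Pool.Agent.Work.MP_701abf_gt.Sq2

noncomputable section

variable {Λ : Type} [Fintype Λ] {d : Λ → ℕ} {w : Λ → RR Empty} {cD cS : Λ → Λ → ZMod 2}
  {N M : ℤ} {n κ : ℕ}

lemma D1.C0 {t : ℤ} (h : D1 κ t) : C0 κ t := by
  intro v hv hs
  refine (h 0 (Submodule.zero_mem _) v hv ?_ ?_).2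
  · rw [sg_zero]
    exact Submodule.zero_mem _
  · rw [dl_zero, zero_add]
    exact hs

lemma A0_sg (K : KF n N M d w cD cS) {l0 m0 : Λ} (h0 : d l0 = 1) (hl : ∀ l, d l = 1 → l = l0)
    (hm : cD l0 m0 = 1) (hV : V0 κ N) (hG : Gi n N) (hn : κ + 2 ≤ n) : A0 (κ + 1) (N + M) := by
  intro x hx hd
  obtain ⟨u, hu1, hu2, e⟩ := K.surj (κ + 1) (by omega) x hx
  have hu : Fm d (κ + 1) N u := ⟨hu1, hu2⟩
  have hm0 : d m0 = 2 := by
    have := K.cD_deg l0 m0 (by rw [hm]; exact one_ne_zero)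
    omega
  have h4 := coords_D K (s := κ + 1) (by omega) hx hu e hd (m := m0) (k := κ) (by omega)
  unfold Df at h4
  rw [sumD_two_sg K hl _ hm0, hm, one_smul] at h4
  have h5 := BR_cancel' h4 (small_dl hV hu (by omega) le_rfl)
  have h6 := hG κ (by omega) _ (hu.mem (by omega)) h5
  refine concl K hu e fun l k hk => ?_
  have h1 := K.d_pos l
  by_cases h2 : d l = 1
  · obtain rfl := hl l h2
    obtain rfl : k = κ := by omega
    exact h6
  · exact small hV hu hk (by omega)

lemma C0_sg (K : KF n N M d w cD cS) {l0 m0 : Λ} (h0 : d l0 = 1) (hl : ∀ l, d l = 1 → l = l0)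
    (hm : cD l0 m0 = 1) (hV : V0 κ N) (hA : A0 κ N) (hn : κ + 3 ≤ n) : C0 (κ + 1) (N + M) := by
  intro x hx hs
  obtain ⟨u, hu1, hu2, e⟩ := K.surj (κ + 1) (by omega) x hx
  have hu : Fm d (κ + 1) N u := ⟨hu1, hu2⟩
  have hm0 : d m0 = 2 := by
    have := K.cD_deg l0 m0 (by rw [hm]; exact one_ne_zero)
    omega
  have h4 := coords_S K (s := κ + 1) (by omega) hx hu e hs (m := m0) (k := κ + 1) (by omega)
  unfold Sf at h4
  rw [sumD_two_sg K hl _ hm0, sumS_two K _ (by omega), hm, one_smul, add_zero,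
    dl'_eq (k := κ) (by omega)] at h4
  have h5 := BR_cancel' h4 (small_sg hV hu (by omega) le_rfl)
  have h6 := hA _ (hu.mem (by omega)) h5
  refine concl K hu e fun l k hk => ?_
  have h1 := K.d_pos l
  by_cases h2 : d l = 1
  · obtain rfl := hl l h2
    obtain rfl : k = κ := by omega
    exact h6
  · exact small hV hu hk (by omega)

/-- The coordinates of `sg x` for `x` of index `κ + 2`. -/
lemma F12 (K : KF n N M d w cD cS) {l0 : Λ} (h0 : d l0 = 1) (hl : ∀ l, d l = 1 → l = l0)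
    (hn : κ + 4 ≤ n) {x : RR Empty} (hx : x ∈ ZR (κ + 2) (N + M))
    (hs : sg (κ + 2) x ∈ BR (κ + 4) (2 * (N + M))) {u : Λ → RR Empty} (hu : Fm d (κ + 2) N u)
    (e : x + Sm d w u ∈ BR (κ + 2) (N + M)) :
    sg (κ + 1) (u l0) ∈ BR (κ + 3) (2 * N) ∧ ∀ m, d m = 2 →
      sg κ (u m) + cD l0 m • dl (κ + 1) (u l0) ∈ BR (κ + 2) (2 * N) := by
  constructor
  · have h4 := coords_S K (s := κ + 2) (by omega) hx hu e hs (m := l0) (k := κ + 3) (by omega)
    unfold Sf at h4
    rw [sumD_one K _ (by omega), sumS_two K _ (by omega), add_zero, add_zero,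
      sg'_eq (k := κ + 1) (by omega)] at h4
    exact h4
  · intro m hm
    have h4 := coords_S K (s := κ + 2) (by omega) hx hu e hs (m := m) (k := κ + 2) (by omega)
    unfold Sf at h4
    rw [sumD_two_sg K hl _ hm, sumS_two K _ (by omega), add_zero,
      sg'_eq (k := κ) (by omega), dl'_eq (k := κ + 1) (by omega)] at h4
    exact h4

lemma D1_sg (K : KF n N M d w cD cS) {l0 m0 : Λ} (h0 : d l0 = 1) (hl : ∀ l, d l = 1 → l = l0)
    (hm : cD l0 m0 = 1) (hV : V0 κ N) (hC : C0 κ N) (hG : Gi n N) (hn : κ + 4 ≤ n) :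
    D1 (κ + 1) (N + M) := by
  intro x hx y hy hs hds
  obtain ⟨u, hu1, hu2, e⟩ := K.surj (κ + 2) (by omega) x hx
  have hu : Fm d (κ + 2) N u := ⟨hu1, hu2⟩
  obtain ⟨v, hv1, hv2, e'⟩ := K.surj (κ + 1) (by omega) y hy
  have hv : Fm d (κ + 1) N v := ⟨hv1, hv2⟩
  have hm0 : d m0 = 2 := by
    have := K.cD_deg l0 m0 (by rw [hm]; exact one_ne_zero)
    omega
  obtain ⟨F1, F2⟩ := F12 K h0 hl hn hx hs hu e
  have G1 := coords_DS K (s := κ + 1) (by omega) hx hy hu hv e e' hds (m := l0) (k := κ + 2)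
    (by omega)
  have G2 := coords_DS K (s := κ + 1) (by omega) hx hy hu hv e e' hds (m := m0) (k := κ + 1)
    (by omega)
  unfold Df Sf at G1 G2
  rw [sumD_one K _ (by omega), sumD_one K _ (by omega), sumS_two K _ (by omega), add_zero,
    add_zero, add_zero, dl'_eq (k := κ + 1) (by omega), sg'_eq (k := κ) (by omega)] at G1
  rw [sumD_two_sg K hl _ hm0, sumD_two_sg K hl _ hm0, sumS_two K _ (by omega), add_zero, hm,
    one_smul, one_smul, dl'_eq (k := κ) (by omega), dl'_eq (k := κ) (by omega)] at G2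
  have G2' : dl κ (u m0) + u l0 ^ 2 + dl κ (v l0) ∈ BR (κ + 1) (2 * N) := by
    have h1 : sg' d (κ + 1) v m0 ∈ BR (κ + 1) (2 * N) := small_sg hV hv (by omega) le_rfl
    refine BR_cancel (mem_of_eq G2 ?_) h1
    abel
  -- the sum of the two coordinates
  have hF := F2 m0 hm0
  rw [hm, one_smul] at hF
  have h1 : sg κ (u m0) + sg κ (v l0) ∈ BR (κ + 2) (2 * N) := by
    have h2 := Submodule.add_mem _ hF G1
    refine mem_of_eq h2 ?_
    have := add_self2 (dl (κ + 1) (u l0))
    calc _ = sg κ (u m0) + sg κ (v l0) + (dl (κ + 1) (u l0) + dl (κ + 1) (u l0)) := by abel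
      _ = _ := by rw [this, add_zero]
  have hum : u m0 ∈ ZR κ N := hu.mem (by omega)
  have hvl : v l0 ∈ ZR κ N := hv.mem (by omega)
  have h2 : u m0 + v l0 ∈ BR κ N :=
    hC _ (Submodule.add_mem _ hum hvl) (BR_cancel ((sgOp κ N).add _ hum _ hvl) h1)
  have h3 : dl κ (u m0) + dl κ (v l0) ∈ BR (κ + 1) (2 * N) := (dlOp κ N).congr hum h2
  have h4 : u l0 ^ 2 ∈ BR (κ + 1) (2 * N) := by
    refine BR_cancel' (mem_of_eq G2' ?_) h3
    abel
  have h5 : u l0 ∈ BR (κ + 1) N := hG _ (by omega) _ (hu.mem (by omega)) h4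
  have h6 := dl_BR h5
  have h7 : ∀ m, d m = 2 → u m ∈ BR κ N := fun m hm' =>
    hC _ (hu.mem (by omega)) (BR_cancel (F2 m hm') (Submodule.smul_mem _ _ h6))
  have h8 : v l0 ∈ BR κ N := hC _ hvl (BR_cancel' G1 h6)
  constructor
  · refine concl K hu e fun l k hk => ?_
    have g1 := K.d_pos l
    by_cases g2 : d l = 1
    · obtain rfl := hl l g2
      obtain rfl : k = κ + 1 := by omega
      exact h5
    by_cases g3 : d l = 2
    · obtain rfl : k = κ := by omega
      exact h7 l g3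
    · exact small hV hu hk (by omega)
  · refine concl K hv e' fun l k hk => ?_
    have g1 := K.d_pos l
    by_cases g2 : d l = 1
    · obtain rfl := hl l g2
      obtain rfl : k = κ := by omega
      exact h8
    · exact small hV hv hk (by omega)

lemma C1_sg (K : KF n N M d w cD cS) {l0 m0 : Λ} (h0 : d l0 = 1) (hl : ∀ l, d l = 1 → l = l0)
    (hm : cD l0 m0 = 1) (hV : V0 κ N) (hD : D1 κ N) (hn : κ + 4 ≤ n) : C1 (κ + 1) (N + M) := by
  intro x hx hs
  obtain ⟨u, hu1, hu2, e⟩ := K.surj (κ + 2) (by omega) x hx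
  have hu : Fm d (κ + 2) N u := ⟨hu1, hu2⟩
  have hm0 : d m0 = 2 := by
    have := K.cD_deg l0 m0 (by rw [hm]; exact one_ne_zero)
    omega
  obtain ⟨F1, F2⟩ := F12 K h0 hl hn hx hs hu e
  have hF := F2 m0 hm0
  rw [hm, one_smul, add_comm (sg κ (u m0))] at hF
  have hul : u l0 ∈ ZR (κ + 1) N := hu.mem (by omega)
  have hum : u m0 ∈ ZR κ N := hu.mem (by omega)
  obtain ⟨h5, -⟩ := hD (u l0) hul (u m0) hum F1 hF
  have h6 := dl_BR h5
  have h7 : ∀ m, d m = 2 → u m ∈ BR κ N := fun m hm' =>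
    D1.C0 hD (u m) (hu.mem (by omega)) (BR_cancel (F2 m hm') (Submodule.smul_mem _ _ h6))
  refine concl K hu e fun l k hk => ?_
  have g1 := K.d_pos l
  by_cases g2 : d l = 1
  · obtain rfl := hl l g2
    obtain rfl : k = κ + 1 := by omega
    exact h5
  by_cases g3 : d l = 2
  · obtain rfl : k = κ := by omega
    exact h7 l g3
  · exact small hV hu hk (by omega)

lemma B2_sg (K : KF n N M d w cD cS) {l0 m0 : Λ} (h0 : d l0 = 1) (hl : ∀ l, d l = 1 → l = l0)
    (hm : cD l0 m0 = 1) (hV : V0 κ N) (hC : C1 κ N) (hA : A0 κ N) (hG : Gi n N)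
    (hn : κ + 5 ≤ n) : B2 (κ + 1) (N + M) := by
  intro x hx hd hs
  obtain ⟨u, hu1, hu2, e⟩ := K.surj (κ + 3) (by omega) x hx
  have hu : Fm d (κ + 3) N u := ⟨hu1, hu2⟩
  have hm0 : d m0 = 2 := by
    have := K.cD_deg l0 m0 (by rw [hm]; exact one_ne_zero)
    omega
  have E1 : dl (κ + 2) (u l0) ∈ BR (κ + 3) (2 * N) := by
    have h4 := coords_D K (s := κ + 3) (by omega) hx hu e hd (m := l0) (k := κ + 3) (by omega)
    unfold Df at h4
    rw [sumD_one K _ (by omega), add_zero, dl'_eq (k := κ + 2) (by omega)] at h4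
    exact h4
  have h7 : ∀ m, d m = 2 → u m ∈ BR (κ + 1) N := by
    intro m hm'
    have h4 := coords_S K (s := κ + 3) (by omega) hx hu e hs (m := m) (k := κ + 3) (by omega)
    unfold Sf at h4
    rw [sumD_two_sg K hl _ hm', sumS_two K _ (by omega), add_zero,
      sg'_eq (k := κ + 1) (by omega), dl'_eq (k := κ + 2) (by omega)] at h4
    exact hC _ (hu.mem (by omega)) (BR_cancel h4 (Submodule.smul_mem _ _ E1))
  have h5 : u l0 ∈ BR (κ + 2) N := by
    have h4 := coords_D K (s := κ + 3) (by omega) hx hu e hd (m := m0) (k := κ + 2) (by omega)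
    unfold Df at h4
    rw [sumD_two_sg K hl _ hm0, hm, one_smul, dl'_eq (k := κ + 1) (by omega)] at h4
    exact hG _ (by omega) _ (hu.mem (by omega)) (BR_cancel' h4 (dl_BR (h7 m0 hm0)))
  refine concl K hu e fun l k hk => ?_
  have h1 := K.d_pos l
  by_cases h2 : d l = 1
  · obtain rfl := hl l h2
    obtain rfl : k = κ + 2 := by omega
    exact h5
  by_cases h3 : d l = 2
  · obtain rfl : k = κ + 1 := by omega
    exact h7 l h3
  by_cases h3' : d l = 3
  · obtain rfl : k = κ := by omega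
    refine hA _ (hu.mem hk) ?_
    have h4 := coords_D K (s := k + 3) (by omega) hx hu e hd (m := l) (k := k + 1) (by omega)
    unfold Df at h4
    rw [dl'_eq hk] at h4
    refine BR_cancel h4 (Submodule.sum_mem _ fun l' _ => ?_)
    by_cases h0' : cD l' l = 0
    · rw [h0', zero_smul]
      exact Submodule.zero_mem _
    · have h5 := K.cD_deg l' l h0'
      exact Submodule.smul_mem _ _ (sq_BR (h7 l' (by omega)))
  · exact small hV hu hk (by omega)

lemma X1_sg (K : KF n N M d w cD cS) {l0 m0 : Λ} (h0 : d l0 = 1) (hl : ∀ l, d l = 1 → l = l0)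
    (hm : cD l0 m0 = 1) (hV : V0 κ N) (hA : A0 κ N) (hn : κ + 3 ≤ n) : X1 (κ + 1) (N + M) := by
  intro x hx hd
  obtain ⟨u, hu1, hu2, e⟩ := K.surj (κ + 2) (by omega) x hx
  have hu : Fm d (κ + 2) N u := ⟨hu1, hu2⟩
  have hm0 : d m0 = 2 := by
    have := K.cD_deg l0 m0 (by rw [hm]; exact one_ne_zero)
    omega
  have E2 : ∀ m, d m = 2 → dl κ (u m) + cD l0 m • u l0 ^ 2 ∈ BR (κ + 1) (2 * N) := by
    intro m hm'
    have h4 := coords_D K (s := κ + 2) (by omega) hx hu e hd (m := m) (k := κ + 1) (by omega)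
    unfold Df at h4
    rw [sumD_two_sg K hl _ hm', dl'_eq (k := κ) (by omega)] at h4
    exact h4
  have hE := E2 m0 hm0
  rw [hm, one_smul] at hE
  have hv : u m0 ∈ ZR κ N := hu.mem (by omega)
  set y : Λ → RR Empty := fun l => if d l = 1 then u m0 else 0 with hy
  have hy1 : ∀ l, d l = 1 → y l = u m0 := fun l hl => by rw [hy]; exact if_pos hl
  have hy0 : ∀ l, d l ≠ 1 → y l = 0 := fun l hl => by rw [hy]; exact if_neg hl
  have hyF : Fm d (κ + 1) N y := by
    refine ⟨fun l hl' => ?_, fun l hl' => hy0 l (by omega)⟩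
    by_cases h : d l = 1
    · rw [hy1 l h, h, Nat.add_sub_cancel]
      exact hv
    · rw [hy0 l h]
      exact Submodule.zero_mem _
  refine exact_of K (by omega) hx hu e hyF fun l k hk => ?_
  have h1 := K.d_pos l
  by_cases h2 : d l = 1
  · obtain rfl : k = κ + 1 := by omega
    unfold Df
    rw [sumD_one K _ (by omega), add_zero, dl'_eq (k := κ) (by omega), hy1 l h2, hl l h2]
    exact hE
  have e1 : dl' d (κ + 1) y l = 0 := by
    unfold dl'
    rw [hy0 l h2, dl_zero, ite_self]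
  unfold Df
  rw [e1, zero_add]
  by_cases h3 : d l = 2
  · obtain rfl : k = κ := by omega
    rw [sumD_two_sg K hl _ h3, hy1 l0 h0]
    have e2 : cD l0 l • u m0 ^ 2 + u l ^ 2 = (u l + cD l0 l • u m0) ^ 2 := by
      rw [sq_add, smul_sq, add_comm]
    rw [e2]
    have hcv : cD l0 l • u m0 ∈ ZR k N := Submodule.smul_mem _ _ hv
    refine sq_BR (hA _ (Submodule.add_mem _ (hu.mem (by omega)) hcv) ?_)
    have a1 := (dlOp k N).add (u l) (hu.mem (by omega)) _ hcv
    rw [(dlOp k N).smul] at a1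
    have a2 := E2 l h3
    have a3 := Submodule.smul_mem _ (cD l0 l) hE
    rw [smul_add] at a3
    refine mem_of_eq (Submodule.add_mem _ a1 (Submodule.add_mem _ a2 a3)) ?_
    have b1 := add_self2 (dl k (u l))
    have b2 := add_self2 (cD l0 l • dl k (u m0))
    have b3 := add_self2 (cD l0 l • u l0 ^ 2)
    calc _ = dl k (u l + cD l0 l • u m0) + (dl k (u l) + dl k (u l)) +
          (cD l0 l • dl k (u m0) + cD l0 l • dl k (u m0)) +
          (cD l0 l • u l0 ^ 2 + cD l0 l • u l0 ^ 2) := by abel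
      _ = _ := by rw [b1, b2, b3, add_zero, add_zero, add_zero]
  · have e2 : ∑ l', cD l' l • y l' ^ 2 = 0 := by
      refine Finset.sum_eq_zero fun l' _ => ?_
      by_cases h0' : cD l' l = 0
      · rw [h0', zero_smul]
      · have h5 := K.cD_deg l' l h0'
        rw [hy0 l' (by omega), zero_pow two_ne_zero, smul_zero]
    rw [e2, zero_add]
    exact sq_BR (small hV hu hk (by omega))

lemma X2_sg (K : KF n N M d w cD cS) {l0 m0 : Λ} (h0 : d l0 = 1) (hl : ∀ l, d l = 1 → l = l0)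
    (hm : cD l0 m0 = 1) (hr : ∀ ν, ∑ m, cD l0 m * cD m ν = 0) (hV : V0 κ N) (hA : A0 κ N)
    (hX : X1 κ N) (hn : κ + 4 ≤ n) : X2e (κ + 1) (N + M) := by
  intro x hx hd
  obtain ⟨u, hu1, hu2, e⟩ := K.surj (κ + 3) (by omega) x hx
  have hu : Fm d (κ + 3) N u := ⟨hu1, hu2⟩
  have hm0 : d m0 = 2 := by
    have := K.cD_deg l0 m0 (by rw [hm]; exact one_ne_zero)
    omega
  have E2 : ∀ m, d m = 2 → dl (κ + 1) (u m) + cD l0 m • u l0 ^ 2 ∈ BR (κ + 2) (2 * N) := by
    intro m hm'
    have h4 := coords_D K (s := κ + 3) (by omega) hx hu e hd (m := m) (k := κ + 2) (by omega)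
    unfold Df at h4
    rw [sumD_two_sg K hl _ hm', dl'_eq (k := κ + 1) (by omega)] at h4
    exact h4
  have hE := E2 m0 hm0
  rw [hm, one_smul] at hE
  have hv : u m0 ∈ ZR (κ + 1) N := hu.mem (by omega)
  have key2 : ∀ l, ∃ z, d l = 2 → (z ∈ ZR κ N ∧
      dl κ z + (u l + cD l0 l • u m0) ^ 2 ∈ BR (κ + 1) (2 * N)) := by
    intro l
    by_cases h3 : d l = 2
    · have hcv : cD l0 l • u m0 ∈ ZR (κ + 1) N := Submodule.smul_mem _ _ hv
      have hul : u l ∈ ZR (κ + 1) N := hu.mem (by omega)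
      obtain ⟨z, hz, hz'⟩ := hX (u l + cD l0 l • u m0) (Submodule.add_mem _ hul hcv) (by
        have a1 := (dlOp (κ + 1) N).add (u l) hul _ hcv
        rw [(dlOp (κ + 1) N).smul] at a1
        have a2 := E2 l h3
        have a3 := Submodule.smul_mem _ (cD l0 l) hE
        rw [smul_add] at a3
        refine mem_of_eq (Submodule.add_mem _ a1 (Submodule.add_mem _ a2 a3)) ?_
        have b1 := add_self2 (dl (κ + 1) (u l))
        have b2 := add_self2 (cD l0 l • dl (κ + 1) (u m0))
        have b3 := add_self2 (cD l0 l • u l0 ^ 2)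
        calc _ = dl (κ + 1) (u l + cD l0 l • u m0) + (dl (κ + 1) (u l) + dl (κ + 1) (u l)) +
              (cD l0 l • dl (κ + 1) (u m0) + cD l0 l • dl (κ + 1) (u m0)) +
              (cD l0 l • u l0 ^ 2 + cD l0 l • u l0 ^ 2) := by abel
          _ = _ := by rw [b1, b2, b3, add_zero, add_zero, add_zero])
      exact ⟨z, fun _ => ⟨hz, hz'⟩⟩
    · exact ⟨0, fun h => absurd h h3⟩
  choose z hz using key2
  set y : Λ → RR Empty := fun l => if d l = 1 then u m0 else if d l = 2 then z l else 0 with hy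
  have hy1 : ∀ l, d l = 1 → y l = u m0 := fun l hl => by rw [hy]; exact if_pos hl
  have hy2 : ∀ l, d l = 2 → y l = z l := fun l hl => by
    rw [hy]
    beta_reduce
    rw [if_neg (by omega), if_pos hl]
  have hy0 : ∀ l, d l ≠ 1 → d l ≠ 2 → y l = 0 := fun l hl hl' => by
    rw [hy]
    beta_reduce
    rw [if_neg hl, if_neg hl']
  have hyF : Fm d (κ + 2) N y := by
    refine ⟨fun l hl' => ?_, fun l hl' => hy0 l (by omega) (by omega)⟩
    by_cases h : d l = 1
    · rw [hy1 l h, h, show κ + 2 - 1 = κ + 1 by omega]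
      exact hv
    by_cases h' : d l = 2
    · rw [hy2 l h', h', Nat.add_sub_cancel]
      exact (hz l h').1
    · rw [hy0 l h h']
      exact Submodule.zero_mem _
  refine exact_of K (by omega) hx hu e hyF fun l k hk => ?_
  have h1 := K.d_pos l
  by_cases h2 : d l = 1
  · obtain rfl : k = κ + 2 := by omega
    unfold Df
    rw [sumD_one K _ (by omega), add_zero, dl'_eq (k := κ + 1) (by omega), hy1 l h2, hl l h2]
    exact hE
  by_cases h3 : d l = 2
  · obtain rfl : k = κ + 1 := by omega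
    unfold Df
    rw [sumD_two_sg K hl _ h3, dl'_eq (k := κ) (by omega), hy2 l h3, hy1 l0 h0]
    refine mem_of_eq (hz l h3).2 ?_
    rw [sq_add, smul_sq]
    abel
  have e1 : dl' d (κ + 2) y l = 0 := by
    unfold dl'
    rw [hy0 l h2 h3, dl_zero, ite_self]
  unfold Df
  rw [e1, zero_add]
  by_cases h3' : d l = 3
  · obtain rfl : k = κ := by omega
    have e2 : ∑ l', cD l' l • y l' ^ 2 + u l ^ 2 = (u l + ∑ l', cD l' l • y l') ^ 2 := by
      rw [sq_add, sum_sq, add_comm]
      congr 1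
      exact Finset.sum_congr rfl fun l' _ => (smul_sq _ _).symm
    rw [e2]
    have hm' : ∀ l', cD l' l • y l' ∈ ZR k N := by
      intro l'
      by_cases h0' : cD l' l = 0
      · rw [h0', zero_smul]
        exact Submodule.zero_mem _
      · have h5 := K.cD_deg l' l h0'
        rw [hy2 l' (by omega)]
        exact Submodule.smul_mem _ _ (hz l' (by omega)).1
    refine sq_BR (hA _ (Submodule.add_mem _ (hu.mem (by omega))
      (Submodule.sum_mem _ fun l' _ => hm' l')) ?_)
    have a1 := (dlOp k N).add (u l) (hu.mem (by omega)) (∑ l', cD l' l • y l')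
      (Submodule.sum_mem _ fun l' _ => hm' l')
    have a2 := (dlOp k N).sum Finset.univ (fun l' => cD l' l • y l') fun l' _ => hm' l'
    have a3 := coords_D K (s := k + 3) (by omega) hx hu e hd (m := l) (k := k + 1)
      (by omega)
    unfold Df at a3
    rw [dl'_eq (k := k) (by omega)] at a3
    have a4 : ∑ l', (dl k (cD l' l • y l') + cD l' l • u l' ^ 2 +
        (cD l0 l' * cD l' l) • u m0 ^ 2) ∈ BR (k + 1) (2 * N) := by
      refine Submodule.sum_mem _ fun l' _ => ?_
      by_cases h0' : cD l' l = 0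
      · rw [h0', zero_smul, zero_smul, mul_zero, zero_smul, dl_zero, add_zero, add_zero]
        exact Submodule.zero_mem _
      · have h5 := K.cD_deg l' l h0'
        rw [hy2 l' (by omega)]
        refine mem_of_eq (Submodule.smul_mem _ (cD l' l) (hz l' (by omega)).2) ?_
        rw [(dlOp k N).smul, sq_add, smul_sq, smul_add, smul_add, smul_smul,
          mul_comm (cD l' l), add_assoc]
    rw [Finset.sum_add_distrib, Finset.sum_add_distrib, ← Finset.sum_smul, hr l, zero_smul,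
      add_zero] at a4
    have a5 := Submodule.add_mem _ (Submodule.add_mem _ a1 a2) (Submodule.add_mem _ a3 a4)
    refine mem_of_eq a5 ?_
    have b1 := add_self2 (dl k (u l))
    have b2 := add_self2 (dl k (∑ l', cD l' l • y l'))
    have b3 := add_self2 (∑ l', dl k (cD l' l • y l'))
    have b4 := add_self2 (∑ l', cD l' l • u l' ^ 2)
    calc _ = dl k (u l + ∑ l', cD l' l • y l') + (dl k (u l) + dl k (u l)) +
          (dl k (∑ l', cD l' l • y l') + dl k (∑ l', cD l' l • y l')) +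
          (∑ l', dl k (cD l' l • y l') + ∑ l', dl k (cD l' l • y l')) +
          (∑ l', cD l' l • u l' ^ 2 + ∑ l', cD l' l • u l' ^ 2) := by abel
      _ = _ := by rw [b1, b2, b3, b4, add_zero, add_zero, add_zero, add_zero]
  · have e2 : ∑ l', cD l' l • y l' ^ 2 = 0 := by
      refine Finset.sum_eq_zero fun l' _ => ?_
      by_cases h0' : cD l' l = 0
      · rw [h0', zero_smul]
      · have h5 := K.cD_deg l' l h0'
        rw [hy0 l' (by omega) (by omega), zero_pow two_ne_zero, smul_zero]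
    rw [e2, zero_add]
    exact sq_BR (small hV hu hk (by omega))

end

end Pool.Agent.Work.MP_701abf_gt.Sq2
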