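import Pool.Agent.Work.MP_701abf_gt.Sq2.StepSg

/-!
Propagation: the steps which add a cluster that is not a power of two raise the index by two.
-/

open MvPolynomial
open Pool.Agent.Work.MP_701abf_gt.Stab Pool.Agent.Work.MP_701abf_gt.Cob

namespace Pool.Agent.Work.MP_701abf_gt.Sq2

noncomputable section

variable {Λ : Type} [Fintype Λ] {d : Λ → ℕ} {w : Λ → RR Empty} {cD cS : Λ → Λ → ZMod 2}
  {N M : ℤ} {n κ : ℕ}

lemma sumS_three_cl (K : KF n N M d w cD cS) (hc : ∀ l, d l ≠ 1) (F : Λ → RR Empty) {m : Λ}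
    (h : d m ≤ 3) : ∑ l, cS l m • F l = 0 := by
  refine Finset.sum_eq_zero fun l _ => ?_
  by_cases h0 : cS l m = 0
  · rw [h0, zero_smul]
  · have h1 := K.cS_deg l m h0
    have h2 := K.d_pos l
    have h3 := hc l
    omega

lemma A0_tw (K : KF n N M d w cD cS) (hc : ∀ l, d l ≠ 1) (hV : V0 κ N) (hA : A0 κ N)
    (hn : κ + 3 ≤ n) : A0 (κ + 2) (N + M) := by
  intro x hx hd
  obtain ⟨u, hu1, hu2, e⟩ := K.surj (κ + 2) (by omega) x hx
  have hu : Fm d (κ + 2) N u := ⟨hu1, hu2⟩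
  refine concl K hu e fun l k hk => ?_
  have h1 := K.d_pos l
  have h2 := hc l
  by_cases h3 : d l = 2
  · obtain rfl : k = κ := by omega
    refine hA _ (hu.mem hk) ?_
    have h4 := coords_D K (s := k + 2) (by omega) hx hu e hd (m := l) (k := k + 1) (by omega)
    unfold Df at h4
    rw [sumD_two_cl K hc _ (by omega), add_zero, dl'_eq hk] at h4
    exact h4
  · exact small hV hu hk (by omega)

lemma C0_tw (K : KF n N M d w cD cS) (hc : ∀ l, d l ≠ 1) (hV : V0 κ N) (hC : C0 κ N)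
    (hn : κ + 4 ≤ n) : C0 (κ + 2) (N + M) := by
  intro x hx hs
  obtain ⟨u, hu1, hu2, e⟩ := K.surj (κ + 2) (by omega) x hx
  have hu : Fm d (κ + 2) N u := ⟨hu1, hu2⟩
  refine concl K hu e fun l k hk => ?_
  have h1 := K.d_pos l
  have h2 := hc l
  by_cases h3 : d l = 2
  · obtain rfl : k = κ := by omega
    refine hC _ (hu.mem hk) ?_
    have h4 := coords_S K (s := k + 2) (by omega) hx hu e hs (m := l) (k := k + 2) (by omega)
    unfold Sf at h4
    rw [sumD_two_cl K hc _ (by omega), sumS_two K _ (by omega), add_zero, add_zero,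
      sg'_eq hk] at h4
    exact h4
  · exact small hV hu hk (by omega)

/-- The coordinates of `sg x` for `x` of index `κ + 3`. -/
lemma S23 (K : KF n N M d w cD cS) (hc : ∀ l, d l ≠ 1) (hn : κ + 5 ≤ n) {x : RR Empty}
    (hx : x ∈ ZR (κ + 3) (N + M)) (hs : sg (κ + 3) x ∈ BR (κ + 5) (2 * (N + M)))
    {u : Λ → RR Empty} (hu : Fm d (κ + 3) N u) (e : x + Sm d w u ∈ BR (κ + 3) (N + M)) :
    (∀ m, d m = 2 → sg (κ + 1) (u m) ∈ BR (κ + 3) (2 * N)) ∧
    ((∀ m, d m = 2 → u m ∈ BR (κ + 1) N) → ∀ m, d m = 3 →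
      sg κ (u m) ∈ BR (κ + 2) (2 * N)) := by
  constructor
  · intro m hm
    have h4 := coords_S K (s := κ + 3) (by omega) hx hu e hs (m := m) (k := κ + 3) (by omega)
    unfold Sf at h4
    rw [sumD_two_cl K hc _ (by omega), sumS_two K _ (by omega), add_zero, add_zero,
      sg'_eq (k := κ + 1) (by omega)] at h4
    exact h4
  · intro hB m hm
    have h4 := coords_S K (s := κ + 3) (by omega) hx hu e hs (m := m) (k := κ + 2) (by omega)
    unfold Sf at h4
    rw [sumS_three_cl K hc _ (by omega), add_zero, sg'_eq (k := κ) (by omega)] at h4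
    refine BR_cancel h4 (Submodule.sum_mem _ fun l' _ => ?_)
    by_cases h0 : cD l' m = 0
    · rw [h0, zero_smul]
      exact Submodule.zero_mem _
    · have h5 := K.cD_deg l' m h0
      rw [dl'_eq (k := κ + 1) (by omega)]
      exact Submodule.smul_mem _ _ (dl_BR (hB l' (by omega)))

lemma C1_tw (K : KF n N M d w cD cS) (hc : ∀ l, d l ≠ 1) (hV : V0 κ N) (hC : C0 κ N)
    (hC1 : C1 κ N) (hn : κ + 5 ≤ n) : C1 (κ + 2) (N + M) := by
  intro x hx hs
  obtain ⟨u, hu1, hu2, e⟩ := K.surj (κ + 3) (by omega) x hx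
  have hu : Fm d (κ + 3) N u := ⟨hu1, hu2⟩
  obtain ⟨F1, F2⟩ := S23 K hc hn hx hs hu e
  have G1 : ∀ m, d m = 2 → u m ∈ BR (κ + 1) N := fun m hm => hC1 _ (hu.mem (by omega)) (F1 m hm)
  have G2 : ∀ m, d m = 3 → u m ∈ BR κ N := fun m hm => hC _ (hu.mem (by omega)) (F2 G1 m hm)
  refine concl K hu e fun l k hk => ?_
  have h1 := K.d_pos l
  have h2 := hc l
  by_cases h3 : d l = 2
  · obtain rfl : k = κ + 1 := by omega
    exact G1 l h3
  by_cases h3' : d l = 3
  · obtain rfl : k = κ := by omega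
    exact G2 l h3'
  · exact small hV hu hk (by omega)

lemma D1_tw (K : KF n N M d w cD cS) (hc : ∀ l, d l ≠ 1) (hV : V0 κ N) (hD : D1 κ N)
    (hn : κ + 5 ≤ n) : D1 (κ + 2) (N + M) := by
  intro x hx y hy hs hds
  obtain ⟨u, hu1, hu2, e⟩ := K.surj (κ + 3) (by omega) x hx
  have hu : Fm d (κ + 3) N u := ⟨hu1, hu2⟩
  obtain ⟨v, hv1, hv2, e'⟩ := K.surj (κ + 2) (by omega) y hy
  have hv : Fm d (κ + 2) N v := ⟨hv1, hv2⟩
  obtain ⟨F1, F2⟩ := S23 K hc hn hx hs hu e
  have G : ∀ m, d m = 2 → u m ∈ BR (κ + 1) N ∧ v m ∈ BR κ N := by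
    intro m hm
    have h4 := coords_DS K (s := κ + 2) (by omega) hx hy hu hv e e' hds (m := m) (k := κ + 2)
      (by omega)
    unfold Df Sf at h4
    rw [sumD_two_cl K hc _ (by omega), sumD_two_cl K hc _ (by omega), sumS_two K _ (by omega),
      add_zero, add_zero, add_zero, dl'_eq (k := κ + 1) (by omega),
      sg'_eq (k := κ) (by omega)] at h4
    exact hD (u m) (hu.mem (by omega)) (v m) (hv.mem (by omega)) (F1 m hm) h4
  have G2 : ∀ m, d m = 3 → u m ∈ BR κ N := fun m hm =>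
    D1.C0 hD (u m) (hu.mem (by omega)) (F2 (fun m hm => (G m hm).1) m hm)
  constructor
  · refine concl K hu e fun l k hk => ?_
    have h1 := K.d_pos l
    have h2 := hc l
    by_cases h3 : d l = 2
    · obtain rfl : k = κ + 1 := by omega
      exact (G l h3).1
    by_cases h3' : d l = 3
    · obtain rfl : k = κ := by omega
      exact G2 l h3'
    · exact small hV hu hk (by omega)
  · refine concl K hv e' fun l k hk => ?_
    have h1 := K.d_pos l
    have h2 := hc l
    by_cases h3 : d l = 2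
    · obtain rfl : k = κ := by omega
      exact (G l h3).2
    · exact small hV hv hk (by omega)

/-- `dl` and `sg` are jointly injective in index `κ + 1` -/
def B1 (κ : ℕ) (t : ℤ) : Prop := ∀ u ∈ ZR (κ + 1) t, dl (κ + 1) u ∈ BR (κ + 2) (2 * t) →
  sg (κ + 1) u ∈ BR (κ + 3) (2 * t) → u ∈ BR (κ + 1) t

lemma B1_sg (K : KF n N M d w cD cS) {l0 m0 : Λ} (h0 : d l0 = 1) (hl : ∀ l, d l = 1 → l = l0)
    (hm : cD l0 m0 = 1) (hV : V0 κ N) (hC : C0 κ N) (hG : Gi n N)
    (hn : κ + 4 ≤ n) : B1 (κ + 1) (N + M) := by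
  intro x hx hd hs
  obtain ⟨u, hu1, hu2, e⟩ := K.surj (κ + 2) (by omega) x hx
  have hu : Fm d (κ + 2) N u := ⟨hu1, hu2⟩
  have hm0 : d m0 = 2 := by
    have := K.cD_deg l0 m0 (by rw [hm]; exact one_ne_zero)
    omega
  have E1 : dl (κ + 1) (u l0) ∈ BR (κ + 2) (2 * N) := by
    have h4 := coords_D K (s := κ + 2) (by omega) hx hu e hd (m := l0) (k := κ + 2) (by omega)
    unfold Df at h4
    rw [sumD_one K _ (by omega), add_zero, dl'_eq (k := κ + 1) (by omega)] at h4
    exact h4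
  obtain ⟨-, F2⟩ := F12 K h0 hl hn hx hs hu e
  have h7 : ∀ m, d m = 2 → u m ∈ BR κ N := fun m hm' =>
    hC _ (hu.mem (by omega)) (BR_cancel (F2 m hm') (Submodule.smul_mem _ _ E1))
  have h5 : u l0 ∈ BR (κ + 1) N := by
    have h4 := coords_D K (s := κ + 2) (by omega) hx hu e hd (m := m0) (k := κ + 1) (by omega)
    unfold Df at h4
    rw [sumD_two_sg K hl _ hm0, hm, one_smul, dl'_eq (k := κ) (by omega)] at h4
    exact hG _ (by omega) _ (hu.mem (by omega)) (BR_cancel' h4 (dl_BR (h7 m0 hm0)))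
  refine concl K hu e fun l k hk => ?_
  have g1 := K.d_pos l
  by_cases g2 : d l = 1
  · obtain rfl := hl l g2
    obtain rfl : k = κ + 1 := by omega
    exact h5
  by_cases g3 : d l = 2
  · obtain rfl : k = κ := by omega
    exact h7 l g3
  · exact small hV hu hk (by omega)

lemma B1_tw (K : KF n N M d w cD cS) (hc : ∀ l, d l ≠ 1) (hV : V0 κ N) (hA : A0 κ N)
    (hB : B1 κ N) (hn : κ + 5 ≤ n) : B1 (κ + 2) (N + M) := by
  intro x hx hd hs
  obtain ⟨u, hu1, hu2, e⟩ := K.surj (κ + 3) (by omega) x hx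
  have hu : Fm d (κ + 3) N u := ⟨hu1, hu2⟩
  obtain ⟨F1, -⟩ := S23 K hc hn hx hs hu e
  have G1 : ∀ m, d m = 2 → u m ∈ BR (κ + 1) N := by
    intro m hm
    have h4 := coords_D K (s := κ + 3) (by omega) hx hu e hd (m := m) (k := κ + 2) (by omega)
    unfold Df at h4
    rw [sumD_two_cl K hc _ (by omega), add_zero, dl'_eq (k := κ + 1) (by omega)] at h4
    exact hB _ (hu.mem (by omega)) h4 (F1 m hm)
  refine concl K hu e fun l k hk => ?_
  have h1 := K.d_pos l
  have h2 := hc l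
  by_cases h3 : d l = 2
  · obtain rfl : k = κ + 1 := by omega
    exact G1 l h3
  by_cases h3' : d l = 3
  · obtain rfl : k = κ := by omega
    refine hA _ (hu.mem hk) ?_
    have h4 := coords_D K (s := k + 3) (by omega) hx hu e hd (m := l) (k := k + 1) (by omega)
    unfold Df at h4
    rw [dl'_eq hk] at h4
    refine BR_cancel h4 (Submodule.sum_mem _ fun l' _ => ?_)
    by_cases h0 : cD l' l = 0
    · rw [h0, zero_smul]
      exact Submodule.zero_mem _
    · have h5 := K.cD_deg l' l h0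
      exact Submodule.smul_mem _ _ (sq_BR (G1 l' (by omega)))
  · exact small hV hu hk (by omega)

lemma X1_tw (K : KF n N M d w cD cS) (hc : ∀ l, d l ≠ 1) (hV : V0 κ N) (hA : A0 κ N)
    (hX : X1 κ N) (hn : κ + 4 ≤ n) : X1 (κ + 2) (N + M) :=
  X2_cl K hc hV hA hX hn

end

end Pool.Agent.Work.MP_701abf_gt.Sq2
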