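import Pool.Agent.Work.MP_701abf_gt.Stab.HS

/-!
Sums in characteristic two.
-/

namespace Pool.Agent.Work.MP_701abf_gt.Sq2

open Finset
open Pool.Agent.Work.MP_701abf_gt.Stab (add_self2)

variable {A : Type*} [AddCommGroup A] [Module (ZMod 2) A]

lemma sum_tel (φ : ℕ → A) (N : ℕ) : ∑ w ∈ range N, (φ (w + 1) + φ w) = φ N + φ 0 := by
  induction N with
  | zero => rw [sum_range_zero, add_self2]
  | succ N ih =>
    rw [sum_range_succ, ih]
    have := add_self2 (φ N)
    calc φ N + φ 0 + (φ (N + 1) + φ N) = φ (N + 1) + φ 0 + (φ N + φ N) := by abel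
      _ = φ (N + 1) + φ 0 := by rw [this, add_zero]

omit [Module (ZMod 2) A] in
lemma offdiag (h : ℕ → ℕ → A) (N : ℕ) (hd : ∀ k, h k k = 0) :
    ∑ w ∈ range N, ∑ k ∈ range N, h w k = ∑ k ∈ range N, ∑ m ∈ range k, (h m k + h k m) := by
  induction N with
  | zero => simp
  | succ N ih =>
    rw [sum_range_succ, sum_range_succ (fun k => ∑ m ∈ range k, (h m k + h k m)), ← ih,
      sum_range_succ (fun k => h N k), hd, add_zero]
    have : ∑ w ∈ range N, ∑ k ∈ range (N + 1), h w k =
        ∑ w ∈ range N, ∑ k ∈ range N, h w k + ∑ w ∈ range N, h w N := by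
      rw [← sum_add_distrib]
      exact sum_congr rfl fun w _ => sum_range_succ _ _
    rw [this, sum_add_distrib]
    abel

lemma symm_zero (h : ℕ → ℕ → A) (N : ℕ) (hd : ∀ k, h k k = 0) (hs : ∀ i j, h i j = h j i) :
    ∑ w ∈ range N, ∑ k ∈ range N, h w k = 0 := by
  rw [offdiag h N hd]
  refine sum_eq_zero fun k _ => sum_eq_zero fun m _ => ?_
  rw [hs m k, add_self2]

/-- The increasing map which misses `w`. -/
def skn (w u : ℕ) : ℕ := if u < w then u else u + 1

/-- The decreasing inverse of `skn`. -/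
def un (w u : ℕ) : ℕ := if u < w then u else u - 1

lemma un_skn (w u : ℕ) : un w (skn w u) = u := by
  unfold un skn; split_ifs <;> omega

lemma skn_un {w u : ℕ} (h : u ≠ w) : skn w (un w u) = u := by
  unfold un skn; split_ifs <;> omega

lemma skn_ne (w u : ℕ) : skn w u ≠ w := by
  unfold skn; split_ifs <;> omega

/-- The number of the indices below `i`, counted with `w`. -/
def sup (w i : ℕ) : ℕ := if i ≤ w then i else i + 1

omit [Module (ZMod 2) A] in
lemma sum_skn (g : ℕ → A) (w i : ℕ) (h : g w = 0) :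
    ∑ u ∈ range i, g (skn w u) = ∑ u ∈ range (sup w i), g u := by
  induction i with
  | zero =>
    unfold sup
    rw [if_pos (Nat.zero_le w)]
    rfl
  | succ i ih =>
    rw [sum_range_succ, ih]
    unfold sup skn
    rcases lt_trichotomy i w with h1 | h1 | h1
    · simp only [show i ≤ w by omega, h1, show i + 1 ≤ w by omega, if_true]
      rw [sum_range_succ]
    · subst h1
      simp only [le_refl, lt_irrefl, if_true, if_false, show ¬ (i + 1 ≤ i) by omega]
      rw [sum_range_succ, sum_range_succ, h, add_zero]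
    · simp only [show ¬ (i ≤ w) by omega, show ¬ (i < w) by omega, show ¬ (i + 1 ≤ w) by omega,
        if_false]
      rw [sum_range_succ _ (i + 1)]

omit [Module (ZMod 2) A] in
lemma sum_skn1 (g : ℕ → A) (w i : ℕ) (hw : w ≤ i) (h : g w = 0) :
    ∑ u ∈ range i, g (skn w u) = ∑ u ∈ range (i + 1), g u := by
  rw [sum_skn g w i h]
  unfold sup
  split_ifs with h1
  · obtain rfl : w = i := by omega
    rw [sum_range_succ, h, add_zero]
  · rfl

end Pool.Agent.Work.MP_701abf_gt.Sq2
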